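import Pool.Agent.Q97.BS.Drv

set_option autoImplicit false

open MeasureTheory Filter Topology Complex Set FourierTransform
open scoped ENNReal

namespace Q97.BS

open Q97.MM

noncomputable section

theorem qc_cont (β T U : ℝ) : Continuous (qc β T U) := by
  have h3 : Continuous (fun y : ℝ => deriv Z1 (pt y)) := by
    have : Continuous (deriv Z1) := by
      have := Z1_differentiable.contDiff (n := 2)
      exact this.continuous_deriv (by norm_num)
    exact this.comp pt_cont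
  have h4 := Z1pt_cont
  unfold qc
  fun_prop

theorem qR_cont {β : ℝ} (hβ : 0 < β) (T U : ℝ) : Continuous (qR β T U) := by
  have h1 : Continuous (wt T U) := by unfold wt; fun_prop
  exact (((qc_cont β T U).norm.div_const T).rpow_const fun y => Or.inr hβ.le).mul h1

theorem qR_nonneg {β T U y : ℝ} (hT : 0 < T) : 0 ≤ qR β T U y :=
  mul_nonneg (by positivity) (wt_pos _ _ _).le

/-- pointwise comparison near the centre of the window -/
theorem in_pt {β : ℝ} (hβ : 1 ≤ β) {ε C : ℝ} (hε : 0 < ε) (hC : 0 < C)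
    (hel : ∀ a b : ℝ, 0 ≤ a → 0 ≤ b → (a + b) ^ β ≤ (1 + ε) * a ^ β + C * b ^ β)
    {ϑ : ℝ} (hϑ : 0 < ϑ) (hϑ1 : ϑ ≤ 1 / 4) : ∀ᶠ T : ℝ in atTop, ∀ U : ℝ, Adm T U → ∀ y : ℝ,
      |y - T| ≤ ϑ * (U * Real.log T) →
      dR β T U y ≤ (1 / (1 - 2 * ϑ)) ^ β * ((1 + ε) * qR β T U y +
        C * (3 * ϑ * Real.log T) ^ β * pR β T U y) := by
  filter_upwards [near hϑ hϑ1, eventually_ge_atTop 3, eventually_ge_atTop (2 / ϑ)] with
    T h1 hT h2 U hA y hy
  have hT0 : 0 < T := by linarith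
  have hL := hA.log
  have hU := hA.2.1
  have hU0 : 0 < U := by linarith
  have hβ0 : 0 < β := by linarith
  have hUL : U * Real.log T ≤ T := by
    have := hA.2.2
    rwa [le_div_iff₀ (by linarith)] at this
  obtain ⟨b1, -⟩ := h1 y (hy.trans (mul_le_mul_of_nonneg_left hUL hϑ.le))
  have h12 : 0 < 1 - 2 * ϑ := by linarith
  have hw := wt_pos T U y
  set z := ‖Z1 (pt y)‖ with hz
  have hz0 : 0 ≤ z := norm_nonneg _
  have hz2 : z = ‖pt y - 1‖ * ‖riemannZeta (pt y)‖ := by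
    rw [hz, Z1_of_ne (pt_ne y)]
    exact norm_mul _ _
  have h3 : ‖riemannZeta (pt y)‖ ≤ ϑ * Real.log T * z := by
    have h4 : T / 2 * ‖riemannZeta (pt y)‖ ≤ z := by
      rw [hz2]
      apply mul_le_mul_of_nonneg_right _ (norm_nonneg _)
      nlinarith
    have h5 : 1 ≤ ϑ * Real.log T * (T / 2) := by
      rw [div_le_iff₀ hϑ] at h2
      nlinarith
    have h6 := norm_nonneg (riemannZeta (pt y))
    calc ‖riemannZeta (pt y)‖ ≤ (ϑ * Real.log T * (T / 2)) * ‖riemannZeta (pt y)‖ := by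
          nlinarith
      _ = ϑ * Real.log T * (T / 2 * ‖riemannZeta (pt y)‖) := by ring
      _ ≤ _ := by gcongr
  have h4 : ‖((2 * (y - T) / (β * U ^ 2) : ℝ) : ℂ)‖ ≤ 2 * ϑ * Real.log T := by
    have hbU : 0 < β * U ^ 2 := by positivity
    rw [Complex.norm_real, Real.norm_eq_abs, abs_div, abs_mul, abs_of_pos (by norm_num : (0 : ℝ) < 2),
      abs_of_pos hbU, div_le_iff₀ hbU]
    have h5 : U * 1 ≤ U * (U * β) := by
      apply mul_le_mul_of_nonneg_left _ (by linarith)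
      nlinarith
    calc 2 * |y - T| ≤ 2 * (ϑ * (U * Real.log T)) := by linarith
      _ = 2 * ϑ * Real.log T * (U * 1) := by ring
      _ ≤ 2 * ϑ * Real.log T * (U * (U * β)) := by gcongr
      _ = 2 * ϑ * Real.log T * (β * U ^ 2) := by ring
  have h5 : (1 - 2 * ϑ) * T * ‖hh T y‖ ≤ ‖qc β T U y‖ + 3 * ϑ * Real.log T * z := by
    have h6 : (1 - 2 * ϑ) * T * ‖hh T y‖ ≤ ‖pt y - 1‖ * ‖hh T y‖ := by gcongr
    rw [← norm_mul, hh_eq] at h6
    refine h6.trans ?_
    have e : deriv Z1 (pt y) + ((Real.log T / 2 : ℝ) : ℂ) * Z1 (pt y) - riemannZeta (pt y) =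
        qc β T U y - I * ((2 * (y - T) / (β * U ^ 2) : ℝ) : ℂ) * Z1 (pt y) -
          riemannZeta (pt y) := by
      unfold qc
      ring
    rw [e]
    refine (norm_sub_le _ _).trans ?_
    have h7 := norm_sub_le (qc β T U y) (I * ((2 * (y - T) / (β * U ^ 2) : ℝ) : ℂ) * Z1 (pt y))
    rw [norm_mul, norm_mul, Complex.norm_I, one_mul] at h7
    have h8 : ‖((2 * (y - T) / (β * U ^ 2) : ℝ) : ℂ)‖ * ‖Z1 (pt y)‖ ≤ 2 * ϑ * Real.log T * z := by
      gcongr
    linarith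
  have h6 : ‖hh T y‖ ≤ 1 / (1 - 2 * ϑ) * (‖qc β T U y‖ / T + 3 * ϑ * Real.log T * (z / T)) := by
    have e : 1 / (1 - 2 * ϑ) * (‖qc β T U y‖ / T + 3 * ϑ * Real.log T * (z / T)) =
        (‖qc β T U y‖ + 3 * ϑ * Real.log T * z) / ((1 - 2 * ϑ) * T) := by
      field_simp
    rw [e, le_div_iff₀ (by positivity), mul_comm]
    exact h5
  have h7 : ‖hh T y‖ ^ β ≤ (1 / (1 - 2 * ϑ)) ^ β * ((1 + ε) * (‖qc β T U y‖ / T) ^ β +
      C * ((3 * ϑ * Real.log T) ^ β * (z / T) ^ β)) := by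
    calc ‖hh T y‖ ^ β ≤ (1 / (1 - 2 * ϑ) * (‖qc β T U y‖ / T + 3 * ϑ * Real.log T * (z / T))) ^ β :=
          Real.rpow_le_rpow (norm_nonneg _) h6 hβ0.le
      _ = (1 / (1 - 2 * ϑ)) ^ β * (‖qc β T U y‖ / T + 3 * ϑ * Real.log T * (z / T)) ^ β := by
          rw [Real.mul_rpow (by positivity) (by positivity)]
      _ ≤ _ := by
          apply mul_le_mul_of_nonneg_left _ (by positivity)
          rw [← Real.mul_rpow (by positivity) (by positivity)]
          exact hel _ _ (by positivity) (by positivity)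
  unfold dR qR pR
  calc ‖hh T y‖ ^ β * wt T U y ≤ ((1 / (1 - 2 * ϑ)) ^ β * ((1 + ε) * (‖qc β T U y‖ / T) ^ β +
      C * ((3 * ϑ * Real.log T) ^ β * (z / T) ^ β))) * wt T U y := by gcongr
    _ = _ := by ring

theorem lint_scale {a : ℝ} (ha : 0 < a) {f : ℝ → ℝ≥0∞} (hf : Measurable f) :
    ∫⁻ y, f y = ENNReal.ofReal a * ∫⁻ x, f (a * x) := by
  conv_lhs => rw [← Real.smul_map_volume_mul_left ha.ne']
  rw [lintegral_smul_measure, lintegral_map hf (measurable_const_mul a), abs_of_pos ha, smul_eq_mul]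

/-- the mean of the derivative of the scaled function -/
theorem q_int {β b ε : ℝ} (hβ : 1 ≤ β) (hb : 1 / 2 < b) (hε : 0 < ε) : ∃ C : ℝ, 0 < C ∧
    ∀ᶠ T : ℝ in atTop, ∀ U : ℝ, Adm T U →
      ∫⁻ y in {y : ℝ | |y - T| ≤ T}, ENNReal.ofReal (qR β T U y) ≤
        ENNReal.ofReal ((1 + ε) * (b * Real.log T) ^ β * PI β T U + C / T ^ 3) := by
  have hβ0 : 0 < β := by linarith
  have hb0 : 0 < b := by linarith
  have hπ := Real.pi_pos
  obtain ⟨C₂, hC₂, hbern⟩ := bern hβ hb0 hε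
  set M := ⌈β⌉₊ with hM
  set B := ⌈((M : ℝ) + 4) / β⌉₊ with hB
  obtain ⟨K, hK, hband⟩ := gg_band hb B (v₀ := √(β / 2)) (Real.sqrt_pos.2 (by positivity))
  set K' := (2 * Real.pi + 2 * Real.pi * b) * K + 1 with hK'
  have hK'0 : 0 < K' := by positivity
  refine ⟨C₂ * K' ^ β * 2, by positivity, ?_⟩
  filter_upwards [V_adm hβ0, eventually_ge_atTop 3] with T hV hT U hA
  have hT0 : 0 < T := by linarith
  have hL := log_pos' hT
  have hLT : Real.log T ≤ T := (Real.log_le_sub_one_of_pos hT0).trans (by linarith)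
  set L := Real.log T with hLd
  have hL0 : 0 < L := by linarith
  set ρ := 2 * Real.pi / L with hρ
  have hρ0 : 0 < ρ := by positivity
  have hU := hA.pos
  have hV0 : 0 < U * √(β / 2) := mul_pos hU (Real.sqrt_pos.2 (by positivity))
  obtain ⟨hbnd, htl⟩ := hband T _ hT (hV U hA).1 (hV U hA).2
  set g := gg T (U * √(β / 2)) with hg
  have hcomm : ∀ ξ, (1 + |ξ|) * ‖𝓕 g ξ‖ = (1 + |ξ|) * ‖𝓕 g ξ‖ := fun ξ => rfl
  have hbb := hbern g _ (K / T ^ B) hbnd (hat_int hT hV0 (hV U hA).2) htl (1 / T ^ B)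
    (by positivity) (Icc (-(T / ρ)) (T / ρ))
  rw [hg, A_eq hβ0 hA, ← hg, Real.volume_Icc, ← ENNReal.ofReal_mul (by positivity),
    ← ENNReal.ofReal_mul (by positivity)] at hbb
  have hPI0 : 0 ≤ PI β T U := integral_nonneg fun y => pR_nonneg hT0
  have hTρ : 0 < T / ρ := by positivity
  rw [← ENNReal.ofReal_add (by positivity) (mul_nonneg (by positivity) (by linarith))] at hbb
  have hmS : MeasurableSet {y : ℝ | |y - T| ≤ T} :=
    measurableSet_le (by fun_prop) measurable_const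
  have hmq : Measurable (fun y => ENNReal.ofReal (qR β T U y)) :=
    (qR_cont hβ0 T U).measurable.ennreal_ofReal
  rw [← lintegral_indicator hmS]
  set h : ℝ → ℝ≥0∞ := {y : ℝ | |y - T| ≤ T}.indicator (fun y => ENNReal.ofReal (qR β T U y)) with hh
  have hmh : Measurable h := hmq.indicator hmS
  have hmh' : Measurable (fun x => h (T + x)) := hmh.comp (measurable_const_add T)
  rw [← lintegral_add_left_eq_self h T, lint_scale hρ0 hmh']
  have hpt : ∀ x, h (T + ρ * x) ≤ ENNReal.ofReal (ρ ^ (-β)) *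
      (Icc (-(T / ρ)) (T / ρ)).indicator (fun x => ‖dg g x‖ₑ ^ β) x := by
    intro x
    by_cases hx : |T + ρ * x - T| ≤ T
    · have hx' : x ∈ Icc (-(T / ρ)) (T / ρ) := by
        have e : T + ρ * x - T = ρ * x := by ring
        rw [e, abs_mul, abs_of_pos hρ0] at hx
        have h2 : |x| ≤ T / ρ := by
          rw [le_div_iff₀ hρ0]; linarith
        exact abs_le.mp h2
      rw [hh, indicator_of_mem (show T + ρ * x ∈ {y : ℝ | |y - T| ≤ T} from hx),
        indicator_of_mem hx', enorm_rpow hβ0, ← ENNReal.ofReal_mul (by positivity)]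
      apply ENNReal.ofReal_le_ofReal
      have h3 := dg_pow hβ0 hT hU hbnd (hV U hA).2 x
      rw [← hg, ← hLd, ← hρ] at h3
      rw [← h3, Real.div_rpow (norm_nonneg _) hρ0.le, Real.rpow_neg hρ0.le]
      apply le_of_eq
      ring
    · rw [hh, indicator_of_notMem (show T + ρ * x ∉ {y : ℝ | |y - T| ≤ T} from hx)]
      exact bot_le
  have h4 : ∫⁻ x, h (T + ρ * x) ≤ ENNReal.ofReal (ρ ^ (-β)) *
      ∫⁻ x in Icc (-(T / ρ)) (T / ρ), ‖dg g x‖ₑ ^ β := by
    refine (lintegral_mono hpt).trans ?_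
    rw [lintegral_const_mul' _ _ ENNReal.ofReal_ne_top, lintegral_indicator measurableSet_Icc]
  refine (mul_le_mul_right (h4.trans (mul_le_mul_right hbb _)) _).trans ?_
  rw [← ENNReal.ofReal_mul (by positivity), ← ENNReal.ofReal_mul hρ0.le]
  apply ENNReal.ofReal_le_ofReal
  have e1 : ρ * ρ ^ (-β) = ρ ^ (1 - β) := by
    rw [Real.rpow_sub hρ0, Real.rpow_one, Real.rpow_neg hρ0.le]
    ring
  have e2 : (b * L) ^ β = (2 * Real.pi * b) ^ β * ρ ^ (-β) := by
    have e3 : b * L = (2 * Real.pi * b) * ρ⁻¹ := by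
      rw [hρ]; field_simp
    rw [e3, Real.mul_rpow (by positivity) (by positivity), Real.inv_rpow hρ0.le, Real.rpow_neg hρ0.le]
  have e3 : ρ * (ρ ^ (-β) * ((1 + ε) * (2 * Real.pi * b) ^ β * (L / (2 * Real.pi) * PI β T U))) =
      (1 + ε) * (b * L) ^ β * PI β T U := by
    rw [e2]
    have e4 : ρ * (L / (2 * Real.pi)) = 1 := by rw [hρ]; field_simp
    calc ρ * (ρ ^ (-β) * ((1 + ε) * (2 * Real.pi * b) ^ β * (L / (2 * Real.pi) * PI β T U)))
        = (ρ * (L / (2 * Real.pi))) * ((1 + ε) * ((2 * Real.pi * b) ^ β * ρ ^ (-β)) * PI β T U) := by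
          ring
      _ = _ := by rw [e4, one_mul]
  rw [mul_add, mul_add, e3]
  apply add_le_add le_rfl
  have e4 : ρ * (ρ ^ (-β) * (C₂ * ((2 * Real.pi + 2 * Real.pi * b) * (K / T ^ B) + 1 / T ^ B) ^ β *
      (T / ρ - -(T / ρ)))) = C₂ * (ρ ^ (-β) * (K' / T ^ B) ^ β) * (2 * T) := by
    have e5 : (2 * Real.pi + 2 * Real.pi * b) * (K / T ^ B) + 1 / T ^ B = K' / T ^ B := by
      rw [hK']; ring
    have e6 : ρ * (T / ρ - -(T / ρ)) = 2 * T := by field_simp; ring
    rw [e5]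
    calc ρ * (ρ ^ (-β) * (C₂ * (K' / T ^ B) ^ β * (T / ρ - -(T / ρ)))) =
        (C₂ * (ρ ^ (-β) * (K' / T ^ B) ^ β)) * (ρ * (T / ρ - -(T / ρ))) := by ring
      _ = _ := by rw [e6]
  rw [e4]
  have h5 : ρ ^ (-β) ≤ T ^ M := by
    rw [Real.rpow_neg hρ0.le, ← Real.inv_rpow hρ0.le, ← Real.rpow_natCast]
    have h6 : ρ⁻¹ ≤ T := by
      rw [hρ, inv_div, div_le_iff₀ (by positivity)]
      nlinarith [Real.pi_gt_three]
    calc ρ⁻¹ ^ β ≤ T ^ β := Real.rpow_le_rpow (by positivity) h6 hβ0.le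
      _ ≤ _ := Real.rpow_le_rpow_of_exponent_le (by linarith) (Nat.le_ceil _)
  have h6 : (K' / T ^ B) ^ β ≤ K' ^ β / T ^ (M + 4) := by
    rw [Real.div_rpow hK'0.le (by positivity)]
    apply div_le_div_of_nonneg_left (by positivity) (by positivity)
    rw [← Real.rpow_natCast, ← Real.rpow_natCast, ← Real.rpow_mul hT0.le]
    apply Real.rpow_le_rpow_of_exponent_le (by linarith)
    have := Nat.le_ceil (((M : ℝ) + 4) / β)
    rw [div_le_iff₀ hβ0] at this
    push_cast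
    exact this
  calc C₂ * (ρ ^ (-β) * (K' / T ^ B) ^ β) * (2 * T)
      ≤ C₂ * (T ^ M * (K' ^ β / T ^ (M + 4))) * (2 * T) := by gcongr
    _ = _ := by
        rw [pow_add]
        field_simp

/-- the moment of the derivative -/
def DI (β T U : ℝ) : ℝ := ∫ y, dR β T U y

/-- Bernstein's inequality for zeta. -/
theorem brn {β ε : ℝ} (hβ : 1 ≤ β) (hε : 0 < ε) : ∀ᶠ T : ℝ in atTop, ∀ U : ℝ, Adm T U →
    DI β T U ≤ ((1 / 2 + ε) * Real.log T) ^ β * MI β T U := by
  have hβ0 : 0 < β := by linarith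
  set b : ℝ := 1 / 2 + ε / 2 with hb
  have hb1 : 1 / 2 < b := by rw [hb]; linarith
  have hb0 : 0 < b := by linarith
  have hlt : b ^ β < (1 / 2 + ε) ^ β := Real.rpow_lt_rpow hb0.le (by rw [hb]; linarith) hβ0
  -- first parameter
  obtain ⟨e, he, he'⟩ : ∃ e : ℝ, 0 < e ∧ (1 + e) ^ 2 * b ^ β < (1 / 2 + ε) ^ β := by
    have h1 : Tendsto (fun e : ℝ => (1 + e) ^ 2 * b ^ β) (𝓝 0) (𝓝 ((1 + 0) ^ 2 * b ^ β)) := by
      have : Continuous (fun e : ℝ => (1 + e) ^ 2 * b ^ β) := by fun_prop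
      exact this.tendsto 0
    rw [add_zero, one_pow, one_mul] at h1
    have h2 : ∀ᶠ e in 𝓝[>] (0 : ℝ), (1 + e) ^ 2 * b ^ β < (1 / 2 + ε) ^ β :=
      (h1.eventually (gt_mem_nhds hlt)).filter_mono nhdsWithin_le_nhds
    obtain ⟨e, he1, he2⟩ := (h2.and (self_mem_nhdsWithin (s := Ioi (0 : ℝ)))).exists
    exact ⟨e, he2, he1⟩
  obtain ⟨C₁, hC₁, hel⟩ := elem hβ he
  -- second parameter
  set Φ : ℝ → ℝ := fun ϑ => (1 / (1 - 2 * ϑ)) ^ β * (1 + 2 * ϑ) ^ β *
    ((1 + e) ^ 2 * b ^ β + C₁ * (3 * ϑ) ^ β) with hΦ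
  obtain ⟨ϑ, hϑ, hϑ1, hϑ2⟩ : ∃ ϑ : ℝ, 0 < ϑ ∧ ϑ ≤ 1 / 4 ∧ Φ ϑ < (1 / 2 + ε) ^ β := by
    have h0 : Φ 0 = (1 + e) ^ 2 * b ^ β := by
      simp only [hΦ]
      rw [mul_zero, mul_zero, Real.zero_rpow hβ0.ne', mul_zero, add_zero, sub_zero, add_zero,
        one_div_one, Real.one_rpow, one_mul, one_mul]
    have h1 : ContinuousAt Φ 0 := by
      have c1 : ContinuousAt (fun ϑ : ℝ => (1 / (1 - 2 * ϑ)) ^ β) 0 := by
        refine ContinuousAt.rpow_const ?_ (Or.inr hβ0.le)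
        exact continuousAt_const.div (by fun_prop) (by norm_num)
      have c2 : ContinuousAt (fun ϑ : ℝ => (1 + 2 * ϑ) ^ β) 0 :=
        ContinuousAt.rpow_const (by fun_prop) (Or.inr hβ0.le)
      have c3 : ContinuousAt (fun ϑ : ℝ => (3 * ϑ) ^ β) 0 :=
        ContinuousAt.rpow_const (by fun_prop) (Or.inr hβ0.le)
      exact (c1.mul c2).mul (continuousAt_const.add (continuousAt_const.mul c3))
    have h2 : ∀ᶠ ϑ in 𝓝 (0 : ℝ), Φ ϑ < (1 / 2 + ε) ^ β :=
      h1.eventually (gt_mem_nhds (by rw [h0]; exact he'))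
    have h3 : ∀ᶠ ϑ in 𝓝 (0 : ℝ), ϑ ≤ 1 / 4 := by
      filter_upwards [gt_mem_nhds (show (0 : ℝ) < 1 / 4 by norm_num)] with ϑ h
      exact le_of_lt h
    have h4 : ∀ᶠ ϑ in 𝓝[>] (0 : ℝ), Φ ϑ < (1 / 2 + ε) ^ β ∧ ϑ ≤ 1 / 4 :=
      (h2.and h3).filter_mono nhdsWithin_le_nhds
    obtain ⟨ϑ, ⟨ha, hb⟩, hc⟩ := (h4.and (self_mem_nhdsWithin (s := Ioi (0 : ℝ)))).exists
    exact ⟨ϑ, hc, hb, ha⟩
  have h12 : 0 < 1 - 2 * ϑ := by linarith
  obtain ⟨C₂, hC₂, hq⟩ := q_int hβ hb1 he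
  obtain ⟨c, hc, hlow⟩ := MI_lower hβ0
  set M := ⌈β⌉₊ with hM
  set κ := Φ ϑ with hκ
  set W := (1 / (1 - 2 * ϑ)) ^ β with hW
  have hW0 : 0 < W := by positivity
  set Q := W * ((1 + e) * C₂) + W * ((1 + e) ^ 2 * b ^ β + C₁ * (3 * ϑ) ^ β) * Real.pi + Real.pi with hQ
  have hπ := Real.pi_pos
  have hQ0 : 0 < Q := by positivity
  have hgap : 0 < (1 / 2 + ε) ^ β - κ := by linarith
  have hsm : Tendsto (fun T : ℝ => Q / T ^ 1) atTop (𝓝 0) :=
    (tendsto_pow_atTop (n := 1) (α := ℝ) (by norm_num)).const_div_atTop _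
  filter_upwards [hq, hlow, in_pt hβ he hC₁ hel hϑ hϑ1, dR_tail hβ0 3 hϑ, cmp hβ0 (M + 3) hϑ hϑ1,
    hsm.eventually (gt_mem_nhds (show 0 < ((1 / 2 + ε) ^ β - κ) * c by positivity)),
    eventually_ge_atTop 3] with T hq hlow hin htl hcmp hsmall hT U hA
  have hT0 : 0 < T := by linarith
  have hL := log_pos' hT
  have hLT : Real.log T ≤ T := (Real.log_le_sub_one_of_pos hT0).trans (by linarith)
  have hUL : U * Real.log T ≤ T := by
    have := hA.2.2
    rwa [le_div_iff₀ (by linarith)] at this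
  set L := Real.log T with hLd
  have hL0 : 0 < L := by linarith
  have hPI0 : 0 ≤ PI β T U := integral_nonneg fun y => pR_nonneg hT0
  have hMI0 : 0 ≤ MI β T U := integral_nonneg fun y => aR_nonneg
  obtain ⟨t1, t2⟩ := tR_int 3 hT0
  set P₁ := W * (C₁ * (3 * ϑ * L) ^ β) with hP₁
  have hP₁0 : 0 ≤ P₁ := by positivity
  set S := {y : ℝ | |y - T| ≤ T} with hS
  have hmS : MeasurableSet S := measurableSet_le (by fun_prop) measurable_const
  have hpt : ∀ y, ENNReal.ofReal (dR β T U y) ≤ ENNReal.ofReal (W * (1 + e)) *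
      S.indicator (fun y => ENNReal.ofReal (qR β T U y)) y +
      ENNReal.ofReal (P₁ * pR β T U y + tR 3 T y) := by
    intro y
    have ht0 : 0 ≤ tR 3 T y := by unfold tR; positivity
    have hp0 := pR_nonneg (β := β) (U := U) (y := y) hT0
    by_cases hy : |y - T| ≤ ϑ * (U * L)
    · have hyS : y ∈ S := by
        show |y - T| ≤ T
        refine hy.trans ?_
        have := mul_le_mul_of_nonneg_left hUL hϑ.le
        nlinarith
      rw [indicator_of_mem hyS, ← ENNReal.ofReal_mul (by positivity),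
        ← ENNReal.ofReal_add (mul_nonneg (by positivity) (qR_nonneg hT0)) (by positivity)]
      apply ENNReal.ofReal_le_ofReal
      have h1 := hin U hA y hy
      have e1 : W * ((1 + e) * qR β T U y + C₁ * (3 * ϑ * L) ^ β * pR β T U y) =
          W * (1 + e) * qR β T U y + P₁ * pR β T U y := by
        rw [hP₁]; ring
      rw [e1] at h1
      linarith
    · push Not at hy
      refine le_trans (ENNReal.ofReal_le_ofReal ?_) le_add_self
      have h1 := htl U hA y hy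
      have h2 : 0 ≤ P₁ * pR β T U y := by positivity
      linarith
  have hDI : ENNReal.ofReal (DI β T U) ≤ ENNReal.ofReal (W * (1 + e) *
      ((1 + e) * (b * L) ^ β * PI β T U + C₂ / T ^ 3) + (P₁ * PI β T U + Real.pi / T ^ 3)) := by
    rw [DI, ofReal_integral_eq_lintegral_ofReal (dR_int hβ0 hA) (Eventually.of_forall fun y =>
      dR_nonneg)]
    refine (lintegral_mono hpt).trans ?_
    have hi : Integrable (fun y => P₁ * pR β T U y + tR 3 T y) :=
      ((pR_int hβ0 hA).const_mul P₁).add t1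
    rw [lintegral_add_right _ (by
        have h1 := (pR_cont hβ0 T U).measurable
        have h2 : Measurable (tR 3 T) := by
          unfold tR
          fun_prop
        exact ((h1.const_mul P₁).add h2).ennreal_ofReal),
      lintegral_const_mul' _ _ ENNReal.ofReal_ne_top, lintegral_indicator hmS,
      ← ofReal_integral_eq_lintegral_ofReal hi (Eventually.of_forall fun y => by
        have h1 : 0 ≤ tR 3 T y := by unfold tR; positivity
        have h2 := pR_nonneg (β := β) (U := U) (y := y) hT0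
        show 0 ≤ P₁ * pR β T U y + tR 3 T y
        positivity),
      ENNReal.ofReal_add (by positivity) (by positivity),
      ENNReal.ofReal_mul (p := W * (1 + e)) (by positivity)]
    refine add_le_add (mul_le_mul_right (hq U hA) _) (ENNReal.ofReal_le_ofReal ?_)
    have h1 := integral_add ((pR_int hβ0 hA).const_mul P₁) t1
    rw [integral_const_mul] at h1
    refine (le_of_eq h1).trans ?_
    unfold PI
    linarith
  have h1 := (ENNReal.ofReal_le_ofReal_iff (by positivity)).mp hDI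
  -- collect
  have hLM : L ^ β ≤ T ^ M := by
    rw [← Real.rpow_natCast]
    calc L ^ β ≤ T ^ β := Real.rpow_le_rpow hL0.le hLT hβ0.le
      _ ≤ _ := Real.rpow_le_rpow_of_exponent_le (by linarith) (Nat.le_ceil _)
  have hPM : PI β T U ≤ (1 + 2 * ϑ) ^ β * MI β T U + Real.pi / T ^ (M + 3) := by
    obtain ⟨s1, s2⟩ := tR_int (M + 3) hT0
    have i1 := pR_int hβ0 hA
    have i2 := aR_int hβ0 hA
    have h3 := integral_mono i1 ((i2.const_mul ((1 + 2 * ϑ) ^ β)).add s1) (fun y => (hcmp U hA y).1)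
    have h4 := integral_add (i2.const_mul ((1 + 2 * ϑ) ^ β)) s1
    rw [integral_const_mul] at h4
    have h5 := h3.trans (le_of_eq h4)
    unfold PI MI
    linarith
  have e1 : W * (1 + e) * ((1 + e) * (b * L) ^ β * PI β T U + C₂ / T ^ 3) +
      (P₁ * PI β T U + Real.pi / T ^ 3) =
      L ^ β * (W * ((1 + e) ^ 2 * b ^ β + C₁ * (3 * ϑ) ^ β)) * PI β T U +
        (W * ((1 + e) * C₂) + Real.pi) / T ^ 3 := by
    rw [hP₁, Real.mul_rpow hb0.le hL0.le, Real.mul_rpow (by positivity) hL0.le]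
    ring
  rw [e1] at h1
  set R := W * ((1 + e) ^ 2 * b ^ β + C₁ * (3 * ϑ) ^ β) with hR
  have hR0 : 0 ≤ R := by positivity
  have h2 : L ^ β * R * PI β T U ≤ L ^ β * κ * MI β T U + R * Real.pi / T ^ 3 := by
    have h3 : L ^ β * R * PI β T U ≤ L ^ β * R * ((1 + 2 * ϑ) ^ β * MI β T U +
        Real.pi / T ^ (M + 3)) := by gcongr
    have h4 : L ^ β * R * (Real.pi / T ^ (M + 3)) ≤ T ^ M * R * (Real.pi / T ^ (M + 3)) := by
      gcongr
    have h5 : T ^ M * R * (Real.pi / T ^ (M + 3)) = R * Real.pi / T ^ 3 := by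
      rw [pow_add]
      field_simp
    have h6 : κ = R * (1 + 2 * ϑ) ^ β := by
      rw [hκ, hΦ, hR, hW]
      ring
    rw [h6]
    have h7 : L ^ β * R * ((1 + 2 * ϑ) ^ β * MI β T U + Real.pi / T ^ (M + 3)) =
        L ^ β * (R * (1 + 2 * ϑ) ^ β) * MI β T U + L ^ β * R * (Real.pi / T ^ (M + 3)) := by ring
    linarith
  have h3 : Q / T ^ 3 ≤ ((1 / 2 + ε) ^ β - κ) * MI β T U := by
    have e2 : Q / T ^ 3 = Q / T ^ 1 / T ^ 2 := by field_simp
    rw [e2]
    calc Q / T ^ 1 / T ^ 2 ≤ (((1 / 2 + ε) ^ β - κ) * c) / T ^ 2 := by gcongr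
      _ = ((1 / 2 + ε) ^ β - κ) * (c / T ^ 2) := by ring
      _ ≤ _ := by
          have := hlow U hA
          gcongr
  have h4 : 1 ≤ L ^ β := Real.one_le_rpow hL hβ0.le
  have h5 : (W * ((1 + e) * C₂) + Real.pi) / T ^ 3 + R * Real.pi / T ^ 3 = Q / T ^ 3 := by
    rw [hQ]; ring
  have h6 : ((1 / 2 + ε) ^ β - κ) * MI β T U ≤ L ^ β * (((1 / 2 + ε) ^ β - κ) * MI β T U) := by
    have : 0 ≤ ((1 / 2 + ε) ^ β - κ) * MI β T U := by positivity
    nlinarith
  rw [Real.mul_rpow (by positivity) hL0.le]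
  have h7 : (1 / 2 + ε) ^ β * L ^ β * MI β T U = L ^ β * κ * MI β T U +
      L ^ β * (((1 / 2 + ε) ^ β - κ) * MI β T U) := by ring
  rw [h7]
  linarith

end

end Q97.BS
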