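import Pool.Agent.Q97.BS.Brz
import Pool.Agent.H345R2.Chi

set_option autoImplicit false

open MeasureTheory Filter Topology Complex Set
open scoped ENNReal ComplexConjugate

namespace Q97.BS

open Q97.MM

noncomputable section

theorem one_sub_pt (y : ℝ) : 1 - pt y = conj (pt y) := by
  unfold pt
  simp only [map_add, map_mul, Complex.conj_ofReal, Complex.conj_I]
  push_cast
  ring

theorem deriv_zeta_conj {s : ℂ} (hs : s ≠ 1) :
    deriv riemannZeta (conj s) = conj (deriv riemannZeta s) := by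
  have h1 := (differentiableAt_riemannZeta hs).hasDerivAt.conj_conj
  have h2 : (conj ∘ riemannZeta ∘ conj : ℂ → ℂ) = riemannZeta := by
    funext z
    simp only [Function.comp_apply]
    rw [riemannZeta_conj, Complex.conj_conj]
  rw [h2] at h1
  exact h1.deriv

/-- the functional equation on the critical line and its derivative -/
theorem fe_pt {y : ℝ} (hy : 12 ≤ y) :
    conj (riemannZeta (pt y)) = H345.XX (pt y) * riemannZeta (pt y) ∧
    -conj (deriv riemannZeta (pt y)) = H345.XX (pt y) *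
      (H345.Chi.L2 (pt y) * riemannZeta (pt y) + deriv riemannZeta (pt y)) := by
  have hre : (pt y).re = 1 / 2 := by unfold pt; simp
  have him : (pt y).im = y := by unfold pt; simp
  have hfe : ∀ s : ℂ, 0 < s.re → s ≠ 1 → riemannZeta (1 - s) = H345.XX s * riemannZeta s := by
    intro s hs hs1
    apply H345.zeta_fe s _ hs1
    intro n h
    rw [h] at hs
    simp only [neg_re, natCast_re] at hs
    have : (0 : ℝ) ≤ n := Nat.cast_nonneg n
    linarith
  constructor
  · rw [← riemannZeta_conj, ← one_sub_pt]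
    exact hfe _ (by rw [hre]; norm_num) (pt_ne y)
  · have h1 : HasDerivAt (fun s : ℂ => riemannZeta (1 - s)) (-(deriv riemannZeta (1 - pt y)))
        (pt y) := by
      have h2 : (1 : ℂ) - pt y ≠ 1 := by
        rw [one_sub_pt]
        intro h
        apply pt_ne y
        have := congrArg conj h
        rwa [Complex.conj_conj, map_one] at this
      have h3 : HasDerivAt (fun s : ℂ => 1 - s) (-1) (pt y) := (hasDerivAt_id _).const_sub 1
      have h4 := HasDerivAt.comp (h₂ := riemannZeta) (pt y)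
        (differentiableAt_riemannZeta h2).hasDerivAt h3
      refine h4.congr_deriv ?_
      ring
    have h2 : HasDerivAt (fun s : ℂ => H345.XX s * riemannZeta s)
        (H345.XX (pt y) * H345.Chi.L2 (pt y) * riemannZeta (pt y) +
          H345.XX (pt y) * deriv riemannZeta (pt y)) (pt y) :=
      (H345.Chi.hasDerivAt_XX (by rw [hre]; norm_num) (by rw [him]; linarith)).mul
        (differentiableAt_riemannZeta (pt_ne y)).hasDerivAt
    have h3 : (fun s : ℂ => riemannZeta (1 - s)) =ᶠ[𝓝 (pt y)]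
        fun s : ℂ => H345.XX s * riemannZeta s := by
      have o1 : IsOpen {s : ℂ | 0 < s.re} := isOpen_lt continuous_const Complex.continuous_re
      filter_upwards [o1.mem_nhds (show pt y ∈ {s : ℂ | 0 < s.re} by
        show 0 < (pt y).re
        rw [hre]; norm_num), isOpen_ne.mem_nhds (pt_ne y)] with s hs1 hs2
      exact hfe s hs1 hs2
    have h4 := (h1.congr_of_eventuallyEq h3.symm).unique h2
    rw [one_sub_pt, deriv_zeta_conj (pt_ne y)] at h4
    rw [h4]
    ring

theorem re_id {y : ℝ} (hy : 12 ≤ y) :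
    (H345.Chi.L2 (pt y)).re * ‖riemannZeta (pt y)‖ ^ 2 =
      -(2 * (deriv riemannZeta (pt y) * conj (riemannZeta (pt y))).re) := by
  obtain ⟨h1, h2⟩ := fe_pt hy
  set z := riemannZeta (pt y) with hz
  set a := deriv riemannZeta (pt y) with ha
  set X := H345.XX (pt y) with hX
  set lam := H345.Chi.L2 (pt y) with hlam
  have h3 : lam * ((‖z‖ ^ 2 : ℝ) : ℂ) = -(conj a * z + a * conj z) := by
    have e1 : ((‖z‖ ^ 2 : ℝ) : ℂ) = z * conj z := by
      rw [Complex.mul_conj, Complex.normSq_eq_norm_sq]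
    rw [e1]
    have h4 : -conj a * z = conj z * (lam * z + a) := by
      rw [h2, h1]; ring
    linear_combination -h4
  have h4 := congrArg Complex.re h3
  rw [Complex.re_mul_ofReal] at h4
  rw [h4]
  have e2 : conj a * z = conj (a * conj z) := by
    rw [map_mul, Complex.conj_conj]
  rw [e2, neg_re, add_re, Complex.conj_re]
  ring

/-- the square of the modulus of the derivative -/
theorem sq_id {y : ℝ} (hy : 12 ≤ y) (T : ℝ) :
    ‖deriv riemannZeta (pt y)‖ ^ 2 = ‖hh T y‖ ^ 2 +
      Real.log T / 2 * ((H345.Chi.L2 (pt y)).re - Real.log T / 2) * ‖riemannZeta (pt y)‖ ^ 2 := by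
  have h1 := re_id hy
  unfold hh
  set z := riemannZeta (pt y) with hz
  set a := deriv riemannZeta (pt y) with ha
  set c := Real.log T / 2 with hc
  have h2 : ‖a + (c : ℂ) * z‖ ^ 2 = ‖a‖ ^ 2 + 2 * c * (a * conj z).re + c ^ 2 * ‖z‖ ^ 2 := by
    rw [← Complex.normSq_eq_norm_sq, ← Complex.normSq_eq_norm_sq, ← Complex.normSq_eq_norm_sq,
      Complex.normSq_add, Complex.normSq_mul, Complex.normSq_ofReal, map_mul, Complex.conj_ofReal]
    have : (a * ((c : ℂ) * conj z)).re = c * (a * conj z).re := by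
      rw [show a * ((c : ℂ) * conj z) = (c : ℂ) * (a * conj z) by ring, Complex.re_ofReal_mul]
    rw [this]
    ring
  rw [h2]
  linear_combination (-c) * h1

theorem win_bd {ϑ : ℝ} (hϑ1 : ϑ ≤ 1 / 4) : ∀ᶠ T : ℝ in atTop, ∀ y : ℝ,
    |y - T| ≤ ϑ * T → 12 ≤ y ∧ |(H345.Chi.L2 (pt y)).re - Real.log T| ≤ 4 := by
  filter_upwards [eventually_ge_atTop 24] with T hT y hy
  have hT0 : 0 < T := by linarith
  have hy' := abs_le.mp hy
  have hy1 : 3 / 4 * T ≤ y := by nlinarith
  have hy2 : y ≤ 5 / 4 * T := by nlinarith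
  have hy12 : 12 ≤ y := by linarith
  have hy0 : 0 < y := by linarith
  refine ⟨hy12, ?_⟩
  have hre : (pt y).re = 1 / 2 := by unfold pt; simp
  have him : (pt y).im = y := by unfold pt; simp
  have h1 := H345.Chi.L2_close (s := pt y) (by rw [hre]; norm_num) (by rw [hre]; norm_num)
    (by rw [him]; exact hy12)
  rw [him] at h1
  have h2 : |(H345.Chi.L2 (pt y)).re - Real.log (y / (2 * Real.pi))| ≤ 14 / y := by
    have h3 := Complex.abs_re_le_norm (H345.Chi.L2 (pt y) - (Real.log (y / (2 * Real.pi)) : ℂ))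
    rw [sub_re, Complex.ofReal_re] at h3
    exact h3.trans h1
  have h3 : 14 / y ≤ 7 / 6 := by
    rw [div_le_iff₀ hy0]
    linarith
  have hπ := Real.pi_pos
  have hπ4 := Real.pi_le_four
  have hπ3 := Real.pi_gt_three
  have h4 : Real.log (y / (2 * Real.pi)) ≤ Real.log T := by
    apply Real.log_le_log (by positivity)
    rw [div_le_iff₀ (by positivity)]
    nlinarith
  have h5 : Real.log T - 5 / 2 ≤ Real.log (y / (2 * Real.pi)) := by
    have h6 : Real.log (T * (3 / 32)) ≤ Real.log (y / (2 * Real.pi)) := by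
      apply Real.log_le_log (by positivity)
      rw [le_div_iff₀ (by positivity)]
      nlinarith
    have h7 : Real.log (T * (3 / 32)) = Real.log T + Real.log (3 / 32) :=
      Real.log_mul hT0.ne' (by norm_num)
    have h8 : -(5 / 2) ≤ Real.log (3 / 32) := by
      rw [Real.le_log_iff_exp_le (by norm_num)]
      have e1 : Real.exp (-(5 / 2)) = (Real.exp (5 / 2))⁻¹ := Real.exp_neg _
      rw [e1]
      have h9 : (32 / 3 : ℝ) ≤ Real.exp (5 / 2) := by
        have := Real.sum_le_exp_of_nonneg (show (0 : ℝ) ≤ 5 / 2 by norm_num) 6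
        simp only [Finset.sum_range_succ, Finset.sum_range_zero, Nat.factorial] at this
        norm_num at this
        linarith
      rw [inv_le_comm₀ (Real.exp_pos _) (by norm_num)]
      norm_num
      linarith
    linarith
  have h6 := abs_le.mp h2
  rw [abs_le]
  constructor <;> linarith

/-- the density of the moment of the derivative -/
def zR (β T U y : ℝ) : ℝ := ‖deriv riemannZeta (pt y)‖ ^ β * wt T U y

def ZI (β T U : ℝ) : ℝ := ∫ y, zR β T U y

theorem zR_nonneg {β T U y : ℝ} : 0 ≤ zR β T U y :=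
  mul_nonneg (by positivity) (wt_pos _ _ _).le

theorem z'_eq (y : ℝ) : (pt y - 1) * deriv riemannZeta (pt y) = deriv Z1 (pt y) - riemannZeta (pt y) := by
  rw [Z1_deriv]; ring

theorem z'_bd (y : ℝ) : ‖deriv riemannZeta (pt y)‖ ≤ 960 * (1 + |y|) ^ 2 := by
  have h1 := congrArg norm (z'_eq y)
  rw [norm_mul] at h1
  have h2 := pt_half y
  have h3 := (norm_sub_le (deriv Z1 (pt y)) (riemannZeta (pt y))).trans
    (add_le_add (Z1'_bd y) (zeta_bd y))
  have h4 : 1 / 2 * ‖deriv riemannZeta (pt y)‖ ≤ ‖pt y - 1‖ * ‖deriv riemannZeta (pt y)‖ := by gcongr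
  rw [h1] at h4
  have e : ‖riemannZeta (pt y)‖ = ‖riemannZeta (Q97.MM.pt y)‖ := rfl
  linarith

theorem z'_cont : Continuous (fun y : ℝ => deriv riemannZeta (pt y)) := by
  have h1 : ∀ y : ℝ, deriv riemannZeta (pt y) = (deriv Z1 (pt y) - riemannZeta (pt y)) /
      (pt y - 1) := by
    intro y
    rw [← z'_eq, mul_div_cancel_left₀]
    exact sub_ne_zero.mpr (pt_ne y)
  have h2 : Continuous (fun y : ℝ => riemannZeta (pt y)) := zeta_line_cont (by norm_num)
  have h3 : Continuous (fun y : ℝ => deriv Z1 (pt y)) := by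
    have : Continuous (deriv Z1) := by
      have := Z1_differentiable.contDiff (n := 2)
      exact this.continuous_deriv (by norm_num)
    exact this.comp pt_cont
  rw [funext h1]
  exact (h3.sub h2).div (pt_cont.sub continuous_const) fun y => sub_ne_zero.mpr (pt_ne y)

theorem zR_int {β : ℝ} (hβ : 0 < β) {T U : ℝ} (hA : Adm T U) : Integrable (zR β T U) := by
  have hT0 : 0 < T := by linarith [hA.1]
  refine poly_wt_integrable ⌈2 * β⌉₊ (C₀ := 960 ^ β) hA.pos hT0.le hA.le ?_ (fun y => ?_)
  · exact (z'_cont.norm.rpow_const fun y => Or.inr hβ.le).aestronglyMeasurable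
  · rw [abs_of_nonneg (by positivity)]
    exact rpow_bd (norm_nonneg _) hβ (by norm_num) (z'_bd y)

theorem zR_tail {β : ℝ} (hβ : 0 < β) (D : ℕ) {ϑ : ℝ} (hϑ : 0 < ϑ) :
    ∀ᶠ T : ℝ in atTop, ∀ U : ℝ, Adm T U →
    ∀ y : ℝ, ϑ * (U * Real.log T) < |y - T| → zR β T U y ≤ tR D T y := by
  filter_upwards [tail ⌈2 * β⌉₊ D (960 ^ β) hϑ, eventually_ge_atTop 3] with T h1 hT U hA y hy
  refine le_trans ?_ (h1 U hA y hy)
  exact mul_le_mul_of_nonneg_right (rpow_bd (norm_nonneg _) hβ (by norm_num) (z'_bd y))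
    (wt_pos _ _ _).le

end

end Q97.BS
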