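import Mathlib

set_option autoImplicit false

open MeasureTheory Filter Topology Complex Set

namespace Q97.BS

noncomputable section

/-- Total variation of `‖G‖ ^ β`. -/
theorem tv {β : ℝ} (hβ : 1 ≤ β) {G G' : ℝ → ℂ} (hG : ∀ y, HasDerivAt G (G' y) y)
    (hG' : Continuous G') {a b : ℝ} (hab : a ≤ b) :
    |‖G b‖ ^ β - ‖G a‖ ^ β| ≤ ∫ y in a..b, β * (‖G y‖ ^ (β - 1) * ‖G' y‖) := by
  have hβ0 : 0 < β := by linarith
  have hGc : Continuous G := continuous_iff_continuousAt.2 fun y => (hG y).continuousAt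
  -- the smoothed inequality
  have key : ∀ κ : ℝ, 0 < κ → |(‖G b‖ ^ 2 + κ) ^ (β / 2) - (‖G a‖ ^ 2 + κ) ^ (β / 2)| ≤
      ∫ y in a..b, β * ((‖G y‖ ^ 2 + κ) ^ ((β - 1) / 2) * ‖G' y‖) := by
    intro κ hκ
    set f' : ℝ → ℝ := fun y => 2 * inner ℝ (G y) (G' y) * (β / 2) * (‖G y‖ ^ 2 + κ) ^ (β / 2 - 1)
      with hf'
    have hd : ∀ y ∈ uIcc a b, HasDerivAt (fun y => (‖G y‖ ^ 2 + κ) ^ (β / 2)) (f' y) y := by
      intro y _
      have h1 := ((hG y).norm_sq.add_const κ)
      exact h1.rpow_const (Or.inl (by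
        have : 0 ≤ ‖G y‖ ^ 2 := by positivity
        show (‖G y‖ ^ 2 + κ : ℝ) ≠ 0
        positivity))
    have hc1 : Continuous (fun y => (‖G y‖ ^ 2 + κ) ^ (β / 2 - 1)) :=
      Continuous.rpow_const (by fun_prop) fun y => Or.inl (by positivity)
    have hc2 : Continuous (fun y => inner ℝ (G y) (G' y)) := hGc.inner hG'
    have hc3 : Continuous f' := by
      rw [hf']
      exact ((continuous_const.mul hc2).mul continuous_const).mul hc1
    have h1 := intervalIntegral.integral_eq_sub_of_hasDerivAt hd (hc3.intervalIntegrable _ _)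
    rw [← h1]
    have h2 := intervalIntegral.norm_integral_le_integral_norm (μ := volume) (f := f') hab
    rw [Real.norm_eq_abs] at h2
    refine h2.trans (intervalIntegral.integral_mono_on hab (hc3.norm.intervalIntegrable _ _)
      ((Continuous.mul continuous_const ((Continuous.rpow_const (by fun_prop)
        fun y => Or.inl (by positivity)).mul hG'.norm)).intervalIntegrable _ _) fun y _ => ?_)
    have hN : 0 < ‖G y‖ ^ 2 + κ := by positivity
    have h3 : |inner ℝ (G y) (G' y)| ≤ (‖G y‖ ^ 2 + κ) ^ (1 / 2 : ℝ) * ‖G' y‖ := by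
      refine (abs_real_inner_le_norm _ _).trans ?_
      apply mul_le_mul_of_nonneg_right _ (norm_nonneg _)
      rw [← Real.sqrt_eq_rpow]
      apply Real.le_sqrt_of_sq_le
      linarith
    have e1 : ‖f' y‖ = β * |inner ℝ (G y) (G' y)| * (‖G y‖ ^ 2 + κ) ^ (β / 2 - 1) := by
      rw [hf', Real.norm_eq_abs, abs_mul, abs_mul, abs_mul, abs_of_pos (by norm_num : (0 : ℝ) < 2),
        abs_of_pos (by positivity : 0 < β / 2), abs_of_pos (Real.rpow_pos_of_pos hN _)]
      ring
    rw [e1]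
    calc β * |inner ℝ (G y) (G' y)| * (‖G y‖ ^ 2 + κ) ^ (β / 2 - 1)
        ≤ β * ((‖G y‖ ^ 2 + κ) ^ (1 / 2 : ℝ) * ‖G' y‖) * (‖G y‖ ^ 2 + κ) ^ (β / 2 - 1) := by gcongr
      _ = β * (((‖G y‖ ^ 2 + κ) ^ (1 / 2 : ℝ) * (‖G y‖ ^ 2 + κ) ^ (β / 2 - 1)) * ‖G' y‖) := by ring
      _ = _ := by
          rw [← Real.rpow_add hN]
          congr 3
          ring
  -- the limit
  have hL : Tendsto (fun κ : ℝ => |(‖G b‖ ^ 2 + κ) ^ (β / 2) - (‖G a‖ ^ 2 + κ) ^ (β / 2)|)
      (𝓝[>] 0) (𝓝 |‖G b‖ ^ β - ‖G a‖ ^ β|) := by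
    have hc : Continuous (fun κ : ℝ => |(‖G b‖ ^ 2 + κ) ^ (β / 2) - (‖G a‖ ^ 2 + κ) ^ (β / 2)|) := by
      have c1 : ∀ x : ℝ, Continuous (fun κ : ℝ => (‖G x‖ ^ 2 + κ) ^ (β / 2)) := fun x =>
        Continuous.rpow_const (by fun_prop) fun y => Or.inr (by positivity)
      exact ((c1 b).sub (c1 a)).abs
    have h1 := hc.tendsto 0
    have e : ∀ x : ℝ, (‖G x‖ ^ 2 + 0) ^ (β / 2) = ‖G x‖ ^ β := by
      intro x
      rw [add_zero, ← Real.rpow_natCast, ← Real.rpow_mul (norm_nonneg _)]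
      congr 1
      push_cast
      ring
    simp only [e] at h1
    exact h1.mono_left nhdsWithin_le_nhds
  have hR : Tendsto (fun κ : ℝ => ∫ y in a..b, β * ((‖G y‖ ^ 2 + κ) ^ ((β - 1) / 2) * ‖G' y‖))
      (𝓝[>] 0) (𝓝 (∫ y in a..b, β * (‖G y‖ ^ (β - 1) * ‖G' y‖))) := by
    have hc : Continuous (fun κ : ℝ => ∫ y in a..b, β * ((‖G y‖ ^ 2 + κ) ^ ((β - 1) / 2) *
        ‖G' y‖)) := by
      apply intervalIntegral.continuous_parametric_intervalIntegral_of_continuous'
      have c1 : Continuous (fun p : ℝ × ℝ => (‖G p.2‖ ^ 2 + p.1) ^ ((β - 1) / 2)) :=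
        Continuous.rpow_const (by fun_prop) fun y => Or.inr (by linarith)
      have c2 : Continuous (fun p : ℝ × ℝ => ‖G' p.2‖) := by fun_prop
      exact continuous_const.mul (c1.mul c2)
    have h1 := hc.tendsto 0
    have e : ∀ x : ℝ, (‖G x‖ ^ 2 + 0) ^ ((β - 1) / 2) = ‖G x‖ ^ (β - 1) := by
      intro x
      rw [add_zero, ← Real.rpow_natCast, ← Real.rpow_mul (norm_nonneg _)]
      congr 1
      push_cast
      ring
    simp only [e] at h1
    exact h1.mono_left nhdsWithin_le_nhds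
  exact le_of_tendsto_of_tendsto hL hR (by
    filter_upwards [self_mem_nhdsWithin] with κ hκ
    exact key κ hκ)

/-- Young's inequality in the form needed here -/
theorem young {β a b : ℝ} (hβ : 1 ≤ β) (ha : 0 ≤ a) (hb : 0 ≤ b) :
    β * (a ^ (β - 1) * b) ≤ (β - 1) * a ^ β + b ^ β := by
  have hβ0 : 0 < β := by linarith
  have h := Real.geom_mean_le_arith_mean2_weighted (w₁ := (β - 1) / β) (w₂ := 1 / β)
    (p₁ := a ^ β) (p₂ := b ^ β) (div_nonneg (by linarith) hβ0.le) (by positivity) (by positivity)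
    (by positivity) (by field_simp; ring)
  rw [← Real.rpow_mul ha, ← Real.rpow_mul hb] at h
  have e1 : β * ((β - 1) / β) = β - 1 := by field_simp
  have e2 : β * (1 / β) = 1 := by field_simp
  rw [e1, e2, Real.rpow_one] at h
  have h2 := mul_le_mul_of_nonneg_left h hβ0.le
  refine h2.trans (le_of_eq ?_)
  field_simp

/-- The quadrature lemma for unit steps. -/
theorem quad1 {F K : ℝ → ℝ} (hF : Continuous F) (hFi : Integrable F) (hK : Integrable K)
    (hK0 : ∀ x, 0 ≤ K x) (h : ∀ a b : ℝ, a ≤ b → |F b - F a| ≤ ∫ y in a..b, K y) :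
    Summable (fun n : ℤ => F n) ∧ |∑' n : ℤ, F n - ∫ x, F x| ≤ 1 / 2 * ∫ x, K x := by
  have sF := hFi.hasSum_intervalIntegral (-(1 / 2))
  have sK := hK.hasSum_intervalIntegral (-(1 / 2))
  have hKi : ∀ a b : ℝ, IntervalIntegrable K volume a b := fun a b => hK.intervalIntegrable
  have hFc : ∀ a b : ℝ, IntervalIntegrable F volume a b := fun a b => hF.intervalIntegrable _ _
  have hcell : ∀ n : ℤ, |F n - ∫ x in (-(1 / 2) + (n : ℝ))..(-(1 / 2) + n + 1), F x| ≤
      1 / 2 * ∫ x in (-(1 / 2) + (n : ℝ))..(-(1 / 2) + n + 1), K x := by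
    intro n
    set c : ℝ := (n : ℝ) with hc
    have ea : -(1 / 2) + c = c - 1 / 2 := by ring
    have eb : -(1 / 2) + c + 1 = c + 1 / 2 := by ring
    rw [eb, ea]
    have s1 : ∫ x in (c - 1 / 2)..(c + 1 / 2), F x =
        (∫ x in (c - 1 / 2)..c, F x) + ∫ x in c..(c + 1 / 2), F x :=
      (intervalIntegral.integral_add_adjacent_intervals (hFc _ _) (hFc _ _)).symm
    have s2 : ∫ x in (c - 1 / 2)..(c + 1 / 2), K x =
        (∫ x in (c - 1 / 2)..c, K x) + ∫ x in c..(c + 1 / 2), K x :=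
      (intervalIntegral.integral_add_adjacent_intervals (hKi _ _) (hKi _ _)).symm
    have b1 : |∫ x in (c - 1 / 2)..c, (F c - F x)| ≤ 1 / 2 * ∫ x in (c - 1 / 2)..c, K x := by
      have := intervalIntegral.norm_integral_le_of_norm_le_const (a := c - 1 / 2) (b := c)
        (f := fun x => F c - F x) (C := ∫ x in (c - 1 / 2)..c, K x) (fun x hx => by
          rw [uIoc_of_le (by linarith)] at hx
          rw [Real.norm_eq_abs]
          refine (h x c hx.2).trans ?_
          rw [← intervalIntegral.integral_add_adjacent_intervals (hKi (c - 1 / 2) x) (hKi x c)]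
          have : 0 ≤ ∫ x in (c - 1 / 2)..x, K x :=
            intervalIntegral.integral_nonneg hx.1.le fun u _ => hK0 u
          linarith)
      rw [Real.norm_eq_abs] at this
      refine this.trans (le_of_eq ?_)
      have e : |c - (c - 1 / 2)| = 1 / 2 := by
        rw [show c - (c - 1 / 2) = 1 / 2 by ring]; norm_num
      rw [e, mul_comm]
    have b2 : |∫ x in c..(c + 1 / 2), (F c - F x)| ≤ 1 / 2 * ∫ x in c..(c + 1 / 2), K x := by
      have := intervalIntegral.norm_integral_le_of_norm_le_const (a := c) (b := c + 1 / 2)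
        (f := fun x => F c - F x) (C := ∫ x in c..(c + 1 / 2), K x) (fun x hx => by
          rw [uIoc_of_le (by linarith)] at hx
          rw [Real.norm_eq_abs, abs_sub_comm]
          refine (h c x hx.1.le).trans ?_
          rw [← intervalIntegral.integral_add_adjacent_intervals (hKi c x) (hKi x (c + 1 / 2))]
          have : 0 ≤ ∫ x in x..(c + 1 / 2), K x :=
            intervalIntegral.integral_nonneg hx.2 fun u _ => hK0 u
          linarith)
      rw [Real.norm_eq_abs] at this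
      refine this.trans (le_of_eq ?_)
      have e : |c + 1 / 2 - c| = 1 / 2 := by
        rw [show c + 1 / 2 - c = 1 / 2 by ring]; norm_num
      rw [e, mul_comm]
    have s3 : F c - ∫ x in (c - 1 / 2)..(c + 1 / 2), F x =
        (∫ x in (c - 1 / 2)..c, (F c - F x)) + ∫ x in c..(c + 1 / 2), (F c - F x) := by
      rw [intervalIntegral.integral_sub intervalIntegrable_const (hFc _ _),
        intervalIntegral.integral_sub intervalIntegrable_const (hFc _ _),
        intervalIntegral.integral_const, intervalIntegral.integral_const, s1, smul_eq_mul, smul_eq_mul]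
      ring
    rw [s3, s2, mul_add]
    exact (abs_add_le _ _).trans (add_le_add b1 b2)
  have sK2 := sK.mul_left (1 / 2)
  have hD : Summable (fun n : ℤ => F n - ∫ x in (-(1 / 2) + (n : ℝ))..(-(1 / 2) + n + 1), F x) :=
    Summable.of_norm_bounded sK2.summable hcell
  have hS : Summable (fun n : ℤ => F n) := by
    have := hD.add sF.summable
    refine this.congr fun n => ?_
    ring
  refine ⟨hS, ?_⟩
  have h1 : ∑' n : ℤ, F n - ∫ x, F x =
      ∑' n : ℤ, (F n - ∫ x in (-(1 / 2) + (n : ℝ))..(-(1 / 2) + n + 1), F x) := by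
    rw [hS.tsum_sub sF.summable, sF.tsum_eq]
  rw [h1, ← Real.norm_eq_abs]
  exact tsum_of_norm_bounded sK2 hcell

/-- The quadrature lemma. -/
theorem quad {f H : ℝ → ℝ} (hf : Continuous f) (hfi : Integrable f) (hH : Integrable H)
    (hH0 : ∀ x, 0 ≤ H x) (h : ∀ a b : ℝ, a ≤ b → |f b - f a| ≤ ∫ y in a..b, H y)
    {η : ℝ} (hη : 0 < η) (θ : ℝ) :
    Summable (fun n : ℤ => f (θ + n * η)) ∧
      |η * ∑' n : ℤ, f (θ + n * η) - ∫ x, f x| ≤ η / 2 * ∫ x, H x := by
  have i1 : Integrable (fun x => f (θ + η * x)) := (hfi.comp_add_left θ).comp_mul_left' hη.ne'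
  have i2 : Integrable (fun x => η * H (θ + η * x)) :=
    ((hH.comp_add_left θ).comp_mul_left' hη.ne').const_mul η
  have e1 : ∀ g : ℝ → ℝ, ∫ x, g (θ + η * x) = η⁻¹ * ∫ x, g x := by
    intro g
    have h2 := Measure.integral_comp_mul_left (fun w : ℝ => g (θ + w)) η
    rw [h2, integral_add_left_eq_self g θ, abs_of_pos (inv_pos.mpr hη), smul_eq_mul]
  have h1 : ∀ a b : ℝ, a ≤ b → |f (θ + η * b) - f (θ + η * a)| ≤ ∫ y in a..b, η * H (θ + η * y) := by
    intro a b hab
    refine (h _ _ (by nlinarith)).trans (le_of_eq ?_)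
    rw [intervalIntegral.integral_const_mul]
    have h3 := intervalIntegral.integral_comp_add_mul (a := a) (b := b) (fun x => H x) hη.ne' θ
    rw [h3, smul_eq_mul, ← mul_assoc, mul_inv_cancel₀ hη.ne', one_mul]
  obtain ⟨h2, h3⟩ := quad1 (F := fun x => f (θ + η * x)) (K := fun x => η * H (θ + η * x))
    (by fun_prop) i1 i2 (fun x => mul_nonneg hη.le (hH0 _)) h1
  have e2 : ∀ n : ℤ, f (θ + η * (n : ℝ)) = f (θ + n * η) := fun n => by rw [mul_comm η]
  simp only [e2] at h2 h3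
  refine ⟨h2, ?_⟩
  rw [integral_const_mul, e1 f, e1 H] at h3
  have e3 : η * ∑' n : ℤ, f (θ + n * η) - ∫ x, f x =
      η * (∑' n : ℤ, f (θ + n * η) - η⁻¹ * ∫ x, f x) := by
    field_simp
  rw [e3, abs_mul, abs_of_pos hη]
  calc η * |∑' n : ℤ, f (θ + n * η) - η⁻¹ * ∫ x, f x| ≤ η * (1 / 2 * (η * (η⁻¹ * ∫ x, H x))) := by
        gcongr
    _ = _ := by field_simp

end

end Q97.BS
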