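import Pool.Agent.Q97.BS.Rsz

set_option autoImplicit false

open MeasureTheory Filter Topology Complex Set FourierTransform
open scoped ENNReal

namespace Q97.BS

noncomputable section

theorem mean2 {w₁ w₂ z₁ z₂ β : ℝ} (h1 : 0 ≤ w₁) (h2 : 0 ≤ w₂) (hw : w₁ + w₂ = 1) (hz1 : 0 ≤ z₁)
    (hz2 : 0 ≤ z₂) (hβ : 1 ≤ β) :
    (w₁ * z₁ + w₂ * z₂) ^ β ≤ w₁ * z₁ ^ β + w₂ * z₂ ^ β := by
  have h := (convexOn_rpow hβ).2 (show z₁ ∈ Ici (0 : ℝ) from hz1) (show z₂ ∈ Ici (0 : ℝ) from hz2)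
    h1 h2 hw
  simpa only [smul_eq_mul] using h

theorem elem {β ε : ℝ} (hβ : 1 ≤ β) (hε : 0 < ε) : ∃ C : ℝ, 0 < C ∧ ∀ a b : ℝ, 0 ≤ a → 0 ≤ b →
    (a + b) ^ β ≤ (1 + ε) * a ^ β + C * b ^ β := by
  have hβ0 : 0 < β := by linarith
  set θ : ℝ := (1 + ε) ^ (-(1 / β)) with hθ
  have hθ0 : 0 < θ := by positivity
  have hθ1 : θ < 1 := Real.rpow_lt_one_of_one_lt_of_neg (by linarith) (by
    have : 0 < 1 / β := by positivity
    linarith)
  refine ⟨(1 - θ) * (1 / (1 - θ)) ^ β, mul_pos (by linarith) (Real.rpow_pos_of_pos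
    (one_div_pos.2 (by linarith)) _), fun a b ha hb => ?_⟩
  have h1 := mean2 (w₁ := θ) (w₂ := 1 - θ) (z₁ := a / θ) (z₂ := b / (1 - θ)) hθ0.le
    (by linarith) (by ring) (by positivity) (div_nonneg hb (by linarith)) hβ
  have e1 : θ * (a / θ) + (1 - θ) * (b / (1 - θ)) = a + b := by
    have : 1 - θ ≠ 0 := by linarith
    field_simp
  rw [e1] at h1
  refine h1.trans ?_
  have e2 : θ * (a / θ) ^ β ≤ (1 + ε) * a ^ β := by
    rw [Real.div_rpow ha hθ0.le]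
    have h2 : θ * (1 / θ ^ β) ≤ 1 + ε := by
      have h3 : θ ^ β = (1 + ε)⁻¹ := by
        rw [hθ, ← Real.rpow_mul (by linarith)]
        have : -(1 / β) * β = -1 := by field_simp
        rw [this, Real.rpow_neg_one]
      rw [h3, one_div, inv_inv]
      nlinarith
    have h4 : 0 ≤ a ^ β := by positivity
    calc θ * (a ^ β / θ ^ β) = (θ * (1 / θ ^ β)) * a ^ β := by ring
      _ ≤ _ := mul_le_mul_of_nonneg_right h2 h4
  have e3 : (1 - θ) * (b / (1 - θ)) ^ β = (1 - θ) * (1 / (1 - θ)) ^ β * b ^ β := by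
    rw [div_eq_mul_one_div b, Real.mul_rpow hb (one_div_pos.2 (by linarith)).le]
    ring
  linarith

theorem jensen {β σ : ℝ} (hβ : 1 ≤ β) {s : Finset ℕ} {w z : ℕ → ℝ}
    (hw : ∀ i, 0 ≤ w i) (hz : ∀ i, 0 ≤ z i) (hσ : ∑ i ∈ s, w i ≤ σ) :
    (∑ i ∈ s, w i * z i) ^ β ≤ σ ^ (β - 1) * ∑ i ∈ s, w i * z i ^ β := by
  set W := ∑ i ∈ s, w i with hW
  have hW0 : 0 ≤ W := Finset.sum_nonneg fun i _ => hw i
  have hR : 0 ≤ ∑ i ∈ s, w i * z i ^ β :=
    Finset.sum_nonneg fun i _ => mul_nonneg (hw i) (Real.rpow_nonneg (hz i) _)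
  rcases eq_or_lt_of_le hW0 with h0 | h0
  · have h1 : ∀ i ∈ s, w i = 0 := (Finset.sum_eq_zero_iff_of_nonneg fun i _ => hw i).mp h0.symm
    have h2 : ∑ i ∈ s, w i * z i = 0 := Finset.sum_eq_zero fun i hi => by rw [h1 i hi, zero_mul]
    rw [h2, Real.zero_rpow (by linarith)]
    exact mul_nonneg (Real.rpow_nonneg (hW0.trans hσ) _) hR
  · have h1 := Real.rpow_arith_mean_le_arith_mean_rpow s (fun i => w i / W) z
      (fun i _ => div_nonneg (hw i) hW0) (by rw [← Finset.sum_div, ← hW, div_self h0.ne'])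
      (fun i _ => hz i) hβ
    have e1 : ∑ i ∈ s, w i * z i = W * ∑ i ∈ s, w i / W * z i := by
      rw [Finset.mul_sum]
      refine Finset.sum_congr rfl fun i _ => ?_
      field_simp
    have e2 : ∑ i ∈ s, w i / W * z i ^ β = (1 / W) * ∑ i ∈ s, w i * z i ^ β := by
      rw [Finset.mul_sum]
      refine Finset.sum_congr rfl fun i _ => ?_
      ring
    have h2 : 0 ≤ ∑ i ∈ s, w i / W * z i :=
      Finset.sum_nonneg fun i _ => mul_nonneg (div_nonneg (hw i) hW0) (hz i)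
    rw [e1, Real.mul_rpow hW0 h2]
    rw [e2] at h1
    have h3 : W ^ β * (1 / W) ≤ σ ^ (β - 1) := by
      have e3 : W ^ β * (1 / W) = W ^ (β - 1) := by
        rw [Real.rpow_sub_one h0.ne']
        ring
      rw [e3]
      exact Real.rpow_le_rpow hW0 hσ (by linarith)
    calc W ^ β * (∑ i ∈ s, w i / W * z i) ^ β ≤ W ^ β * ((1 / W) * ∑ i ∈ s, w i * z i ^ β) := by
          gcongr
      _ = (W ^ β * (1 / W)) * ∑ i ∈ s, w i * z i ^ β := by ring
      _ ≤ _ := mul_le_mul_of_nonneg_right h3 hR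

/-- Bernstein's inequality in the mean. -/
theorem bern {β b ε : ℝ} (hβ : 1 ≤ β) (hb : 0 < b) (hε : 0 < ε) : ∃ C : ℝ, 0 < C ∧
    ∀ (g : ℝ → ℂ) (η η₁ : ℝ), Band g b η → Integrable (fun ξ => (1 + |ξ|) * ‖𝓕 g ξ‖) →
      ∫ ξ in {ξ : ℝ | b < |ξ|}, (1 + |ξ|) * ‖𝓕 g ξ‖ ≤ η₁ → ∀ e : ℝ, 0 < e → ∀ E : Set ℝ,
      ∫⁻ x in E, ‖dg g x‖ₑ ^ β ≤ ENNReal.ofReal ((1 + ε) * (2 * Real.pi * b) ^ β) *
        (∫⁻ x, ‖g x‖ₑ ^ β) +
        ENNReal.ofReal (C * ((2 * Real.pi + 2 * Real.pi * b) * η₁ + e) ^ β) * volume E := by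
  obtain ⟨C, hC, hel⟩ := elem hβ hε
  have hπ := Real.pi_pos
  have hβ0 : 0 < β := by linarith
  refine ⟨C, hC, fun g η η₁ hg hi hη e he E => ?_⟩
  obtain ⟨K, hK⟩ := riesz hb hg hi hη he
  have hη0 : 0 ≤ η₁ := le_trans (integral_nonneg fun ξ => by positivity) hη
  set R := (2 * Real.pi + 2 * Real.pi * b) * η₁ + e with hR
  have hR0 : 0 ≤ R := by positivity
  set σ := 2 * Real.pi * b with hσ
  have hσ0 : 0 < σ := by positivity
  -- pointwise
  have hpt : ∀ x, ‖dg g x‖ ^ β ≤ (1 + ε) * (σ ^ (β - 1) * ∑ k ∈ Finset.range K, cw b k *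
      (‖g (x + nd b k)‖ ^ β + ‖g (x - nd b k)‖ ^ β)) + C * R ^ β := by
    intro x
    have h1 := hK x
    set S := ∑ k ∈ Finset.range K, cw b k * (‖g (x + nd b k)‖ + ‖g (x - nd b k)‖) with hS
    have hS0 : 0 ≤ S := Finset.sum_nonneg fun k _ => mul_nonneg (cw_nonneg hb k) (by positivity)
    have h2 : ‖dg g x‖ ^ β ≤ (S + R) ^ β := Real.rpow_le_rpow (norm_nonneg _) h1 hβ0.le
    refine h2.trans ((hel S R hS0 hR0).trans ?_)
    have h3 : S ^ β ≤ σ ^ (β - 1) * ∑ k ∈ Finset.range K, 2 * cw b k *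
        ((‖g (x + nd b k)‖ + ‖g (x - nd b k)‖) / 2) ^ β := by
      have e1 : S = ∑ k ∈ Finset.range K, (2 * cw b k) *
          ((‖g (x + nd b k)‖ + ‖g (x - nd b k)‖) / 2) := by
        rw [hS]
        refine Finset.sum_congr rfl fun k _ => ?_
        ring
      rw [e1]
      exact jensen hβ (fun k => by have := cw_nonneg hb k; positivity) (fun k => by positivity)
        (cw_partial hb K)
    have h4 : ∑ k ∈ Finset.range K, 2 * cw b k *
        ((‖g (x + nd b k)‖ + ‖g (x - nd b k)‖) / 2) ^ β ≤ ∑ k ∈ Finset.range K, cw b k *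
      (‖g (x + nd b k)‖ ^ β + ‖g (x - nd b k)‖ ^ β) := by
      refine Finset.sum_le_sum fun k _ => ?_
      have h5 := mean2 (w₁ := 1 / 2) (w₂ := 1 / 2) (z₁ := ‖g (x + nd b k)‖)
        (z₂ := ‖g (x - nd b k)‖) (by norm_num) (by norm_num) (by norm_num) (norm_nonneg _)
        (norm_nonneg _) hβ
      have e2 : 1 / 2 * ‖g (x + nd b k)‖ + 1 / 2 * ‖g (x - nd b k)‖ =
          (‖g (x + nd b k)‖ + ‖g (x - nd b k)‖) / 2 := by ring
      rw [e2] at h5
      have h6 := mul_le_mul_of_nonneg_left h5 (show 0 ≤ 2 * cw b k by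
        have := cw_nonneg hb k; positivity)
      refine h6.trans (le_of_eq ?_)
      ring
    have h5 : 0 ≤ σ ^ (β - 1) := by positivity
    have h6 := h3.trans (mul_le_mul_of_nonneg_left h4 h5)
    have h7 := mul_le_mul_of_nonneg_left h6 (show 0 ≤ 1 + ε by linarith)
    linarith
  have hpt' : ∀ x, ‖dg g x‖ₑ ^ β ≤ ENNReal.ofReal ((1 + ε) * σ ^ (β - 1)) *
      ∑ k ∈ Finset.range K, ENNReal.ofReal (cw b k) *
        (‖g (x + nd b k)‖ₑ ^ β + ‖g (x - nd b k)‖ₑ ^ β) + ENNReal.ofReal (C * R ^ β) := by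
    intro x
    rw [enorm_rpow (g := dg g) hβ0]
    refine (ENNReal.ofReal_le_ofReal (hpt x)).trans (le_of_eq ?_)
    rw [← mul_assoc, ENNReal.ofReal_add (mul_nonneg (by positivity)
      (Finset.sum_nonneg fun k _ => mul_nonneg (cw_nonneg hb k) (by positivity))) (by positivity),
      ENNReal.ofReal_mul (by positivity), ENNReal.ofReal_sum_of_nonneg
      (fun k _ => mul_nonneg (cw_nonneg hb k) (by positivity))]
    congr 2
    refine Finset.sum_congr rfl fun k _ => ?_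
    rw [ENNReal.ofReal_mul (cw_nonneg hb k), ENNReal.ofReal_add (by positivity) (by positivity),
      enorm_rpow hβ0, enorm_rpow hβ0]
  set A := ∫⁻ x, ‖g x‖ₑ ^ β with hA
  have hm1 : ∀ k : ℕ, Measurable (fun x => ‖g (x + nd b k)‖ₑ ^ β) := fun k =>
    (meas_rpow hg.cont β).comp (measurable_id.add_const _)
  have hm2 : ∀ k : ℕ, Measurable (fun x => ‖g (x - nd b k)‖ₑ ^ β) := fun k =>
    (meas_rpow hg.cont β).comp (measurable_id.sub_const _)
  have hmp : ∀ k : ℕ, Measurable (fun x => ‖g (x + nd b k)‖ₑ ^ β + ‖g (x - nd b k)‖ₑ ^ β) := by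
    intro k
    exact (hm1 k).add (hm2 k)
  have hm : Measurable (fun x => ∑ k ∈ Finset.range K, ENNReal.ofReal (cw b k) *
        (‖g (x + nd b k)‖ₑ ^ β + ‖g (x - nd b k)‖ₑ ^ β)) :=
    Finset.measurable_sum _ fun k _ => (hmp k).const_mul _
  refine (lintegral_mono hpt').trans ?_
  rw [lintegral_add_right _ measurable_const, setLIntegral_const, lintegral_const_mul _ hm]
  apply add_le_add _ le_rfl
  have h1 : ∫⁻ x in E, ∑ k ∈ Finset.range K, ENNReal.ofReal (cw b k) *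
        (‖g (x + nd b k)‖ₑ ^ β + ‖g (x - nd b k)‖ₑ ^ β) ≤ ENNReal.ofReal σ * A := by
    refine (setLIntegral_le_lintegral _ _).trans ?_
    rw [lintegral_finsetSum _ (fun k _ => (hmp k).const_mul _)]
    have h2 : ∀ k ∈ Finset.range K, ∫⁻ x, ENNReal.ofReal (cw b k) *
        (‖g (x + nd b k)‖ₑ ^ β + ‖g (x - nd b k)‖ₑ ^ β) = ENNReal.ofReal (2 * cw b k) * A := by
      intro k _
      rw [lintegral_const_mul _ (hmp k), lintegral_add_left (hm1 k), lintegral_add_right_eq_self (fun x => ‖g x‖ₑ ^ β),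
        lintegral_sub_right_eq_self (fun x => ‖g x‖ₑ ^ β), ← hA, mul_add, ← two_mul,
        ENNReal.ofReal_mul (by norm_num)]
      norm_num [mul_assoc]
    rw [Finset.sum_congr rfl h2, ← Finset.sum_mul, ← ENNReal.ofReal_sum_of_nonneg
      (fun k _ => by have := cw_nonneg hb k; positivity)]
    exact mul_le_mul_left (ENNReal.ofReal_le_ofReal (cw_partial hb K)) _
  refine (mul_le_mul_right h1 _).trans (le_of_eq ?_)
  rw [← mul_assoc, ← ENNReal.ofReal_mul (by positivity)]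
  congr 2
  rw [mul_assoc, Real.rpow_sub_one hσ0.ne', div_mul_cancel₀ _ hσ0.ne']

end

end Q97.BS
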