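import Pool.Agent.Q97.BS.Sam
import Pool.Agent.Q97.BS.Brn

set_option autoImplicit false

open MeasureTheory Filter Topology Complex Set FourierTransform
open scoped ENNReal

namespace Q97.BS

open Q97.MM

noncomputable section

/-- the derivative of Hardy's function up to a factor of modulus one (main part) -/
def hh (T y : ℝ) : ℂ :=
  deriv riemannZeta (pt y) + ((Real.log T / 2 : ℝ) : ℂ) * riemannZeta (pt y)

/-- the density of its moment -/
def dR (β T U y : ℝ) : ℝ := ‖hh T y‖ ^ β * wt T U y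

/-- the derivative of the scaled function, read on the critical line -/
def qc (β T U y : ℝ) : ℂ :=
  deriv Z1 (pt y) + ((Real.log T / 2 : ℝ) : ℂ) * Z1 (pt y) +
    I * ((2 * (y - T) / (β * U ^ 2) : ℝ) : ℂ) * Z1 (pt y)

def qR (β T U y : ℝ) : ℝ := (‖qc β T U y‖ / T) ^ β * wt T U y

theorem pt_ne (y : ℝ) : pt y ≠ 1 := ne_one_of_re (by norm_num) y

theorem Z1_deriv (y : ℝ) :
    deriv Z1 (pt y) = riemannZeta (pt y) + (pt y - 1) * deriv riemannZeta (pt y) := by
  have h1 : HasDerivAt (fun s : ℂ => (s - 1) * riemannZeta s)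
      (1 * riemannZeta (pt y) + (pt y - 1) * deriv riemannZeta (pt y)) (pt y) :=
    ((hasDerivAt_id (pt y)).sub_const 1).mul (differentiableAt_riemannZeta (pt_ne y)).hasDerivAt
  have h2 : Z1 =ᶠ[𝓝 (pt y)] fun s : ℂ => (s - 1) * riemannZeta s := by
    filter_upwards [isOpen_ne.mem_nhds (pt_ne y)] with s hs
    exact Z1_of_ne hs
  rw [h2.deriv_eq, h1.deriv, one_mul]

theorem hh_eq (T y : ℝ) : (pt y - 1) * hh T y =
    deriv Z1 (pt y) + ((Real.log T / 2 : ℝ) : ℂ) * Z1 (pt y) - riemannZeta (pt y) := by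
  rw [Z1_deriv, hh, Z1_of_ne (pt_ne y)]
  ring

theorem pt_half (y : ℝ) : 1 / 2 ≤ ‖pt y - 1‖ := by
  have := Complex.abs_re_le_norm (pt y - 1)
  have e : (pt y - 1).re = -(1 / 2) := by
    unfold pt
    simp
    norm_num
  rw [e, abs_neg, abs_of_pos (by norm_num)] at this
  exact this

theorem Z1'_bd (y : ℝ) : ‖deriv Z1 (pt y)‖ ≤ 300 * (1 + |y|) ^ 2 := by
  have h := Complex.norm_deriv_le_of_forall_mem_sphere_norm_le (c := pt y) (R := 1 / 4)
    (C := 45 * (5 / 4 * (1 + |y|)) ^ 2) (F := ℂ) (f := Z1) (by norm_num)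
    Z1_differentiable.diffContOnCl (fun z hz => by
      have hz' : ‖z - pt y‖ = 1 / 4 := by simpa [dist_eq_norm] using hz
      have hr := Complex.abs_re_le_norm (z - pt y)
      have hi := Complex.abs_im_le_norm (z - pt y)
      rw [hz', sub_re] at hr
      rw [hz', sub_im] at hi
      have e1 : (pt y).re = 1 / 2 := by unfold pt; simp
      have e2 : (pt y).im = y := by unfold pt; simp
      rw [e1] at hr
      rw [e2] at hi
      have hr' := abs_le.mp hr
      have h1 := Z1_growth (x := z.re) (y := z.im) (by linarith) (by linarith)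
      rw [Complex.re_add_im] at h1
      have h2 : |z.im| ≤ |y| + 1 / 4 := by
        have := abs_sub_abs_le_abs_sub z.im y
        linarith
      refine h1.trans ?_
      have h3 : 1 + |z.im| ≤ 5 / 4 * (1 + |y|) := by linarith [abs_nonneg y]
      have := abs_nonneg z.im
      gcongr)
  refine h.trans ?_
  have := sq_nonneg (1 + |y|)
  nlinarith

theorem hh_bd {T : ℝ} (hT : 3 ≤ T) (y : ℝ) : ‖hh T y‖ ≤ 1200 * T * (1 + |y|) ^ 2 := by
  have hL := log_pos' hT
  have hLT : Real.log T ≤ T := (Real.log_le_sub_one_of_pos (by linarith)).trans (by linarith)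
  have h1 := congrArg norm (hh_eq T y)
  rw [norm_mul] at h1
  have h2 := pt_half y
  have h3 : ‖deriv Z1 (pt y) + ((Real.log T / 2 : ℝ) : ℂ) * Z1 (pt y) - riemannZeta (pt y)‖ ≤
      300 * (1 + |y|) ^ 2 + Real.log T / 2 * (45 * (1 + |y|) ^ 2) + 180 * (1 + |y|) ^ 2 := by
    refine (norm_sub_le _ _).trans (add_le_add ((norm_add_le _ _).trans (add_le_add (Z1'_bd y) ?_))
      (zeta_bd y))
    rw [norm_mul, Complex.norm_real, Real.norm_of_nonneg (by positivity)]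
    exact mul_le_mul_of_nonneg_left (Z1_bd y) (by positivity)
  have h4 : 1 / 2 * ‖hh T y‖ ≤ ‖pt y - 1‖ * ‖hh T y‖ := by gcongr
  have h5 := sq_nonneg (1 + |y|)
  have h6 : Real.log T * (1 + |y|) ^ 2 ≤ T * (1 + |y|) ^ 2 := by gcongr
  have h7 : 1 * (1 + |y|) ^ 2 ≤ T * (1 + |y|) ^ 2 := by gcongr; linarith
  rw [h1] at h4
  linarith

theorem hh_cont (T : ℝ) : Continuous (hh T) := by
  have h1 : ∀ y : ℝ, hh T y = (deriv Z1 (pt y) + ((Real.log T / 2 : ℝ) : ℂ) * Z1 (pt y) -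
      riemannZeta (pt y)) / (pt y - 1) := by
    intro y
    rw [← hh_eq, mul_div_cancel_left₀]
    exact sub_ne_zero.mpr (pt_ne y)
  have h2 : Continuous (fun y : ℝ => riemannZeta (pt y)) := zeta_line_cont (by norm_num)
  have h3 : Continuous (fun y : ℝ => deriv Z1 (pt y)) := by
    have : Continuous (deriv Z1) := by
      have := Z1_differentiable.contDiff (n := 2)
      exact this.continuous_deriv (by norm_num)
    exact this.comp pt_cont
  have h4 := Z1pt_cont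
  have h5 := pt_cont
  rw [show hh T = fun y => (deriv Z1 (pt y) + ((Real.log T / 2 : ℝ) : ℂ) * Z1 (pt y) -
      riemannZeta (pt y)) / (pt y - 1) from funext h1]
  exact ((h3.add (continuous_const.mul h4)).sub h2).div (h5.sub continuous_const)
    fun y => sub_ne_zero.mpr (pt_ne y)

theorem dR_nonneg {β T U y : ℝ} : 0 ≤ dR β T U y :=
  mul_nonneg (by positivity) (wt_pos _ _ _).le

theorem dR_bd {β T : ℝ} (hβ : 0 < β) (hT : 3 ≤ T) (y : ℝ) :
    ‖hh T y‖ ^ β ≤ (1200 * T) ^ β * (1 + |y|) ^ ⌈2 * β⌉₊ :=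
  rpow_bd (norm_nonneg _) hβ (by positivity) (hh_bd hT y)

theorem dR_int {β : ℝ} (hβ : 0 < β) {T U : ℝ} (hA : Adm T U) : Integrable (dR β T U) := by
  have hT0 : 0 < T := by linarith [hA.1]
  refine poly_wt_integrable ⌈2 * β⌉₊ (C₀ := (1200 * T) ^ β) hA.pos hT0.le hA.le ?_ (fun y => ?_)
  · exact ((hh_cont T).norm.rpow_const fun y => Or.inr hβ.le).aestronglyMeasurable
  · rw [abs_of_nonneg (by positivity)]
    exact dR_bd hβ hA.1 y

theorem dR_tail {β : ℝ} (hβ : 0 < β) (D : ℕ) {ϑ : ℝ} (hϑ : 0 < ϑ) :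
    ∀ᶠ T : ℝ in atTop, ∀ U : ℝ, Adm T U →
    ∀ y : ℝ, ϑ * (U * Real.log T) < |y - T| → dR β T U y ≤ tR D T y := by
  filter_upwards [tail ⌈2 * β⌉₊ (D + ⌈β⌉₊) (1200 ^ β) hϑ, eventually_ge_atTop 3] with T h1 hT U hA y hy
  have hT0 : 0 < T := by linarith
  have h2 := h1 U hA y hy
  have hw := wt_pos T U y
  have h3 : (1200 * T) ^ β ≤ T ^ ⌈β⌉₊ * 1200 ^ β := by
    rw [Real.mul_rpow (by norm_num) hT0.le, mul_comm]
    apply mul_le_mul_of_nonneg_right _ (by positivity)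
    rw [← Real.rpow_natCast]
    exact Real.rpow_le_rpow_of_exponent_le (by linarith) (Nat.le_ceil _)
  calc dR β T U y ≤ ((1200 * T) ^ β * (1 + |y|) ^ ⌈2 * β⌉₊) * wt T U y :=
        mul_le_mul_of_nonneg_right (dR_bd hβ hT y) hw.le
    _ ≤ ((T ^ ⌈β⌉₊ * 1200 ^ β) * (1 + |y|) ^ ⌈2 * β⌉₊) * wt T U y := by gcongr
    _ = T ^ ⌈β⌉₊ * (1200 ^ β * (1 + |y|) ^ ⌈2 * β⌉₊ * wt T U y) := by ring
    _ ≤ T ^ ⌈β⌉₊ * tR (D + ⌈β⌉₊) T y := by gcongr
    _ = tR D T y := by
        unfold tR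
        rw [pow_add]
        field_simp

/-- the derivative of the scaled function -/
theorem gg_deriv {T V : ℝ} (hT : 3 ≤ T) (hV : 0 < V) (x : ℝ) :
    HasDerivAt (gg T V) (ee (x / 2) * (I * ((2 * Real.pi / Real.log T : ℝ) : ℂ)) / (T : ℂ) *
      (cexp ((pt (T + 2 * Real.pi / Real.log T * x) - 1 / 2 - T * I) ^ 2 / (2 * (V : ℂ) ^ 2)) *
        (deriv Z1 (pt (T + 2 * Real.pi / Real.log T * x)) +
          ((Real.log T / 2 : ℝ) : ℂ) * Z1 (pt (T + 2 * Real.pi / Real.log T * x)) +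
          I * ((2 * Real.pi / Real.log T * x / V ^ 2 : ℝ) : ℂ) *
            Z1 (pt (T + 2 * Real.pi / Real.log T * x))))) x := by
  have hL := log_pos' hT
  have hL0 : 0 < Real.log T := by linarith
  have hπ := Real.pi_pos
  have hT0 : 0 < T := by linarith
  set ρ := 2 * Real.pi / Real.log T with hρ
  set s := pt (T + ρ * x) with hs
  have h1 : HasDerivAt (fun x : ℝ => ee (x / 2)) (((Real.pi : ℝ) : ℂ) * I * ee (x / 2)) x := by
    have h := ee_deriv (1 / 2) x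
    have e1 : (fun x : ℝ => ee (1 / 2 * x)) = fun x : ℝ => ee (x / 2) := by
      funext z; congr 1; ring
    rw [e1] at h
    refine h.congr_deriv ?_
    have e2 : 1 / 2 * x = x / 2 := by ring
    rw [e2]
    congr 2
    push_cast
    ring
  have h2 : HasDerivAt (fun x : ℝ => pt (T + ρ * x)) ((ρ : ℂ) * I) x := by
    unfold pt
    have h3 : HasDerivAt (fun x : ℝ => T + ρ * x) ρ x := by
      have := ((hasDerivAt_id x).const_mul ρ).const_add T
      simpa using this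
    exact (h3.ofReal_comp.mul_const I).const_add _
  have h3 : HasDerivAt (FF 1 T V) (cexp ((s - 1 / 2 - T * I) ^ 2 / (2 * (V : ℂ) ^ 2)) *
      (deriv Z1 s + (s - 1 / 2 - T * I) / (V : ℂ) ^ 2 * Z1 s)) s := by
    have a1 : HasDerivAt (fun s : ℂ => (s - 1 / 2 - T * I) ^ 2 / (2 * (V : ℂ) ^ 2))
        ((s - 1 / 2 - T * I) / (V : ℂ) ^ 2) s := by
      have a2 : HasDerivAt (fun s : ℂ => s - 1 / 2 - T * I) 1 s :=
        ((hasDerivAt_id s).sub_const _).sub_const _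
      have a3 := (a2.pow 2).div_const (2 * (V : ℂ) ^ 2)
      refine a3.congr_deriv ?_
      have hV' : (V : ℂ) ≠ 0 := by exact_mod_cast hV.ne'
      field_simp
      push_cast
      ring
    have a4 : HasDerivAt Z1 (deriv Z1 s) s := (Z1_differentiable s).hasDerivAt
    have a5 := a4.mul a1.cexp
    have e : FF 1 T V = fun s : ℂ => Z1 s * cexp ((s - 1 / 2 - T * I) ^ 2 / (2 * (V : ℂ) ^ 2)) := by
      funext z
      rw [FF, pow_one]
    rw [e]
    refine a5.congr_deriv ?_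
    ring
  have h4 : HasDerivAt (fun x : ℝ => FF 1 T V (pt (T + ρ * x)))
      ((cexp ((s - 1 / 2 - T * I) ^ 2 / (2 * (V : ℂ) ^ 2)) *
      (deriv Z1 s + (s - 1 / 2 - T * I) / (V : ℂ) ^ 2 * Z1 s)) * ((ρ : ℂ) * I)) x :=
    HasDerivAt.comp (h₂ := FF 1 T V) (h := fun x : ℝ => pt (T + ρ * x)) x h3 h2
  have h5 := h1.mul (h4.div_const (T : ℂ))
  refine h5.congr_deriv ?_
  have e1 : s - 1 / 2 - T * I = I * ((ρ * x : ℝ) : ℂ) := by
    rw [hs]
    unfold pt
    push_cast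
    ring
  have e2 : FF 1 T V (pt (T + ρ * x)) =
      cexp ((s - 1 / 2 - T * I) ^ 2 / (2 * (V : ℂ) ^ 2)) * Z1 s := by
    unfold FF
    rw [pow_one, ← hs, mul_comm]
  rw [e2]
  set E := cexp ((s - 1 / 2 - T * I) ^ 2 / (2 * (V : ℂ) ^ 2)) with hE
  have e3 : (s - 1 / 2 - T * I) / (V : ℂ) ^ 2 = I * ((ρ * x / V ^ 2 : ℝ) : ℂ) := by
    rw [e1]
    push_cast
    ring
  rw [e3]
  have e4 : ((Real.pi : ℝ) : ℂ) = (ρ : ℂ) * ((Real.log T / 2 : ℝ) : ℂ) := by
    rw [← Complex.ofReal_mul]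
    congr 1
    rw [hρ]
    field_simp
  rw [e4]
  ring

theorem dg_pow {β T U : ℝ} (hβ : 0 < β) (hT : 3 ≤ T) (hU : 0 < U) {b η : ℝ}
    (hg : Band (gg T (U * √(β / 2))) b η) (hV : U * √(β / 2) ≤ T) (x : ℝ) :
    (‖dg (gg T (U * √(β / 2))) x‖ / (2 * Real.pi / Real.log T)) ^ β =
      qR β T U (T + 2 * Real.pi / Real.log T * x) := by
  have hL := log_pos' hT
  have hL0 : 0 < Real.log T := by linarith
  have hπ := Real.pi_pos
  have hT0 : 0 < T := by linarith
  have hV0 : 0 < U * √(β / 2) := mul_pos hU (Real.sqrt_pos.2 (by positivity))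
  have h1 := hasDeriv_dg hg (hat_int hT hV0 hV) x
  have h2 := h1.unique (gg_deriv hT hV0 x)
  have hVV : (U * √(β / 2)) ^ 2 = β * U ^ 2 / 2 := by
    rw [mul_pow, Real.sq_sqrt (by positivity)]
    ring
  rw [h2]
  set ρ := 2 * Real.pi / Real.log T with hρ
  have hρ0 : 0 < ρ := by positivity
  set y := T + ρ * x with hy
  have e1 : 2 * Real.pi / Real.log T * x / (U * √(β / 2)) ^ 2 = 2 * (y - T) / (β * U ^ 2) := by
    rw [hVV, hy, ← hρ]
    field_simp
    ring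
  rw [e1]
  have e2 : ‖cexp ((pt y - 1 / 2 - T * I) ^ 2 / (2 * ((U * √(β / 2) : ℝ) : ℂ) ^ 2))‖ =
      Real.exp (-(((y - T) / U) ^ 2 / β)) := by
    rw [Complex.norm_exp]
    congr 1
    have h3 := exp_re T (U * √(β / 2)) (1 / 2) y
    unfold pt
    rw [h3, hVV]
    field_simp
    ring
  rw [norm_mul, norm_div, norm_mul, norm_mul, norm_mul, ee_norm, Complex.norm_I, Complex.norm_real,
    Complex.norm_real, Real.norm_of_nonneg hρ0.le, Real.norm_of_nonneg hT0.le, e2]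
  unfold qR
  have e3 : qc β T U y = deriv Z1 (pt y) + ((Real.log T / 2 : ℝ) : ℂ) * Z1 (pt y) +
    I * ((2 * (y - T) / (β * U ^ 2) : ℝ) : ℂ) * Z1 (pt y) := rfl
  rw [← e3]
  have e4 : 1 * (1 * ρ) / T * (Real.exp (-(((y - T) / U) ^ 2 / β)) * ‖qc β T U y‖) / ρ =
      (‖qc β T U y‖ / T) * Real.exp (-(((y - T) / U) ^ 2 / β)) := by
    field_simp
  rw [e4, Real.mul_rpow (by positivity) (Real.exp_pos _).le, ← Real.exp_mul, wt]
  congr 2
  field_simp

end

end Q97.BS
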