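import Pool.Agent.Q97.BS.Pnt

set_option autoImplicit false

open MeasureTheory Filter Topology Complex Set FourierTransform SchwartzMap
open scoped ENNReal

namespace Q97.BS

noncomputable section

/-- the kernel -/
def kk (v : ℝ) : ℝ≥0∞ := ENNReal.ofReal (1 / (1 + |v|) ^ 2)

theorem kk_meas : Measurable kk := by
  unfold kk
  fun_prop

theorem kk_neg (v : ℝ) : kk (-v) = kk v := by
  unfold kk
  rw [abs_neg]

theorem int_kk (c : ℝ) : ∫⁻ x, kk (x - c) ≤ ENNReal.ofReal Real.pi := by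
  rw [lintegral_sub_right_eq_self (fun x => kk x) c]
  have h1 : ∫⁻ x : ℝ, ENNReal.ofReal ((1 + x ^ 2)⁻¹) = ENNReal.ofReal Real.pi := by
    rw [← ofReal_integral_eq_lintegral_ofReal integrable_inv_one_add_sq
      (Eventually.of_forall fun x => by positivity), integral_univ_inv_one_add_sq]
  rw [← h1]
  refine lintegral_mono fun x => ?_
  unfold kk
  apply ENNReal.ofReal_le_ofReal
  rw [one_div]
  apply inv_anti₀ (by positivity)
  have : (1 + |x|) ^ 2 = 1 + x ^ 2 + 2 * |x| := by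
    rw [← sq_abs x]; ring
  rw [this]
  linarith [abs_nonneg x]

theorem period_lint {k : ℝ → ℝ≥0∞} (hk : Measurable k) {δ : ℝ} (hδ : 0 < δ) :
    ∫⁻ θ in Ioc 0 δ, ∑' n : ℤ, k (θ + n * δ) = ∫⁻ u, k u := by
  have hmn : ∀ n : ℤ, AEMeasurable (fun θ : ℝ => k (θ + n * δ)) (volume.restrict (Ioc 0 δ)) :=
    fun n => (hk.comp (measurable_id.add_const ((n : ℝ) * δ))).aemeasurable
  rw [lintegral_tsum hmn]
  have h1 : ∀ n : ℤ, ∫⁻ θ in Ioc 0 δ, k (θ + n * δ) = ∫⁻ u in Ioc (0 + n • δ) (0 + (n + 1) • δ), k u := by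
    intro n
    have h2 := (measurePreserving_add_right (volume : Measure ℝ) (n * δ)).setLIntegral_comp_emb
      (measurableEmbedding_addRight _) k (Ioc 0 δ)
    rw [h2]
    congr 2
    rw [image_add_const_Ioc]
    congr 1
    · simp
    · simp only [zsmul_eq_mul]
      push_cast
      ring
  simp_rw [h1]
  rw [← lintegral_iUnion (fun n => measurableSet_Ioc) (pairwise_disjoint_Ioc_add_zsmul 0 δ),
    iUnion_Ioc_add_zsmul hδ, Measure.restrict_univ]

theorem enorm_rpow {g : ℝ → ℂ} {β : ℝ} (hβ : 0 < β) (x : ℝ) :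
    ‖g x‖ₑ ^ β = ENNReal.ofReal (‖g x‖ ^ β) := by
  rw [← ofReal_norm, ENNReal.ofReal_rpow_of_nonneg (norm_nonneg _) hβ.le]

theorem meas_rpow {g : ℝ → ℂ} (hg : Continuous g) (β : ℝ) : Measurable (fun x => ‖g x‖ₑ ^ β) :=
  (hg.measurable.enorm).pow_const β

theorem point_e {b b' δ β : ℝ} (hb0 : 0 < b) (hbb : b < b') (hδ : 0 < δ) (hb : b + b' ≤ 1 / δ)
    (hβ : 0 < β) : ∃ C : ℝ, 0 < C ∧ ∀ (g : ℝ → ℂ) (η : ℝ), Band g b η → ∀ x θ : ℝ,
      ‖g x‖ₑ ^ β ≤ ENNReal.ofReal C *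
        (∑' n : ℤ, ‖g (θ + n * δ)‖ₑ ^ β * kk (x - (θ + n * δ)) + ENNReal.ofReal (η ^ β)) := by
  obtain ⟨C, hC, h⟩ := point hb0 hbb hδ hb hβ
  refine ⟨C, hC, fun g η hg x θ => ?_⟩
  obtain ⟨h1, h2⟩ := h g η hg x θ
  have hη : 0 ≤ η := le_trans (integral_nonneg fun ξ => norm_nonneg _) hg.small
  rw [enorm_rpow hβ]
  refine (ENNReal.ofReal_le_ofReal h2).trans (le_of_eq ?_)
  rw [ENNReal.ofReal_mul hC.le, ENNReal.ofReal_add (tsum_nonneg fun n => by positivity)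
    (by positivity), ENNReal.ofReal_tsum_of_nonneg (fun n => by positivity) h1]
  congr 2
  refine tsum_congr fun n => ?_
  rw [ENNReal.ofReal_mul (by positivity), enorm_rpow hβ, kk, sub_sub]

/-- The lower sampling inequality. -/
theorem lower_e {b b' δ β : ℝ} (hb0 : 0 < b) (hbb : b < b') (hδ : 0 < δ) (hb : b + b' ≤ 1 / δ)
    (hβ : 0 < β) : ∃ C : ℝ, 0 < C ∧ ∀ (g : ℝ → ℂ) (η : ℝ), Band g b η → ∀ (θ : ℝ) (I : Set ℝ),
      ∫⁻ x in I, ‖g x‖ₑ ^ β ≤ ENNReal.ofReal C *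
        (∑' n : ℤ, ‖g (θ + n * δ)‖ₑ ^ β + volume I * ENNReal.ofReal (η ^ β)) := by
  obtain ⟨C, hC, h⟩ := point_e hb0 hbb hδ hb hβ
  refine ⟨C * (Real.pi + 1), by positivity, fun g η hg θ I => ?_⟩
  have h1 : ∫⁻ x in I, ‖g x‖ₑ ^ β ≤ ∫⁻ x in I, ENNReal.ofReal C *
        (∑' n : ℤ, ‖g (θ + n * δ)‖ₑ ^ β * kk (x - (θ + n * δ)) + ENNReal.ofReal (η ^ β)) :=
    lintegral_mono fun x => h g η hg x θ
  refine h1.trans ?_
  have hm : Measurable (fun x => ∑' n : ℤ, ‖g (θ + n * δ)‖ₑ ^ β * kk (x - (θ + n * δ))) := by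
    refine Measurable.tsum fun n => ?_
    exact (kk_meas.comp (measurable_id.sub_const _)).const_mul _
  rw [lintegral_const_mul _ (hm.add_const _), lintegral_add_right _ measurable_const,
    setLIntegral_const]
  have h2 : ∫⁻ x in I, ∑' n : ℤ, ‖g (θ + n * δ)‖ₑ ^ β * kk (x - (θ + n * δ)) ≤
      ENNReal.ofReal Real.pi * ∑' n : ℤ, ‖g (θ + n * δ)‖ₑ ^ β := by
    refine (setLIntegral_le_lintegral _ _).trans ?_
    have hmn : ∀ n : ℤ, Measurable (fun x : ℝ => kk (x - (θ + n * δ))) :=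
      fun n => kk_meas.comp (measurable_id.sub_const (θ + (n : ℝ) * δ))
    rw [lintegral_tsum (fun n => ((hmn n).const_mul (‖g (θ + n * δ)‖ₑ ^ β)).aemeasurable),
      ← ENNReal.tsum_mul_left]
    refine ENNReal.tsum_le_tsum fun n => ?_
    rw [lintegral_const_mul _ (hmn n), mul_comm]
    exact mul_le_mul_left (int_kk _) _
  rw [ENNReal.ofReal_mul hC.le, mul_assoc]
  apply mul_le_mul_right
  have h3 : ENNReal.ofReal Real.pi ≤ ENNReal.ofReal (Real.pi + 1) :=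
    ENNReal.ofReal_le_ofReal (by linarith)
  have h4 : (1 : ℝ≥0∞) ≤ ENNReal.ofReal (Real.pi + 1) := by
    rw [← ENNReal.ofReal_one]
    exact ENNReal.ofReal_le_ofReal (by linarith [Real.pi_pos])
  rw [mul_add]
  apply add_le_add
  · exact h2.trans (mul_le_mul_left h3 _)
  · rw [mul_comm (volume I)]
    calc ENNReal.ofReal (η ^ β) * volume I = 1 * (ENNReal.ofReal (η ^ β) * volume I) := by
          rw [one_mul]
      _ ≤ _ := mul_le_mul_left h4 _

/-- The pointwise inequality with an integral. -/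
theorem point_int {b b' δ β : ℝ} (hb0 : 0 < b) (hbb : b < b') (hδ : 0 < δ) (hb : b + b' ≤ 1 / δ)
    (hβ : 0 < β) : ∃ C : ℝ, 0 < C ∧ ∀ (g : ℝ → ℂ) (η : ℝ), Band g b η → ∀ x : ℝ,
      ‖g x‖ₑ ^ β ≤ ENNReal.ofReal C *
        ((∫⁻ u, ‖g u‖ₑ ^ β * kk (x - u)) + ENNReal.ofReal (η ^ β)) := by
  obtain ⟨C, hC, h⟩ := point_e hb0 hbb hδ hb hβ
  refine ⟨C * (1 / δ + 1), by positivity, fun g η hg x => ?_⟩
  have hm : Measurable (fun u => ‖g u‖ₑ ^ β * kk (x - u)) :=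
    (meas_rpow hg.cont β).mul (kk_meas.comp (measurable_const.sub measurable_id))
  have h1 : ∫⁻ θ in Ioc 0 δ, ‖g x‖ₑ ^ β ≤ ∫⁻ θ in Ioc 0 δ, ENNReal.ofReal C *
        (∑' n : ℤ, ‖g (θ + n * δ)‖ₑ ^ β * kk (x - (θ + n * δ)) + ENNReal.ofReal (η ^ β)) :=
    lintegral_mono fun θ => h g η hg x θ
  have hm2 : Measurable (fun θ => ∑' n : ℤ, ‖g (θ + n * δ)‖ₑ ^ β * kk (x - (θ + n * δ))) :=
    Measurable.tsum fun n => hm.comp (measurable_id.add_const _)
  rw [lintegral_const_mul _ (hm2.add_const _), lintegral_add_right _ measurable_const,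
    period_lint hm hδ, setLIntegral_const, setLIntegral_const, Real.volume_Ioc, sub_zero] at h1
  have hδ' : ENNReal.ofReal δ ≠ 0 := by
    rw [Ne, ENNReal.ofReal_eq_zero, not_le]
    exact hδ
  have h2 : ‖g x‖ₑ ^ β = ENNReal.ofReal (1 / δ) * (‖g x‖ₑ ^ β * ENNReal.ofReal δ) := by
    rw [mul_comm (‖g x‖ₑ ^ β), ← mul_assoc, ← ENNReal.ofReal_mul (by positivity),
      one_div_mul_cancel hδ.ne', ENNReal.ofReal_one, one_mul]
  rw [h2]
  refine (mul_le_mul_right h1 _).trans ?_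
  rw [ENNReal.ofReal_mul hC.le, ← mul_assoc, mul_comm (ENNReal.ofReal (1 / δ)), mul_assoc, mul_assoc]
  apply mul_le_mul_right
  rw [mul_add, mul_add]
  apply add_le_add
  · exact mul_le_mul_left (ENNReal.ofReal_le_ofReal (by linarith)) _
  · rw [mul_comm (ENNReal.ofReal (η ^ β)), ← mul_assoc, ← ENNReal.ofReal_mul (by positivity),
      one_div_mul_cancel hδ.ne', ENNReal.ofReal_one]
    apply mul_le_mul_left
    rw [← ENNReal.ofReal_one]
    exact ENNReal.ofReal_le_ofReal (by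
      have : 0 ≤ 1 / δ := by positivity
      linarith)

/-- The upper sampling inequality, for an arbitrary step. -/
theorem upper_e {b b' δ β δ' : ℝ} (hb0 : 0 < b) (hbb : b < b') (hδ : 0 < δ) (hb : b + b' ≤ 1 / δ)
    (hβ : 0 < β) (hδ' : 0 < δ') : ∃ C : ℝ, 0 < C ∧ ∀ (g : ℝ → ℂ) (η : ℝ), Band g b η →
      ∀ θ Y : ℝ, 0 ≤ Y →
      ∑' n : ℤ, ({x : ℝ | |x| ≤ Y}.indicator (fun x => ‖g x‖ₑ ^ β)) (θ + n * δ') ≤
        ENNReal.ofReal C * ((∫⁻ u, ‖g u‖ₑ ^ β) + ENNReal.ofReal ((1 + Y) ^ 2 * η ^ β)) := by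
  obtain ⟨C, hC, h⟩ := point_int hb0 hbb hδ hb hβ
  obtain ⟨S, hS0, hS⟩ := sum_decay hδ'
  refine ⟨C * S, by positivity, fun g η hg θ Y hY => ?_⟩
  have hη : 0 ≤ η := le_trans (integral_nonneg fun ξ => norm_nonneg _) hg.small
  have hkk : ∀ y : ℝ, ∑' n : ℤ, kk (y - n * δ') ≤ ENNReal.ofReal S := by
    intro y
    unfold kk
    rw [← ENNReal.ofReal_tsum_of_nonneg (fun n => by positivity) (hS y).1]
    exact ENNReal.ofReal_le_ofReal (hS y).2
  have h1 : ∀ n : ℤ, ({x : ℝ | |x| ≤ Y}.indicator (fun x => ‖g x‖ₑ ^ β)) (θ + n * δ') ≤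
      ENNReal.ofReal C * ((∫⁻ u, ‖g u‖ₑ ^ β * kk ((u - θ) - n * δ')) +
        ENNReal.ofReal ((1 + Y) ^ 2 * η ^ β) * kk ((-θ) - n * δ')) := by
    intro n
    by_cases hn : |θ + n * δ'| ≤ Y
    · rw [indicator_of_mem (show θ + n * δ' ∈ {x : ℝ | |x| ≤ Y} from hn)]
      refine (h g η hg _).trans ?_
      apply mul_le_mul_right
      apply add_le_add
      · refine lintegral_mono fun u => ?_
        apply mul_le_mul_right
        rw [← kk_neg]
        apply le_of_eq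
        congr 1
        ring
      · unfold kk
        rw [← ENNReal.ofReal_mul (by positivity)]
        apply ENNReal.ofReal_le_ofReal
        have e : |(-θ) - n * δ'| = |θ + n * δ'| := by
          rw [← abs_neg]; congr 1; ring
        rw [e, mul_one_div, le_div_iff₀ (by positivity), mul_comm]
        apply mul_le_mul_of_nonneg_right _ (by positivity)
        apply pow_le_pow_left₀ (by positivity)
        linarith
    · rw [indicator_of_notMem (show θ + n * δ' ∉ {x : ℝ | |x| ≤ Y} from hn)]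
      exact bot_le
  refine (ENNReal.tsum_le_tsum h1).trans ?_
  rw [ENNReal.tsum_mul_left, ENNReal.ofReal_mul hC.le, mul_assoc]
  apply mul_le_mul_right
  rw [ENNReal.tsum_add, mul_add]
  apply add_le_add
  · have hmn : ∀ n : ℤ, AEMeasurable (fun u : ℝ => ‖g u‖ₑ ^ β * kk (u - θ - n * δ')) :=
      fun n => ((meas_rpow hg.cont β).mul (kk_meas.comp
        ((measurable_id.sub_const θ).sub_const ((n : ℝ) * δ')))).aemeasurable
    rw [← lintegral_tsum hmn, ← lintegral_const_mul _ (meas_rpow hg.cont β)]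
    refine lintegral_mono fun u => ?_
    rw [ENNReal.tsum_mul_left, mul_comm]
    exact mul_le_mul_left (hkk _) _
  · rw [ENNReal.tsum_mul_left, mul_comm]
    exact mul_le_mul_left (hkk _) _

end

end Q97.BS
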