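import Pool.Agent.Q97.BS.Smp
import Pool.Agent.Q97.MM.Low
import Pool.Agent.H448R2.GC.X2

set_option autoImplicit false

open MeasureTheory Filter Topology Complex Set FourierTransform

namespace Q97.BS

open Q97.MM

noncomputable section

theorem norm_line_le (x y : ℝ) : ‖(x : ℂ) + y * I - 1‖ ≤ (|x| + 1) * (1 + |y|) := by
  have e : (x : ℂ) + y * I - 1 = ((x - 1 : ℝ) : ℂ) + y * I := by push_cast; ring
  rw [e]
  refine (norm_add_le _ _).trans ?_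
  rw [norm_mul, Complex.norm_I, mul_one, Complex.norm_real, Complex.norm_real, Real.norm_eq_abs,
    Real.norm_eq_abs]
  have h1 : |x - 1| ≤ |x| + 1 := by
    have := abs_sub x 1
    rwa [abs_one] at this
  nlinarith [abs_nonneg x, abs_nonneg y]

theorem re_line (x y : ℝ) : ((x : ℂ) + y * I).re = x := by simp

theorem im_line (x y : ℝ) : ((x : ℂ) + y * I).im = y := by simp

theorem Z1_strip (A : ℕ) : ∃ (C : ℝ) (n : ℕ), 0 < C ∧ ∀ x y : ℝ, -(A : ℝ) ≤ x → x ≤ A + 1 →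
    ‖Z1 (x + y * I)‖ ≤ C * (1 + |y|) ^ n := by
  obtain ⟨C₁, B, hC₁, h1⟩ := Pool.Agent.H448R2.GC.zeta_one_growth (A : ℝ)
  obtain ⟨C₂, hC₂, h2⟩ := Pool.Agent.H448R2.GC.X1.zeta_bdd
  refine ⟨C₁ + (A + 2) * C₂, B + 1, by positivity, fun x y hx1 hx2 => ?_⟩
  have hone : (1 : ℝ) ≤ 1 + |y| := by linarith [abs_nonneg y]
  by_cases hx : x ≤ 3
  · have h3 := h1 ((x : ℂ) + y * I) (by rw [re_line]; exact hx1) (by rw [re_line]; exact hx)
    rw [im_line] at h3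
    have h4 : (1 + |y|) ^ B ≤ (1 + |y|) ^ (B + 1) := pow_le_pow_right₀ hone (by omega)
    have h5 : 0 ≤ (A + 2 : ℝ) * C₂ * (1 + |y|) ^ (B + 1) := by positivity
    calc ‖Z1 (x + y * I)‖ ≤ C₁ * (1 + |y|) ^ B := h3
      _ ≤ C₁ * (1 + |y|) ^ (B + 1) := by gcongr
      _ ≤ _ := by linarith
  · push Not at hx
    rw [Z1_of_ne (ne_one_of_re (by linarith) y), norm_mul]
    have h3 := h2 ((x : ℂ) + y * I) (by rw [re_line]; linarith)
    have h4 := norm_line_le x y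
    rw [abs_of_pos (by linarith : (0 : ℝ) < x)] at h4
    have h5 : (1 + |y|) ^ 1 ≤ (1 + |y|) ^ (B + 1) := pow_le_pow_right₀ hone (by omega)
    rw [pow_one] at h5
    have h6 : 0 ≤ C₁ * (1 + |y|) ^ (B + 1) := by positivity
    calc ‖(x : ℂ) + y * I - 1‖ * ‖riemannZeta (x + y * I)‖
        ≤ ((x + 1) * (1 + |y|)) * C₂ := mul_le_mul h4 h3 (norm_nonneg _) (by positivity)
      _ ≤ ((A + 2) * (1 + |y|) ^ (B + 1)) * C₂ := by
          apply mul_le_mul_of_nonneg_right _ hC₂.le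
          exact mul_le_mul (by linarith) h5 (by positivity) (by positivity)
      _ ≤ _ := by linarith

theorem Z1_right (A : ℕ) (hA : 1 ≤ A) : ∃ C : ℝ, 0 < C ∧ ∀ y : ℝ,
    ‖Z1 (((1 / 2 + A : ℝ) : ℂ) + y * I)‖ ≤ C * (1 + |y|) := by
  obtain ⟨C₂, hC₂, h2⟩ := Pool.Agent.H448R2.GC.X1.zeta_bdd
  have hA' : (1 : ℝ) ≤ A := by exact_mod_cast hA
  refine ⟨(1 / 2 + A + 1) * C₂, by positivity, fun y => ?_⟩
  rw [Z1_of_ne (ne_one_of_re (by linarith) y), norm_mul]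
  have h3 := h2 (((1 / 2 + A : ℝ) : ℂ) + y * I) (by rw [re_line]; linarith)
  have h4 := norm_line_le (1 / 2 + A) y
  rw [abs_of_pos (by positivity : (0 : ℝ) < 1 / 2 + A)] at h4
  calc ‖((1 / 2 + A : ℝ) : ℂ) + y * I - 1‖ * ‖riemannZeta (((1 / 2 + A : ℝ) : ℂ) + y * I)‖
      ≤ ((1 / 2 + A + 1) * (1 + |y|)) * C₂ := mul_le_mul h4 h3 (norm_nonneg _) (by positivity)
    _ = _ := by ring

theorem Z1_left (A : ℕ) (hA : 1 ≤ A) : ∃ C : ℝ, 0 < C ∧ ∀ y : ℝ,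
    ‖Z1 (((1 / 2 - A : ℝ) : ℂ) + y * I)‖ ≤ C * (1 + |y|) ^ (A + 1) := by
  obtain ⟨C₂, hC₂, h2⟩ := Pool.Agent.H448R2.GC.zeta_left (A : ℝ)
  have hA' : (1 : ℝ) ≤ A := by exact_mod_cast hA
  refine ⟨(|(1 / 2 - A : ℝ)| + 1) * C₂, by positivity, fun y => ?_⟩
  rw [Z1_of_ne (ne_one_of_re (by linarith) y), norm_mul]
  have h3 := h2 (((1 / 2 - A : ℝ) : ℂ) + y * I) (by rw [re_line]; linarith)
    (by rw [re_line]; linarith)
  have h4 := norm_line_le (1 / 2 - A) y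
  rw [re_line, im_line] at h3
  have e1 : (1 / 2 - (1 / 2 - A : ℝ)) = (A : ℝ) := by ring
  rw [e1, Real.rpow_natCast] at h3
  calc ‖((1 / 2 - A : ℝ) : ℂ) + y * I - 1‖ * ‖riemannZeta (((1 / 2 - A : ℝ) : ℂ) + y * I)‖
      ≤ ((|(1 / 2 - A : ℝ)| + 1) * (1 + |y|)) * (C₂ * (1 + |y|) ^ A) :=
        mul_le_mul h4 h3 (norm_nonneg _) (by positivity)
    _ = _ := by ring

/-- Gaussian decay in a wide strip. -/
theorem FF_strip (A : ℕ) (T : ℝ) {V : ℝ} (hV : 0 < V) : ∃ M δ : ℝ, 0 ≤ M ∧ 0 < δ ∧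
    ∀ x y : ℝ, -(A : ℝ) ≤ x → x ≤ A + 1 → ‖FF 1 T V (x + y * I)‖ ≤ M * Real.exp (-δ * y ^ 2) := by
  obtain ⟨C₁, n, hC₁, h1⟩ := Z1_strip A
  obtain ⟨C, hC0, hC⟩ := poly_le_exp n (1 / (8 * V ^ 2)) (by positivity)
  refine ⟨C₁ * C * Real.exp (((A + 1) ^ 2 + T ^ 2) / (2 * V ^ 2)), 1 / (8 * V ^ 2), by positivity,
    by positivity, fun x y hx1 hx2 => ?_⟩
  rw [FF_norm, pow_one]
  have hg := h1 x y hx1 hx2
  have e1 : ((x - 1 / 2) ^ 2 - (y - T) ^ 2) / (2 * V ^ 2) ≤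
      ((A + 1) ^ 2 + T ^ 2) / (2 * V ^ 2) + -(1 / (4 * V ^ 2)) * y ^ 2 := by
    have e2 : ((A + 1) ^ 2 + T ^ 2) / (2 * V ^ 2) + -(1 / (4 * V ^ 2)) * y ^ 2 =
        ((A + 1) ^ 2 + T ^ 2 - y ^ 2 / 2) / (2 * V ^ 2) := by
      field_simp
      ring
    rw [e2]
    apply div_le_div_of_nonneg_right _ (by positivity)
    have hA : (0 : ℝ) ≤ A := Nat.cast_nonneg A
    have e3 : (x - 1 / 2) ^ 2 ≤ (A + 1) ^ 2 := by nlinarith
    nlinarith [sq_nonneg (y - 2 * T)]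
  calc ‖Z1 (x + y * I)‖ * Real.exp (((x - 1 / 2) ^ 2 - (y - T) ^ 2) / (2 * V ^ 2))
      ≤ (C₁ * (1 + |y|) ^ n) * Real.exp (((A + 1) ^ 2 + T ^ 2) / (2 * V ^ 2) +
          -(1 / (4 * V ^ 2)) * y ^ 2) := by gcongr
    _ ≤ (C₁ * (C * Real.exp (1 / (8 * V ^ 2) * y ^ 2))) *
          Real.exp (((A + 1) ^ 2 + T ^ 2) / (2 * V ^ 2) + -(1 / (4 * V ^ 2)) * y ^ 2) := by
        gcongr
        exact hC y
    _ = C₁ * C * Real.exp (((A + 1) ^ 2 + T ^ 2) / (2 * V ^ 2)) *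
          (Real.exp (1 / (8 * V ^ 2) * y ^ 2) * Real.exp (-(1 / (4 * V ^ 2)) * y ^ 2)) := by
        rw [Real.exp_add]
        ring
    _ = _ := by
        rw [← Real.exp_add]
        congr 2
        field_simp
        ring

/-- the integral over a line -/
theorem line_int {x : ℝ} {m : ℕ} {C : ℝ} (hC : 0 < C)
    (h : ∀ y : ℝ, ‖Z1 (x + y * I)‖ ≤ C * (1 + |y|) ^ m) {v₀ : ℝ} (hv : 0 < v₀) :
    ∃ K : ℝ, 0 < K ∧ ∀ T V : ℝ, 1 ≤ T → v₀ ≤ V → V ≤ T →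
      ∫ y : ℝ, ‖FF 1 T V (x + y * I)‖ ≤ K * (T ^ m * V) := by
  refine ⟨C * Real.exp ((x - 1 / 2) ^ 2 / (2 * v₀ ^ 2)) * 2 ^ m * (KK m + 1),
    by have := KK_nonneg m; positivity, fun T V hT hv1 hV => ?_⟩
  have hV0 : 0 < V := by linarith
  have hT0 : 0 ≤ T := by linarith
  have hpt : ∀ y : ℝ, ‖FF 1 T V (x + y * I)‖ ≤
      (C * Real.exp ((x - 1 / 2) ^ 2 / (2 * v₀ ^ 2)) * (1 + T) ^ m) *
        ((1 + |(y - T) / V|) ^ m * Real.exp (-(((y - T) / V) ^ 2 / 2))) := by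
    intro y
    rw [FF_norm, pow_one]
    have a1 := h y
    have a2 := abs_le_scaled hV0 hT0 hV y
    have a3 : (1 + |y|) ^ m ≤ ((1 + T) * (1 + |(y - T) / V|)) ^ m :=
      pow_le_pow_left₀ (by positivity) a2 m
    have a4 : Real.exp (((x - 1 / 2) ^ 2 - (y - T) ^ 2) / (2 * V ^ 2)) ≤
        Real.exp ((x - 1 / 2) ^ 2 / (2 * v₀ ^ 2)) * Real.exp (-(((y - T) / V) ^ 2 / 2)) := by
      rw [← Real.exp_add]
      apply Real.exp_le_exp.2
      have e1 : ((x - 1 / 2) ^ 2 - (y - T) ^ 2) / (2 * V ^ 2) =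
          (x - 1 / 2) ^ 2 / (2 * V ^ 2) + -(((y - T) / V) ^ 2 / 2) := by
        rw [div_pow]
        field_simp
        ring
      rw [e1]
      have : (x - 1 / 2) ^ 2 / (2 * V ^ 2) ≤ (x - 1 / 2) ^ 2 / (2 * v₀ ^ 2) := by
        gcongr
      linarith
    calc ‖Z1 (x + y * I)‖ * Real.exp (((x - 1 / 2) ^ 2 - (y - T) ^ 2) / (2 * V ^ 2))
        ≤ (C * ((1 + T) * (1 + |(y - T) / V|)) ^ m) *
          (Real.exp ((x - 1 / 2) ^ 2 / (2 * v₀ ^ 2)) * Real.exp (-(((y - T) / V) ^ 2 / 2))) := by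
          refine mul_le_mul (a1.trans ?_) a4 (Real.exp_pos _).le (by positivity)
          gcongr
      _ = _ := by rw [mul_pow]; ring
  have hi := (scaled_integrable m T hV0).const_mul
    (C * Real.exp ((x - 1 / 2) ^ 2 / (2 * v₀ ^ 2)) * (1 + T) ^ m)
  have h1 : ∫ y : ℝ, ‖FF 1 T V (x + y * I)‖ ≤ ∫ y : ℝ,
      (C * Real.exp ((x - 1 / 2) ^ 2 / (2 * v₀ ^ 2)) * (1 + T) ^ m) *
        ((1 + |(y - T) / V|) ^ m * Real.exp (-(((y - T) / V) ^ 2 / 2))) := by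
    refine integral_mono_of_nonneg (Eventually.of_forall fun y => norm_nonneg _) hi
      (Eventually.of_forall hpt)
  rw [integral_const_mul, scaled_integral m T hV0] at h1
  refine h1.trans ?_
  have h2 : (1 + T) ^ m ≤ (2 * T) ^ m := pow_le_pow_left₀ (by positivity) (by linarith) m
  rw [mul_pow] at h2
  have hK := KK_nonneg m
  calc C * Real.exp ((x - 1 / 2) ^ 2 / (2 * v₀ ^ 2)) * (1 + T) ^ m * (V * KK m)
      ≤ C * Real.exp ((x - 1 / 2) ^ 2 / (2 * v₀ ^ 2)) * (2 ^ m * T ^ m) * (V * (KK m + 1)) := by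
        gcongr
        linarith
    _ = _ := by ring

/-- Decay of the Fourier transform on the critical line. -/
theorem fourier_decay (A : ℕ) (hA : 1 ≤ A) {v₀ : ℝ} (hv : 0 < v₀) :
    ∃ K : ℝ, 0 < K ∧ ∀ T V : ℝ, 1 ≤ T → v₀ ≤ V → V ≤ T → ∀ ν : ℝ,
      ‖𝓕 (ln (FF 1 T V) (1 / 2)) ν‖ ≤ K * (T * V) * Real.exp (-(2 * Real.pi * A * ν)) ∧
      ‖𝓕 (ln (FF 1 T V) (1 / 2)) ν‖ ≤ K * (T * V) * (T ^ A * Real.exp (2 * Real.pi * A * ν)) := by
  obtain ⟨C₁, hC₁, h1⟩ := Z1_right A hA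
  obtain ⟨C₂, hC₂, h2⟩ := Z1_left A hA
  obtain ⟨K₁, hK₁, k1⟩ := line_int (x := 1 / 2 + A) (m := 1) hC₁ (by simpa using h1) hv
  obtain ⟨K₂, hK₂, k2⟩ := line_int (x := 1 / 2 - A) (m := A + 1) hC₂ h2 hv
  refine ⟨K₁ + K₂, by positivity, fun T V hT hv1 hV ν => ?_⟩
  have hV0 : 0 < V := by linarith
  have hT0 : 0 < T := by linarith
  have hA' : (1 : ℝ) ≤ A := by exact_mod_cast hA
  obtain ⟨M, δ, hM, hδ, hbd⟩ := FF_strip A T hV0
  have hF := FF_differentiable 1 T V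
  have hfn : ∀ x : ℝ, ‖𝓕 (ln (FF 1 T V) x) ν‖ ≤ ∫ y : ℝ, ‖FF 1 T V (x + y * I)‖ := by
    intro x
    rw [fourier_ee]
    refine (norm_integral_le_integral_norm _).trans (le_of_eq ?_)
    refine integral_congr_ae (Eventually.of_forall fun y => ?_)
    simp only
    rw [norm_mul, ee_norm, one_mul]
    rfl
  constructor
  · have h3 := fourier_shift hF hδ hM hbd (x := 1 / 2) (x' := 1 / 2 + A) (by linarith) (by linarith)
      (by linarith) ν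
    have h4 := congrArg norm h3
    rw [norm_mul, norm_mul, Complex.norm_real, Complex.norm_real,
      Real.norm_of_nonneg (Real.exp_pos _).le, Real.norm_of_nonneg (Real.exp_pos _).le] at h4
    have h5 : ‖𝓕 (ln (FF 1 T V) (1 / 2)) ν‖ =
        Real.exp (-(2 * Real.pi * A * ν)) * ‖𝓕 (ln (FF 1 T V) (1 / 2 + A)) ν‖ := by
      have e1 : Real.exp (-(2 * Real.pi * ν * (1 / 2 + A))) =
          Real.exp (-(2 * Real.pi * ν * (1 / 2))) * Real.exp (-(2 * Real.pi * A * ν)) := by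
        rw [← Real.exp_add]; congr 1; ring
      have h4' : Real.exp (-(2 * Real.pi * ν * (1 / 2))) * ‖𝓕 (ln (FF 1 T V) (1 / 2)) ν‖ =
          Real.exp (-(2 * Real.pi * ν * (1 / 2))) *
            (Real.exp (-(2 * Real.pi * A * ν)) * ‖𝓕 (ln (FF 1 T V) (1 / 2 + A)) ν‖) := by
        rw [h4, e1]; ring
      exact mul_left_cancel₀ (Real.exp_pos _).ne' h4'
    rw [h5]
    have h6 := (hfn (1 / 2 + A)).trans (k1 T V hT hv1 hV)
    rw [pow_one] at h6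
    calc Real.exp (-(2 * Real.pi * A * ν)) * ‖𝓕 (ln (FF 1 T V) (1 / 2 + A)) ν‖
        ≤ Real.exp (-(2 * Real.pi * A * ν)) * (K₁ * (T * V)) := by gcongr
      _ ≤ Real.exp (-(2 * Real.pi * A * ν)) * ((K₁ + K₂) * (T * V)) := by
          gcongr
          linarith
      _ = _ := by ring
  · have h3 := fourier_shift hF hδ hM hbd (x := 1 / 2 - A) (x' := 1 / 2) (by linarith) (by linarith)
      (by linarith) ν
    have h4 := congrArg norm h3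
    rw [norm_mul, norm_mul, Complex.norm_real, Complex.norm_real,
      Real.norm_of_nonneg (Real.exp_pos _).le, Real.norm_of_nonneg (Real.exp_pos _).le] at h4
    have h5 : ‖𝓕 (ln (FF 1 T V) (1 / 2)) ν‖ =
        Real.exp (2 * Real.pi * A * ν) * ‖𝓕 (ln (FF 1 T V) (1 / 2 - A)) ν‖ := by
      have e1 : Real.exp (-(2 * Real.pi * ν * (1 / 2 - A))) =
          Real.exp (-(2 * Real.pi * ν * (1 / 2))) * Real.exp (2 * Real.pi * A * ν) := by
        rw [← Real.exp_add]; congr 1; ring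
      have h4' : Real.exp (-(2 * Real.pi * ν * (1 / 2))) * ‖𝓕 (ln (FF 1 T V) (1 / 2)) ν‖ =
          Real.exp (-(2 * Real.pi * ν * (1 / 2))) *
            (Real.exp (2 * Real.pi * A * ν) * ‖𝓕 (ln (FF 1 T V) (1 / 2 - A)) ν‖) := by
        rw [← h4, e1]; ring
      exact mul_left_cancel₀ (Real.exp_pos _).ne' h4'
    rw [h5]
    have h6 := (hfn (1 / 2 - A)).trans (k2 T V hT hv1 hV)
    calc Real.exp (2 * Real.pi * A * ν) * ‖𝓕 (ln (FF 1 T V) (1 / 2 - A)) ν‖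
        ≤ Real.exp (2 * Real.pi * A * ν) * (K₂ * (T ^ (A + 1) * V)) := by gcongr
      _ ≤ Real.exp (2 * Real.pi * A * ν) * ((K₁ + K₂) * (T ^ (A + 1) * V)) := by
          gcongr
          linarith
      _ = _ := by rw [pow_succ]; ring

end

end Q97.BS
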