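import Pool.Agent.Q97.BS.Far
import Pool.Agent.Q97.BS.Enn

set_option autoImplicit false

open MeasureTheory Filter Topology Complex Set FourierTransform

namespace Q97.BS

open Q97.MM

noncomputable section

/-- the point of the critical line -/
def pt (y : ℝ) : ℂ := ((1 / 2 : ℝ) : ℂ) + y * I

/-- the scaled function -/
def gg (T V x : ℝ) : ℂ :=
  ee (x / 2) * (FF 1 T V (pt (T + 2 * Real.pi / Real.log T * x)) / (T : ℂ))

theorem gg_norm (T V x : ℝ) (hT : 0 < T) :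
    ‖gg T V x‖ = ‖FF 1 T V (pt (T + 2 * Real.pi / Real.log T * x))‖ / T := by
  rw [gg, norm_mul, ee_norm, one_mul, norm_div, Complex.norm_real, Real.norm_of_nonneg hT.le]

theorem pt_cont : Continuous pt := by
  unfold pt
  fun_prop

theorem gg_cont (T V : ℝ) : Continuous (gg T V) := by
  unfold gg
  have h1 := (FF_differentiable 1 T V).continuous
  have h2 := ee_continuous
  have h3 := pt_cont
  fun_prop

theorem log_pos' {T : ℝ} (hT : 3 ≤ T) : 1 ≤ Real.log T := by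
  rw [Real.le_log_iff_exp_le (by linarith)]
  linarith [Real.exp_one_lt_d9]

theorem gg_int {T V : ℝ} (hT : 3 ≤ T) (hV : 0 < V) : Integrable (gg T V) := by
  have hL := log_pos' hT
  obtain ⟨M, δ, hM, hδ, hbd⟩ := FF_strip 1 T hV
  have h1 : Integrable (ln (FF 1 T V) (1 / 2)) :=
    ln_integrable (FF_differentiable 1 T V) hδ hbd (by norm_num) (by norm_num)
  have hρ : 2 * Real.pi / Real.log T ≠ 0 := by
    have := Real.pi_pos
    positivity
  have h2 : Integrable (fun x => ln (FF 1 T V) (1 / 2) (T + 2 * Real.pi / Real.log T * x)) :=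
    (h1.comp_add_left T).comp_mul_left' hρ
  have h3 : Integrable (fun x => (1 / (T : ℂ)) * ln (FF 1 T V) (1 / 2)
      (T + 2 * Real.pi / Real.log T * x)) := h2.const_mul _
  refine h3.norm.mono' (gg_cont T V).aestronglyMeasurable (Eventually.of_forall fun x => ?_)
  rw [gg, norm_mul, ee_norm, one_mul, norm_div, norm_mul, norm_div, norm_one]
  apply le_of_eq
  rw [one_div_mul_eq_div]
  rfl

theorem gg_fourier {T V : ℝ} (hT : 3 ≤ T) (ξ : ℝ) :
    ‖𝓕 (gg T V) ξ‖ = Real.log T / (2 * Real.pi * T) *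
      ‖𝓕 (ln (FF 1 T V) (1 / 2)) ((ξ - 1 / 2) * Real.log T / (2 * Real.pi))‖ := by
  have hL : 0 < Real.log T := by linarith [log_pos' hT]
  have hπ := Real.pi_pos
  have hT0 : 0 < T := by linarith
  set ρ := 2 * Real.pi / Real.log T with hρ
  have hρ0 : 0 < ρ := by positivity
  set G := ln (FF 1 T V) (1 / 2) with hG
  set ν := (ξ - 1 / 2) / ρ with hν
  have hν' : (ξ - 1 / 2) * Real.log T / (2 * Real.pi) = ν := by
    rw [hν, hρ]; field_simp
  rw [hν', fourier_ee]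
  have e1 : ∀ x : ℝ, ee (-(x * ξ)) * gg T V x =
      (ee (T * ν) / (T : ℂ)) * (fun y => ee (-(y * ν)) * G y) (T + ρ * x) := by
    intro x
    simp only [gg]
    have e2 : ee (-(x * ξ)) * ee (x / 2) = ee (T * ν) * ee (-((T + ρ * x) * ν)) := by
      rw [← ee_add, ← ee_add]
      congr 1
      rw [hν]
      field_simp
      ring
    have e3 : FF 1 T V (pt (T + ρ * x)) = G (T + ρ * x) := rfl
    rw [e3]
    calc ee (-(x * ξ)) * (ee (x / 2) * (G (T + ρ * x) / (T : ℂ)))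
        = (ee (-(x * ξ)) * ee (x / 2)) * (G (T + ρ * x) / (T : ℂ)) := by ring
      _ = _ := by rw [e2]; ring
  rw [integral_congr_ae (Eventually.of_forall e1), integral_const_mul]
  have e4 : ∫ x : ℝ, (fun y => ee (-(y * ν)) * G y) (T + ρ * x) =
      ((ρ⁻¹ : ℝ) : ℂ) * ∫ y, ee (-(y * ν)) * G y := by
    have e5 := Measure.integral_comp_mul_left (fun w : ℝ => (fun y => ee (-(y * ν)) * G y) (T + w)) ρ
    rw [e5, integral_add_left_eq_self (fun y => ee (-(y * ν)) * G y) T,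
      abs_of_pos (inv_pos.mpr hρ0), Complex.real_smul]
  rw [e4, fourier_ee, norm_mul, norm_mul, norm_div, ee_norm, Complex.norm_real, Complex.norm_real,
    Real.norm_of_nonneg hT0.le, Real.norm_of_nonneg (inv_pos.mpr hρ0).le, ← mul_assoc]
  congr 1
  rw [hρ]
  field_simp

theorem exp_neg_le (x : ℝ) (hx : 0 ≤ x) : Real.exp (-x) * ((1 + x) * (1 + x ^ 2)) ≤ 6 := by
  have h1 : (1 + x) * (1 + x ^ 2) ≤ 6 * Real.exp x := by
    have h2 := Real.sum_le_exp_of_nonneg hx 4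
    simp only [Finset.sum_range_succ, Finset.sum_range_zero, Nat.factorial] at h2
    norm_num at h2
    nlinarith [pow_nonneg hx 2, pow_nonneg hx 3]
  rw [Real.exp_neg, inv_mul_le_iff₀ (Real.exp_pos x)]
  linarith

/-- Decay of the frequencies outside the band. -/
theorem FD {b : ℝ} (hb : 1 / 2 < b) (B : ℕ) {v₀ : ℝ} (hv : 0 < v₀) :
    ∃ K : ℝ, 0 < K ∧ ∀ T V : ℝ, 3 ≤ T → v₀ ≤ V → V ≤ T → ∀ ξ : ℝ, b < |ξ| →
      (1 + |ξ|) * ‖𝓕 (gg T V) ξ‖ ≤ K / T ^ B * (1 + ξ ^ 2)⁻¹ := by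
  obtain ⟨A, hA⟩ := exists_nat_ge (max 2 (2 * (B + 2) / (b - 1 / 2)))
  have hA2 : (2 : ℝ) ≤ A := (le_max_left _ _).trans hA
  have hAb : (B : ℝ) + 2 ≤ A / 2 * (b - 1 / 2) := by
    have h1 := (le_max_right _ _).trans hA
    rw [div_le_iff₀ (by linarith)] at h1
    linarith
  have hA1 : 1 ≤ A := by
    have : (1 : ℝ) ≤ A := by linarith
    exact_mod_cast this
  obtain ⟨K, hK, hK'⟩ := fourier_decay A hA1 hv
  refine ⟨K * Real.exp (1 / 2) * 6, by positivity, fun T V hT hv1 hV ξ hξ => ?_⟩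
  have hL1 := log_pos' hT
  have hL : 0 < Real.log T := by linarith
  have hπ := Real.pi_gt_three
  have hT0 : 0 < T := by linarith
  have hV0 : 0 < V := by linarith
  have hLT : Real.log T ≤ T := (Real.log_le_sub_one_of_pos hT0).trans (by linarith)
  set L := Real.log T with hLd
  -- the bound by the exponential
  have h1 : ‖𝓕 (ln (FF 1 T V) (1 / 2)) ((ξ - 1 / 2) * L / (2 * Real.pi))‖ ≤
      K * (T * V) * Real.exp (-(A * L * (|ξ| - 1 / 2))) := by
    obtain ⟨k1, k2⟩ := hK' T V (by linarith) hv1 hV ((ξ - 1 / 2) * L / (2 * Real.pi))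
    rcases le_total 0 ξ with h | h
    · rw [abs_of_nonneg h]
      refine k1.trans (le_of_eq ?_)
      congr 2
      field_simp
    · rw [abs_of_nonpos h]
      refine k2.trans (le_of_eq ?_)
      congr 1
      have e : T ^ A = Real.exp (A * L) := by
        rw [hLd, mul_comm, Real.exp_mul, Real.exp_log hT0, Real.rpow_natCast]
      rw [e, ← Real.exp_add]
      congr 1
      field_simp
      ring
  have h2 : Real.exp (-(A * L * (|ξ| - 1 / 2))) ≤
      (1 / T ^ (B + 2)) * (Real.exp (1 / 2) * Real.exp (-|ξ|)) := by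
    have e : 1 / T ^ (B + 2) = Real.exp (-((B + 2 : ℕ) * L)) := by
      rw [Real.exp_neg, hLd, mul_comm, Real.exp_mul, Real.exp_log hT0, Real.rpow_natCast, one_div]
    rw [e, ← Real.exp_add, ← Real.exp_add]
    apply Real.exp_le_exp.2
    push_cast
    have h3 : ((B : ℝ) + 2) * L ≤ A / 2 * (|ξ| - 1 / 2) * L := by
      apply mul_le_mul_of_nonneg_right _ hL.le
      refine hAb.trans ?_
      gcongr
    have h4 : (|ξ| - 1 / 2) ≤ A / 2 * L * (|ξ| - 1 / 2) := by
      have h5 : 0 ≤ |ξ| - 1 / 2 := by linarith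
      have h6 : 1 ≤ A / 2 * L := by nlinarith
      nlinarith
    nlinarith
  rw [gg_fourier hT]
  have hx0 := abs_nonneg ξ
  have h3 : Real.exp (-|ξ|) * ((1 + |ξ|) * (1 + ξ ^ 2)) ≤ 6 := by
    have := exp_neg_le |ξ| hx0
    rwa [sq_abs] at this
  have h4 : L / (2 * Real.pi * T) * (K * (T * V)) ≤ K * T ^ 2 := by
    have e : L / (2 * Real.pi * T) * (K * (T * V)) = K * (L * V / (2 * Real.pi)) := by
      field_simp
    rw [e]
    apply mul_le_mul_of_nonneg_left _ hK.le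
    rw [div_le_iff₀ (by positivity)]
    have : L * V ≤ T * T := mul_le_mul hLT hV hV0.le hT0.le
    nlinarith
  have hexp := Real.exp_pos (1 / 2)
  calc (1 + |ξ|) * (L / (2 * Real.pi * T) *
        ‖𝓕 (ln (FF 1 T V) (1 / 2)) ((ξ - 1 / 2) * L / (2 * Real.pi))‖)
      ≤ (1 + |ξ|) * (L / (2 * Real.pi * T) * (K * (T * V) *
          ((1 / T ^ (B + 2)) * (Real.exp (1 / 2) * Real.exp (-|ξ|))))) := by
        gcongr
        exact h1.trans (by gcongr)
    _ = (L / (2 * Real.pi * T) * (K * (T * V))) * (1 / T ^ (B + 2)) * Real.exp (1 / 2) *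
          (Real.exp (-|ξ|) * ((1 + |ξ|) * (1 + ξ ^ 2))) * (1 + ξ ^ 2)⁻¹ := by
        field_simp
    _ ≤ (K * T ^ 2) * (1 / T ^ (B + 2)) * Real.exp (1 / 2) * 6 * (1 + ξ ^ 2)⁻¹ := by
        gcongr
    _ = _ := by
        rw [pow_add]
        field_simp

theorem hat_cont {T V : ℝ} (hT : 3 ≤ T) (hV : 0 < V) : Continuous (𝓕 (gg T V)) :=
  VectorFourier.fourierIntegral_continuous (L := innerₗ ℝ) Real.continuous_fourierChar
    continuous_inner (gg_int hT hV)

theorem hat_le (T V ξ : ℝ) : ‖𝓕 (gg T V) ξ‖ ≤ ∫ x, ‖gg T V x‖ := by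
  rw [fourier_ee]
  refine (norm_integral_le_integral_norm _).trans (le_of_eq ?_)
  refine integral_congr_ae (Eventually.of_forall fun y => ?_)
  simp only
  rw [norm_mul, ee_norm, one_mul]

/-- integrability of the frequencies with a linear weight -/
theorem hat_int {T V : ℝ} (hT : 3 ≤ T) (hV : 0 < V) (hVT : V ≤ T) :
    Integrable (fun ξ => (1 + |ξ|) * ‖𝓕 (gg T V) ξ‖) := by
  obtain ⟨K, hK, hK'⟩ := FD (b := 1) (by norm_num) 0 hV
  have hJ : 0 ≤ ∫ x, ‖gg T V x‖ := integral_nonneg fun x => norm_nonneg _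
  have hmaj : Integrable (fun ξ : ℝ => (K + 4 * ∫ x, ‖gg T V x‖) * (1 + ξ ^ 2)⁻¹) :=
    integrable_inv_one_add_sq.const_mul _
  refine hmaj.mono' (by
    have := hat_cont hT hV
    exact Continuous.aestronglyMeasurable (by fun_prop)) (Eventually.of_forall fun ξ => ?_)
  rw [Real.norm_of_nonneg (by positivity)]
  by_cases h : 1 < |ξ|
  · have h1 := hK' T V hT le_rfl hVT ξ h
    rw [pow_zero, div_one] at h1
    refine h1.trans ?_
    gcongr
    linarith
  · push Not at h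
    have h1 := hat_le T V ξ
    have h2 : 1 + ξ ^ 2 ≤ 2 := by
      rw [← sq_abs]
      nlinarith [abs_nonneg ξ]
    have h3 : 1 / 2 ≤ (1 + ξ ^ 2)⁻¹ := by
      rw [← one_div]
      exact one_div_le_one_div_of_le (by positivity) h2
    calc (1 + |ξ|) * ‖𝓕 (gg T V) ξ‖ ≤ 2 * ∫ x, ‖gg T V x‖ := by
          apply mul_le_mul _ h1 (norm_nonneg _) (by norm_num)
          linarith
      _ = (4 * ∫ x, ‖gg T V x‖) * (1 / 2) := by ring
      _ ≤ (K + 4 * ∫ x, ‖gg T V x‖) * (1 + ξ ^ 2)⁻¹ := by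
          apply mul_le_mul _ h3 (by norm_num) (by positivity)
          linarith

theorem hat_int' {T V : ℝ} (hT : 3 ≤ T) (hV : 0 < V) (hVT : V ≤ T) : Integrable (𝓕 (gg T V)) := by
  refine (hat_int hT hV hVT).mono' (hat_cont hT hV).aestronglyMeasurable
    (Eventually.of_forall fun ξ => ?_)
  have := norm_nonneg (𝓕 (gg T V) ξ)
  nlinarith [abs_nonneg ξ]

/-- The scaled function is band limited up to a tiny error. -/
theorem gg_band {b : ℝ} (hb : 1 / 2 < b) (B : ℕ) {v₀ : ℝ} (hv : 0 < v₀) :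
    ∃ K : ℝ, 0 < K ∧ ∀ T V : ℝ, 3 ≤ T → v₀ ≤ V → V ≤ T → Band (gg T V) b (K / T ^ B) ∧
      ∫ ξ in {ξ : ℝ | b < |ξ|}, (1 + |ξ|) * ‖𝓕 (gg T V) ξ‖ ≤ K / T ^ B := by
  obtain ⟨K, hK, hK'⟩ := FD hb B hv
  refine ⟨K * Real.pi, by have := Real.pi_pos; positivity, fun T V hT hv1 hV => ?_⟩
  have hV0 : 0 < V := by linarith
  have hT0 : 0 < T := by linarith
  have hm : MeasurableSet {ξ : ℝ | b < |ξ|} := measurableSet_lt measurable_const measurable_norm
  have h2 : ∫ ξ in {ξ : ℝ | b < |ξ|}, (1 + |ξ|) * ‖𝓕 (gg T V) ξ‖ ≤ K * Real.pi / T ^ B := by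
    have hi := integrable_inv_one_add_sq.const_mul (K / T ^ B)
    have h3 : ∫ ξ in {ξ : ℝ | b < |ξ|}, (1 + |ξ|) * ‖𝓕 (gg T V) ξ‖ ≤
        ∫ ξ in {ξ : ℝ | b < |ξ|}, K / T ^ B * (1 + ξ ^ 2)⁻¹ :=
      setIntegral_mono_on (hat_int hT hV0 hV).integrableOn hi.integrableOn hm
        (fun ξ hξ => hK' T V hT hv1 hV ξ hξ)
    refine h3.trans ((setIntegral_le_integral hi (Eventually.of_forall fun ξ => by
      show 0 ≤ K / T ^ B * (1 + ξ ^ 2)⁻¹
      positivity)).trans (le_of_eq ?_))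
    rw [integral_const_mul, integral_univ_inv_one_add_sq]
    ring
  refine ⟨⟨gg_cont T V, gg_int hT hV0, hat_int' hT hV0 hV, ?_⟩, h2⟩
  refine le_trans (setIntegral_mono_on (hat_int' hT hV0 hV).norm.integrableOn
    (hat_int hT hV0 hV).integrableOn hm (fun ξ _ => ?_)) h2
  have := norm_nonneg (𝓕 (gg T V) ξ)
  nlinarith [abs_nonneg ξ]

end

end Q97.BS
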