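import Pool.Agent.Q97.BS.Smp

set_option autoImplicit false

open MeasureTheory Filter Topology Complex Set FourierTransform SchwartzMap
open scoped ENNReal

namespace Q97.BS

noncomputable section

/-- The sampling formula with its error. -/
theorem samp {ψ : 𝓢(ℝ, ℂ)} {b b' δ Cψ S : ℝ} (h1 : ∀ ξ : ℝ, |ξ| ≤ b → 𝓕 (ψ : ℝ → ℂ) ξ = 1)
    (h2 : ∀ ξ : ℝ, b' ≤ |ξ| → 𝓕 (ψ : ℝ → ℂ) ξ = 0) (hδ : 0 < δ) (hb : b + b' ≤ 1 / δ)
    (hC : ∀ v : ℝ, ‖ψ v‖ ≤ Cψ * (1 / (1 + |v|) ^ 2)) (hCψ : 0 ≤ Cψ)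
    (hS : ∀ y : ℝ, Summable (fun n : ℤ => 1 / (1 + |y - n * δ|) ^ 2) ∧
      ∑' n : ℤ, 1 / (1 + |y - n * δ|) ^ 2 ≤ S)
    {g : ℝ → ℂ} {η : ℝ} (hg : Band g b η) (x θ : ℝ) :
    ‖g x‖ ≤ δ * ∑' n : ℤ, ‖ψ (x - θ - n * δ)‖ * ‖g (θ + n * δ)‖ + (δ * (Cψ * S) + 1) * η := by
  set B := ∫ ξ, ‖𝓕 g ξ‖ with hB
  have hB0 : 0 ≤ B := integral_nonneg fun ξ => norm_nonneg _
  have hs1 : Summable (fun n : ℤ => ‖ψ (x - θ - n * δ)‖) :=
    Summable.of_nonneg_of_le (fun n => norm_nonneg _) (fun n => hC _) ((hS (x - θ)).1.mul_left Cψ)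
  have hs1' : ∑' n : ℤ, ‖ψ (x - θ - n * δ)‖ ≤ Cψ * S := by
    refine (Summable.tsum_le_tsum (fun n => hC _) hs1 ((hS (x - θ)).1.mul_left Cψ)).trans ?_
    rw [tsum_mul_left]
    exact mul_le_mul_of_nonneg_left (hS _).2 hCψ
  have hs2 : Summable (fun n : ℤ => ‖ψ (x - θ - n * δ)‖ * ‖g (θ + n * δ)‖) :=
    Summable.of_nonneg_of_le (fun n => by positivity)
      (fun n => mul_le_mul_of_nonneg_left (hg.bounded _) (norm_nonneg _)) (hs1.mul_right B)
  have hF : ∀ n : ℤ, Integrable (fun ξ => ψ (x - θ - n * δ) * ee ((θ + n * δ) * ξ) * 𝓕 g ξ) := by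
    intro n
    refine (hg.fint.norm.const_mul ‖ψ (x - θ - n * δ)‖).mono' ?_ (Eventually.of_forall fun ξ => ?_)
    · have := ee_continuous
      exact (Continuous.aestronglyMeasurable (by fun_prop)).mul hg.fint.aestronglyMeasurable
    · rw [norm_mul, norm_mul, ee_norm, mul_one]
  have hsw := hasSum_integral_of_summable_integral_norm hF (by
    refine (hs1.mul_right B).congr fun n => ?_
    rw [hB, ← integral_const_mul]
    refine integral_congr_ae (Eventually.of_forall fun ξ => ?_)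
    simp only
    rw [norm_mul, norm_mul, ee_norm, mul_one])
  have hterm : ∀ n : ℤ, ∫ ξ, ψ (x - θ - n * δ) * ee ((θ + n * δ) * ξ) * 𝓕 g ξ =
      ψ (x - θ - n * δ) * g (θ + n * δ) := by
    intro n
    rw [hg.inv (θ + n * δ), ← integral_const_mul]
    refine integral_congr_ae (Eventually.of_forall fun ξ => ?_)
    simp only
    rw [mul_comm (θ + n * δ) ξ]
    ring
  have hsum := hsw.tsum_eq
  simp only [hterm] at hsum
  -- the kernel of the error
  set E : ℝ → ℂ := fun ξ => (δ : ℂ) * ∑' n : ℤ, ψ (x - θ - n * δ) * ee ((θ + n * δ) * ξ) - ee (x * ξ)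
    with hE
  have hE0 : ∀ ξ : ℝ, |ξ| ≤ b → E ξ = 0 := by
    intro ξ hξ
    simp only [hE]
    rw [repro h1 h2 hδ hb x θ hξ, sub_self]
  have hE1 : ∀ ξ : ℝ, ‖E ξ‖ ≤ δ * (Cψ * S) + 1 := by
    intro ξ
    simp only [hE]
    refine (norm_sub_le _ _).trans ?_
    rw [ee_norm, norm_mul, Complex.norm_real, Real.norm_of_nonneg hδ.le]
    have h3 : ‖∑' n : ℤ, ψ (x - θ - n * δ) * ee ((θ + n * δ) * ξ)‖ ≤ Cψ * S := by
      have e : ∀ n : ℤ, ‖ψ (x - θ - n * δ) * ee ((θ + n * δ) * ξ)‖ = ‖ψ (x - θ - n * δ)‖ := by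
        intro n
        rw [norm_mul, ee_norm, mul_one]
      refine (norm_tsum_le_tsum_norm (by simpa only [e] using hs1)).trans ?_
      simpa only [e] using hs1'
    have := mul_le_mul_of_nonneg_left h3 hδ.le
    linarith
  have hdiff : (δ : ℂ) * ∑' n : ℤ, ψ (x - θ - n * δ) * g (θ + n * δ) - g x =
      ∫ ξ, E ξ * 𝓕 g ξ := by
    rw [hsum, hg.inv x, ← integral_const_mul, ← integral_sub]
    · refine integral_congr_ae (Eventually.of_forall fun ξ => ?_)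
      simp only [hE]
      rw [tsum_mul_right, mul_comm ξ x]
      ring
    · have h3 : Integrable (fun ξ => ∑' n : ℤ, ψ (x - θ - n * δ) * ee ((θ + n * δ) * ξ) * 𝓕 g ξ) := by
        have h4 : ∀ ξ, ‖∑' n : ℤ, ψ (x - θ - n * δ) * ee ((θ + n * δ) * ξ) * 𝓕 g ξ‖ ≤
            (Cψ * S) * ‖𝓕 g ξ‖ := by
          intro ξ
          rw [tsum_mul_right, norm_mul]
          apply mul_le_mul_of_nonneg_right _ (norm_nonneg _)
          have e : ∀ n : ℤ, ‖ψ (x - θ - n * δ) * ee ((θ + n * δ) * ξ)‖ = ‖ψ (x - θ - n * δ)‖ := by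
            intro n
            rw [norm_mul, ee_norm, mul_one]
          refine (norm_tsum_le_tsum_norm (by simpa only [e] using hs1)).trans ?_
          simpa only [e] using hs1'
        refine (hg.fint.norm.const_mul (Cψ * S)).mono' ?_ (Eventually.of_forall h4)
        have h5 : Continuous (fun ξ => ∑' n : ℤ, ψ (x - θ - n * δ) * ee ((θ + n * δ) * ξ)) := by
          refine continuous_tsum (fun n => ?_) hs1 (fun n ξ => ?_)
          · have := ee_continuous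
            fun_prop
          · rw [norm_mul, ee_norm, mul_one]
        have h6 : (fun ξ => ∑' n : ℤ, ψ (x - θ - n * δ) * ee ((θ + n * δ) * ξ) * 𝓕 g ξ) =
            fun ξ => (∑' n : ℤ, ψ (x - θ - n * δ) * ee ((θ + n * δ) * ξ)) * 𝓕 g ξ := by
          funext ξ
          rw [tsum_mul_right]
        rw [h6]
        exact h5.aestronglyMeasurable.mul hg.fint.aestronglyMeasurable
      exact h3.const_mul _
    · refine hg.fint.norm.mono' ?_ (Eventually.of_forall fun ξ => ?_)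
      · have := ee_continuous
        exact (Continuous.aestronglyMeasurable (by fun_prop)).mul hg.fint.aestronglyMeasurable
      · rw [norm_mul, ee_norm, one_mul]
  have hη : 0 ≤ η := le_trans (integral_nonneg fun ξ => norm_nonneg _) hg.small
  have hK : 0 ≤ δ * (Cψ * S) + 1 := (norm_nonneg _).trans (hE1 0)
  have herr : ‖∫ ξ, E ξ * 𝓕 g ξ‖ ≤ (δ * (Cψ * S) + 1) * η := by
    have h3 : ∀ ξ, ‖E ξ * 𝓕 g ξ‖ ≤
        ({ξ : ℝ | b < |ξ|}.indicator (fun ξ => (δ * (Cψ * S) + 1) * ‖𝓕 g ξ‖)) ξ := by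
      intro ξ
      by_cases h : b < |ξ|
      · rw [indicator_of_mem (show ξ ∈ {ξ : ℝ | b < |ξ|} from h), norm_mul]
        exact mul_le_mul_of_nonneg_right (hE1 ξ) (norm_nonneg _)
      · rw [indicator_of_notMem (show ξ ∉ {ξ : ℝ | b < |ξ|} from h), hE0 ξ (not_lt.mp h), zero_mul,
          norm_zero]
    have hm : MeasurableSet {ξ : ℝ | b < |ξ|} :=
      measurableSet_lt measurable_const measurable_norm
    have h4 : Integrable ({ξ : ℝ | b < |ξ|}.indicator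
        (fun ξ => (δ * (Cψ * S) + 1) * ‖𝓕 g ξ‖)) :=
      (hg.fint.norm.const_mul _).indicator hm
    refine (norm_integral_le_of_norm_le h4 (Eventually.of_forall h3)).trans ?_
    rw [integral_indicator hm, integral_const_mul]
    exact mul_le_mul_of_nonneg_left hg.small hK
  have hfin : ‖(δ : ℂ) * ∑' n : ℤ, ψ (x - θ - n * δ) * g (θ + n * δ)‖ ≤
      δ * ∑' n : ℤ, ‖ψ (x - θ - n * δ)‖ * ‖g (θ + n * δ)‖ := by
    rw [norm_mul, Complex.norm_real, Real.norm_of_nonneg hδ.le]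
    apply mul_le_mul_of_nonneg_left _ hδ.le
    have e : ∀ n : ℤ, ‖ψ (x - θ - n * δ) * g (θ + n * δ)‖ =
        ‖ψ (x - θ - n * δ)‖ * ‖g (θ + n * δ)‖ := fun n => norm_mul _ _
    refine (norm_tsum_le_tsum_norm (by simpa only [e] using hs2)).trans (le_of_eq ?_)
    simp only [e]
  have e7 : g x = (δ : ℂ) * ∑' n : ℤ, ψ (x - θ - n * δ) * g (θ + n * δ) - ∫ ξ, E ξ * 𝓕 g ξ := by
    rw [← hdiff]
    ring
  calc ‖g x‖ = ‖(δ : ℂ) * ∑' n : ℤ, ψ (x - θ - n * δ) * g (θ + n * δ) - ∫ ξ, E ξ * 𝓕 g ξ‖ := by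
        rw [← e7]
    _ ≤ _ := norm_sub_le _ _
    _ ≤ _ := add_le_add hfin herr

/-- The pointwise inequality. -/
theorem point {b b' δ β : ℝ} (hb0 : 0 < b) (hbb : b < b') (hδ : 0 < δ) (hb : b + b' ≤ 1 / δ)
    (hβ : 0 < β) : ∃ C : ℝ, 0 < C ∧ ∀ (g : ℝ → ℂ) (η : ℝ), Band g b η → ∀ x θ : ℝ,
      Summable (fun n : ℤ => ‖g (θ + n * δ)‖ ^ β * (1 / (1 + |x - θ - n * δ|) ^ 2)) ∧
      ‖g x‖ ^ β ≤ C * (∑' n : ℤ, ‖g (θ + n * δ)‖ ^ β * (1 / (1 + |x - θ - n * δ|) ^ 2) + η ^ β) := by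
  obtain ⟨ψ, h1, h2⟩ := exists_kernel hb0 hbb
  obtain ⟨S, hS0, hS⟩ := sum_decay hδ
  set M : ℕ := ⌈2 / β⌉₊ with hM
  have hMβ : 2 / β ≤ M := Nat.le_ceil _
  obtain ⟨Cψ, hCψ, hdec⟩ := schwartz_decay ψ (M + 2)
  have hC : ∀ v : ℝ, ‖ψ v‖ ≤ Cψ * (1 / (1 + |v|) ^ 2) := by
    intro v
    have h3 : (1 + |v|) ^ 2 ≤ (1 + |v|) ^ (M + 2) :=
      pow_le_pow_right₀ (by linarith [abs_nonneg v]) (by omega)
    have h4 : ‖ψ v‖ * (1 + |v|) ^ 2 ≤ Cψ :=
      (mul_le_mul_of_nonneg_left h3 (norm_nonneg _)).trans (hdec v)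
    rw [mul_one_div, le_div_iff₀ (by positivity)]
    exact h4
  set K₁ : ℝ := δ * (Cψ * S) with hK₁
  have hK₁0 : 0 < K₁ := by positivity
  refine ⟨2 ^ β * (K₁ ^ β + (K₁ + 1) ^ β), by positivity, ?_⟩
  intro g η hg x θ
  have hη : 0 ≤ η := le_trans (integral_nonneg fun ξ => norm_nonneg _) hg.small
  set B := ∫ ξ, ‖𝓕 g ξ‖ with hB
  have hB0 : 0 ≤ B := integral_nonneg fun ξ => norm_nonneg _
  have hsum : Summable (fun n : ℤ => ‖g (θ + n * δ)‖ ^ β * (1 / (1 + |x - θ - n * δ|) ^ 2)) := by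
    refine Summable.of_nonneg_of_le (fun n => by positivity) (fun n => ?_)
      ((hS (x - θ)).1.mul_left (B ^ β))
    exact mul_le_mul_of_nonneg_right (Real.rpow_le_rpow (norm_nonneg _) (hg.bounded _) hβ.le)
      (by positivity)
  refine ⟨hsum, ?_⟩
  set D := ∑' n : ℤ, ‖g (θ + n * δ)‖ ^ β * (1 / (1 + |x - θ - n * δ|) ^ 2) with hD
  have hD0 : 0 ≤ D := tsum_nonneg fun n => by positivity
  have hgn : ∀ n : ℤ, ‖g (θ + n * δ)‖ ≤ D ^ (1 / β) * (1 + |x - θ - n * δ|) ^ M := by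
    intro n
    have h3 : ‖g (θ + n * δ)‖ ^ β * (1 / (1 + |x - θ - n * δ|) ^ 2) ≤ D :=
      hsum.le_tsum n (fun m _ => by positivity)
    have h4 : ‖g (θ + n * δ)‖ ^ β ≤ D * (1 + |x - θ - n * δ|) ^ 2 := by
      rw [mul_one_div, div_le_iff₀ (by positivity)] at h3
      exact h3
    have h5 : (‖g (θ + n * δ)‖ ^ β) ^ (1 / β) ≤ (D * (1 + |x - θ - n * δ|) ^ 2) ^ (1 / β) :=
      Real.rpow_le_rpow (by positivity) h4 (by positivity)
    rw [← Real.rpow_mul (norm_nonneg _), mul_one_div_cancel hβ.ne', Real.rpow_one,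
      Real.mul_rpow hD0 (by positivity)] at h5
    refine h5.trans ?_
    apply mul_le_mul_of_nonneg_left _ (by positivity)
    rw [← Real.rpow_natCast, ← Real.rpow_mul (by positivity), ← Real.rpow_natCast _ M]
    apply Real.rpow_le_rpow_of_exponent_le (by linarith [abs_nonneg (x - θ - n * δ)])
    push_cast
    rw [mul_one_div]
    exact hMβ
  have hterm : ∀ n : ℤ, ‖ψ (x - θ - n * δ)‖ * ‖g (θ + n * δ)‖ ≤
      Cψ * D ^ (1 / β) * (1 / (1 + |x - θ - n * δ|) ^ 2) := by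
    intro n
    have h3 := hdec (x - θ - n * δ)
    set z := 1 + |x - θ - n * δ| with hz
    have hz0 : 0 < z := by rw [hz]; positivity
    have h4 : ‖ψ (x - θ - n * δ)‖ * z ^ M * z ^ 2 ≤ Cψ := by
      rw [mul_assoc, ← pow_add]
      exact h3
    calc ‖ψ (x - θ - n * δ)‖ * ‖g (θ + n * δ)‖ ≤ ‖ψ (x - θ - n * δ)‖ * (D ^ (1 / β) * z ^ M) :=
          mul_le_mul_of_nonneg_left (hgn n) (norm_nonneg _)
      _ = (‖ψ (x - θ - n * δ)‖ * z ^ M * z ^ 2) * D ^ (1 / β) * (1 / z ^ 2) := by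
          field_simp
      _ ≤ Cψ * D ^ (1 / β) * (1 / z ^ 2) := by
          gcongr
  have hs2 : Summable (fun n : ℤ => ‖ψ (x - θ - n * δ)‖ * ‖g (θ + n * δ)‖) :=
    Summable.of_nonneg_of_le (fun n => by positivity) hterm ((hS (x - θ)).1.mul_left _)
  have hsmp := samp h1 h2 hδ hb hC hCψ.le hS hg x θ
  have h5 : ∑' n : ℤ, ‖ψ (x - θ - n * δ)‖ * ‖g (θ + n * δ)‖ ≤ Cψ * D ^ (1 / β) * S := by
    refine (Summable.tsum_le_tsum hterm hs2 ((hS (x - θ)).1.mul_left _)).trans ?_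
    rw [tsum_mul_left]
    exact mul_le_mul_of_nonneg_left (hS _).2 (by positivity)
  have h6 : ‖g x‖ ≤ K₁ * D ^ (1 / β) + (K₁ + 1) * η := by
    have h7 := mul_le_mul_of_nonneg_left h5 hδ.le
    calc ‖g x‖ ≤ _ := hsmp
      _ ≤ δ * (Cψ * D ^ (1 / β) * S) + (δ * (Cψ * S) + 1) * η := by linarith
      _ = _ := by rw [hK₁]; ring
  set p := K₁ * D ^ (1 / β) with hp
  set q := (K₁ + 1) * η with hq
  have hp0 : 0 ≤ p := by positivity
  have hq0 : 0 ≤ q := by positivity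
  have h7 : ‖g x‖ ^ β ≤ 2 ^ β * (p ^ β + q ^ β) := by
    have h8 : ‖g x‖ ≤ 2 * max p q := by
      linarith [le_max_left p q, le_max_right p q]
    calc ‖g x‖ ^ β ≤ (2 * max p q) ^ β := Real.rpow_le_rpow (norm_nonneg _) h8 hβ.le
      _ = 2 ^ β * (max p q) ^ β := Real.mul_rpow (by norm_num) (le_max_of_le_left hp0)
      _ ≤ _ := by
          apply mul_le_mul_of_nonneg_left _ (by positivity)
          rcases le_total p q with h | h
          · rw [max_eq_right h]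
            have : 0 ≤ p ^ β := by positivity
            linarith
          · rw [max_eq_left h]
            have : 0 ≤ q ^ β := by positivity
            linarith
  have h8 : p ^ β = K₁ ^ β * D := by
    rw [hp, Real.mul_rpow hK₁0.le (by positivity), ← Real.rpow_mul hD0, one_div_mul_cancel hβ.ne',
      Real.rpow_one]
  have h9 : q ^ β = (K₁ + 1) ^ β * η ^ β := by
    rw [hq, Real.mul_rpow (by positivity) hη]
  rw [h8, h9] at h7
  refine h7.trans ?_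
  rw [mul_assoc]
  apply mul_le_mul_of_nonneg_left _ (by positivity)
  have h10 : 0 ≤ K₁ ^ β * η ^ β := by positivity
  have h11 : 0 ≤ (K₁ + 1) ^ β * D := by positivity
  nlinarith

end

end Q97.BS
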