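import Pool.Agent.Q97.BS.Brz
import Pool.Agent.Q97.BS.Qdr

set_option autoImplicit false

open MeasureTheory Filter Topology Complex Set
open scoped ENNReal

namespace Q97.BS

open Q97.MM

noncomputable section

/-- the logarithmic derivative of the window -/
def kf (β T U y : ℝ) : ℝ := 2 * (y - T) / (β * U ^ 2)

def kR (β T U y : ℝ) : ℝ := |kf β T U y| ^ β * aR β T U y

/-- the window to the power `1 / β` -/
def wb (β T U y : ℝ) : ℝ := Real.exp (-(((y - T) / U) ^ 2 / β))

theorem wb_pos (β T U y : ℝ) : 0 < wb β T U y := Real.exp_pos _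

theorem wb_pow {β : ℝ} (hβ : 0 < β) (T U y : ℝ) : wb β T U y ^ β = wt T U y := by
  rw [wb, ← Real.exp_mul, wt]
  congr 1
  field_simp

/-- the rotated and windowed function -/
def Gz (β T U y : ℝ) : ℂ :=
  ee (Real.log T / (4 * Real.pi) * y) * (riemannZeta (pt y) * ((wb β T U y : ℝ) : ℂ))

def Gz' (β T U y : ℝ) : ℂ :=
  I * ee (Real.log T / (4 * Real.pi) * y) * ((wb β T U y : ℝ) : ℂ) *
    (hh T y + I * ((kf β T U y : ℝ) : ℂ) * riemannZeta (pt y))

theorem Gz_norm (β T U y : ℝ) : ‖Gz β T U y‖ = ‖riemannZeta (pt y)‖ * wb β T U y := by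
  rw [Gz, norm_mul, ee_norm, one_mul, norm_mul, Complex.norm_real,
    Real.norm_of_nonneg (wb_pos _ _ _ _).le]

theorem Gz_pow {β : ℝ} (hβ : 0 < β) (T U y : ℝ) : ‖Gz β T U y‖ ^ β = aR β T U y := by
  rw [Gz_norm, Real.mul_rpow (norm_nonneg _) (wb_pos _ _ _ _).le, wb_pow hβ, aR]

theorem Gz'_pow {β e C : ℝ} (hβ : 0 < β)
    (hel : ∀ a b : ℝ, 0 ≤ a → 0 ≤ b → (a + b) ^ β ≤ (1 + e) * a ^ β + C * b ^ β) (T U y : ℝ) :
    ‖Gz' β T U y‖ ^ β ≤ (1 + e) * dR β T U y + C * kR β T U y := by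
  have hw := wb_pos β T U y
  have h1 : ‖Gz' β T U y‖ ≤ ‖hh T y‖ * wb β T U y +
      |kf β T U y| * (‖riemannZeta (pt y)‖ * wb β T U y) := by
    rw [Gz', norm_mul, norm_mul, norm_mul, ee_norm, Complex.norm_I, one_mul, one_mul,
      Complex.norm_real, Real.norm_of_nonneg hw.le]
    have h2 := norm_add_le (hh T y) (I * ((kf β T U y : ℝ) : ℂ) * riemannZeta (pt y))
    rw [norm_mul, norm_mul, Complex.norm_I, one_mul, Complex.norm_real, Real.norm_eq_abs] at h2
    calc wb β T U y * ‖hh T y + I * ((kf β T U y : ℝ) : ℂ) * riemannZeta (pt y)‖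
        ≤ wb β T U y * (‖hh T y‖ + |kf β T U y| * ‖riemannZeta (pt y)‖) := by gcongr
      _ = _ := by ring
  refine (Real.rpow_le_rpow (norm_nonneg _) h1 hβ.le).trans ((hel _ _ (by positivity)
    (by positivity)).trans (le_of_eq ?_))
  rw [Real.mul_rpow (norm_nonneg _) hw.le, Real.mul_rpow (abs_nonneg _) (by positivity),
    Real.mul_rpow (norm_nonneg _) hw.le, wb_pow hβ, dR, kR, aR]

theorem Gz_deriv {β T U : ℝ} (hβ : 0 < β) (hU : 0 < U) (y : ℝ) :
    HasDerivAt (Gz β T U) (Gz' β T U y) y := by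
  have hπ := Real.pi_pos
  have h1 : HasDerivAt (fun y : ℝ => ee (Real.log T / (4 * Real.pi) * y))
      (((Real.log T / 2 : ℝ) : ℂ) * I * ee (Real.log T / (4 * Real.pi) * y)) y := by
    refine (ee_deriv (Real.log T / (4 * Real.pi)) y).congr_deriv ?_
    have e0 : 2 * Real.pi * (Real.log T / (4 * Real.pi)) = Real.log T / 2 := by
      field_simp
      ring
    rw [e0]
  have h2 : HasDerivAt (fun y : ℝ => riemannZeta (pt y)) (deriv riemannZeta (pt y) * I) y := by
    have h3 : HasDerivAt (fun y : ℝ => pt y) I y := by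
      unfold pt
      have := ((hasDerivAt_id y).ofReal_comp.mul_const I).const_add (((1 / 2 : ℝ) : ℂ))
      simpa using this
    exact HasDerivAt.comp (h₂ := riemannZeta) (h := fun y : ℝ => pt y) y
      (differentiableAt_riemannZeta (pt_ne y)).hasDerivAt h3
  have h3 : HasDerivAt (fun y : ℝ => ((wb β T U y : ℝ) : ℂ))
      ((-(kf β T U y) * wb β T U y : ℝ) : ℂ) y := by
    apply HasDerivAt.ofReal_comp
    unfold wb kf
    have h4 : HasDerivAt (fun y : ℝ => -(((y - T) / U) ^ 2 / β)) (-(2 * (y - T) / (β * U ^ 2))) y := by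
      have h5 := (((((hasDerivAt_id y).sub_const T).div_const U).pow 2).div_const β).neg
      refine h5.congr_deriv ?_
      have hU' := hU.ne'
      have hβ' := hβ.ne'
      rw [show 2 - 1 = 1 from rfl, pow_one, id]
      push_cast
      field_simp
    refine h4.exp.congr_deriv ?_
    ring
  have h4 := h1.mul (h2.mul h3)
  refine h4.congr_deriv ?_
  unfold Gz' hh
  have hI : I * I = -1 := Complex.I_mul_I
  simp only [Pi.mul_apply]
  push_cast
  linear_combination (-(ee (Real.log T / (4 * Real.pi) * y) * ((wb β T U y : ℝ) : ℂ) *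
    ((kf β T U y : ℝ) : ℂ) * riemannZeta (pt y))) * hI

theorem zpt_cont : Continuous (fun y : ℝ => riemannZeta (pt y)) := zeta_line_cont (by norm_num)

theorem kf_cont (β T U : ℝ) : Continuous (kf β T U) := by unfold kf; fun_prop

theorem Gz'_cont (β T U : ℝ) : Continuous (Gz' β T U) := by
  have h1 := hh_cont T
  have h2 := zpt_cont
  have h3 := ee_continuous
  have h4 := kf_cont β T U
  have h5 : Continuous (wb β T U) := by unfold wb; fun_prop
  unfold Gz'
  fun_prop

theorem kf_bd {β T U : ℝ} (hβ : 1 ≤ β) (hA : Adm T U) (y : ℝ) :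
    |kf β T U y| ≤ 4 * T * (1 + |y|) := by
  have hU := hA.2.1
  have hT := hA.1
  have hU0 : 0 < U := by linarith
  have hb : 0 < β * U ^ 2 := by positivity
  have hb1 : 1 ≤ β * U ^ 2 := by nlinarith
  unfold kf
  rw [abs_div, abs_mul, abs_of_pos (by norm_num : (0 : ℝ) < 2), abs_of_pos hb]
  refine (div_le_self (by positivity) hb1).trans ?_
  have h1 : |y - T| ≤ |y| + T := by
    have := abs_sub y T
    rwa [abs_of_pos (by linarith : 0 < T)] at this
  nlinarith [abs_nonneg y]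

theorem kR_pt_bd {β T U : ℝ} (hβ : 1 ≤ β) (hA : Adm T U) (y : ℝ) :
    |kf β T U y| ^ β * ‖riemannZeta (pt y)‖ ^ β ≤
      (720 * T) ^ β * (1 + |y|) ^ (⌈β⌉₊ + ⌈2 * β⌉₊) := by
  have hβ0 : 0 < β := by linarith
  have hT0 : 0 < T := by linarith [hA.1]
  have h1 : |kf β T U y| ^ β ≤ (4 * T) ^ β * (1 + |y|) ^ ⌈β⌉₊ := by
    calc |kf β T U y| ^ β ≤ (4 * T * (1 + |y|)) ^ β :=
          Real.rpow_le_rpow (abs_nonneg _) (kf_bd hβ hA y) hβ0.le
      _ = (4 * T) ^ β * (1 + |y|) ^ β := Real.mul_rpow (by positivity) (by positivity)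
      _ ≤ _ := by
          rw [← Real.rpow_natCast _ ⌈β⌉₊]
          apply mul_le_mul_of_nonneg_left _ (by positivity)
          exact Real.rpow_le_rpow_of_exponent_le (by linarith [abs_nonneg y]) (Nat.le_ceil _)
  calc |kf β T U y| ^ β * ‖riemannZeta (pt y)‖ ^ β
      ≤ ((4 * T) ^ β * (1 + |y|) ^ ⌈β⌉₊) * (180 ^ β * (1 + |y|) ^ ⌈2 * β⌉₊) :=
        mul_le_mul h1 (aR_bd hβ0 y) (by positivity) (by positivity)
    _ = ((4 * T) ^ β * 180 ^ β) * (1 + |y|) ^ (⌈β⌉₊ + ⌈2 * β⌉₊) := by rw [pow_add]; ring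
    _ = _ := by
        rw [← Real.mul_rpow (by positivity) (by norm_num)]
        congr 2
        ring

theorem kR_nonneg {β T U y : ℝ} : 0 ≤ kR β T U y := mul_nonneg (by positivity) aR_nonneg

theorem kR_cont {β : ℝ} (hβ : 0 < β) (T U : ℝ) : Continuous (kR β T U) :=
  ((kf_cont β T U).abs.rpow_const fun y => Or.inr hβ.le).mul (aR_cont hβ T U)

theorem kR_int {β : ℝ} (hβ : 1 ≤ β) {T U : ℝ} (hA : Adm T U) : Integrable (kR β T U) := by
  have hβ0 : 0 < β := by linarith
  have hT0 : 0 < T := by linarith [hA.1]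
  have h := poly_wt_integrable (⌈β⌉₊ + ⌈2 * β⌉₊) (C₀ := (720 * T) ^ β)
    (p := fun y => |kf β T U y| ^ β * ‖riemannZeta (pt y)‖ ^ β) hA.pos hT0.le hA.le ?_ (fun y => ?_)
  · refine h.congr (Eventually.of_forall fun y => ?_)
    simp only [kR, aR]
    ring
  · exact (((kf_cont β T U).abs.rpow_const fun y => Or.inr hβ0.le).mul
      (zpt_cont.norm.rpow_const fun y => Or.inr hβ0.le)).aestronglyMeasurable
  · rw [abs_of_nonneg (by positivity)]
    exact kR_pt_bd hβ hA y

theorem kR_le {β : ℝ} (hβ : 1 ≤ β) {ϑ : ℝ} (hϑ : 0 < ϑ) :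
    ∀ᶠ T : ℝ in atTop, ∀ U : ℝ, Adm T U → ∀ y : ℝ,
      kR β T U y ≤ (2 * ϑ * Real.log T) ^ β * aR β T U y + tR 3 T y := by
  have hβ0 : 0 < β := by linarith
  filter_upwards [tail (⌈β⌉₊ + ⌈2 * β⌉₊) (3 + ⌈β⌉₊) (720 ^ β) hϑ, eventually_ge_atTop 3] with
    T h1 hT U hA y
  have hT0 : 0 < T := by linarith
  have hL := hA.log
  have hU := hA.2.1
  have hU0 : 0 < U := by linarith
  have hw := wt_pos T U y
  have ha := aR_nonneg (β := β) (T := T) (U := U) (y := y)
  by_cases hy : ϑ * (U * Real.log T) < |y - T|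
  · have h2 := h1 U hA y hy
    have h3 : (720 * T) ^ β ≤ T ^ ⌈β⌉₊ * 720 ^ β := by
      rw [Real.mul_rpow (by norm_num) hT0.le, mul_comm]
      apply mul_le_mul_of_nonneg_right _ (by positivity)
      rw [← Real.rpow_natCast]
      exact Real.rpow_le_rpow_of_exponent_le (by linarith) (Nat.le_ceil _)
    have h4 : kR β T U y ≤ tR 3 T y := by
      calc kR β T U y = (|kf β T U y| ^ β * ‖riemannZeta (pt y)‖ ^ β) * wt T U y := by
            unfold kR aR; ring
        _ ≤ ((720 * T) ^ β * (1 + |y|) ^ (⌈β⌉₊ + ⌈2 * β⌉₊)) * wt T U y :=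
            mul_le_mul_of_nonneg_right (kR_pt_bd hβ hA y) hw.le
        _ ≤ ((T ^ ⌈β⌉₊ * 720 ^ β) * (1 + |y|) ^ (⌈β⌉₊ + ⌈2 * β⌉₊)) * wt T U y := by gcongr
        _ = T ^ ⌈β⌉₊ * (720 ^ β * (1 + |y|) ^ (⌈β⌉₊ + ⌈2 * β⌉₊) * wt T U y) := by ring
        _ ≤ T ^ ⌈β⌉₊ * tR (3 + ⌈β⌉₊) T y := by gcongr
        _ = tR 3 T y := by
            unfold tR
            rw [pow_add]
            field_simp
    have h5 : 0 ≤ (2 * ϑ * Real.log T) ^ β * aR β T U y := by positivity
    linarith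
  · push Not at hy
    have hb : 0 < β * U ^ 2 := by positivity
    have h2 : |kf β T U y| ≤ 2 * ϑ * Real.log T := by
      unfold kf
      rw [abs_div, abs_mul, abs_of_pos (by norm_num : (0 : ℝ) < 2), abs_of_pos hb, div_le_iff₀ hb]
      have h5 : U * 1 ≤ U * (U * β) := by
        apply mul_le_mul_of_nonneg_left _ hU0.le
        nlinarith
      calc 2 * |y - T| ≤ 2 * (ϑ * (U * Real.log T)) := by linarith
        _ = 2 * ϑ * Real.log T * (U * 1) := by ring
        _ ≤ 2 * ϑ * Real.log T * (U * (U * β)) := by gcongr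
        _ = _ := by ring
    have h3 : |kf β T U y| ^ β ≤ (2 * ϑ * Real.log T) ^ β :=
      Real.rpow_le_rpow (abs_nonneg _) h2 hβ0.le
    have ht : 0 ≤ tR 3 T y := by unfold tR; positivity
    have h4 := mul_le_mul_of_nonneg_right h3 ha
    unfold kR
    linarith

/-- Moments by quadrature. -/
theorem quad_zeta {β δ ε : ℝ} (hβ : 1 ≤ β) (hδ : 0 < δ) (hε : 0 < ε) :
    ∀ᶠ T : ℝ in atTop, ∀ U : ℝ, Adm T U → ∀ θ : ℝ,
      |2 * Real.pi * δ / Real.log T *
        ∑' n : ℤ, aR β T U (θ + n * (2 * Real.pi * δ / Real.log T)) - MI β T U| ≤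
        (Real.pi * β * δ / 2 + ε) * MI β T U := by
  have hβ0 : 0 < β := by linarith
  have hπ := Real.pi_pos
  set e : ℝ := min 1 (ε / (Real.pi * δ * (β + 5))) with he
  have he0 : 0 < e := lt_min one_pos (by positivity)
  have he1 : e ≤ 1 := min_le_left _ _
  have he2 : Real.pi * δ * (β + 5) * e ≤ ε := by
    have h1 : e ≤ ε / (Real.pi * δ * (β + 5)) := min_le_right _ _
    rw [le_div_iff₀ (by positivity)] at h1
    linarith
  obtain ⟨C, hC, hel⟩ := elem hβ he0
  -- the parameter of the window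
  obtain ⟨ϑ, hϑ, hϑ1⟩ : ∃ ϑ : ℝ, 0 < ϑ ∧ C * (4 * ϑ) ^ β ≤ e := by
    refine ⟨(e / C) ^ (1 / β) / 4, by positivity, ?_⟩
    have e1 : 4 * ((e / C) ^ (1 / β) / 4) = (e / C) ^ (1 / β) := by ring
    rw [e1, ← Real.rpow_mul (by positivity), one_div, inv_mul_cancel₀ hβ0.ne', Real.rpow_one]
    apply le_of_eq
    field_simp
  obtain ⟨c, hc, hlow⟩ := MI_lower hβ0
  have hsm : Tendsto (fun T : ℝ => (C * 2 ^ β * Real.pi) / T ^ 1) atTop (𝓝 0) :=
    (tendsto_pow_atTop (n := 1) (α := ℝ) (by norm_num)).const_div_atTop _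
  filter_upwards [brn hβ he0, kR_le hβ hϑ, hlow,
    hsm.eventually (gt_mem_nhds (show 0 < e * c by positivity)), eventually_ge_atTop 3] with
    T hbrn hkR hlow hsmall hT U hA θ
  have hT0 : 0 < T := by linarith
  have hL := log_pos' hT
  set L := Real.log T with hLd
  have hL0 : 0 < L := by linarith
  set lam := (1 / 2 + e) * L with hlam
  have hlam0 : 0 < lam := by positivity
  have hMI0 : 0 ≤ MI β T U := integral_nonneg fun y => aR_nonneg
  set H : ℝ → ℝ := fun y => lam * ((β - 1) * aR β T U y +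
    lam ^ (-β) * ((1 + e) * dR β T U y + C * kR β T U y)) with hH
  have iH : Integrable H :=
    (((aR_int hβ0 hA).const_mul _).add ((((dR_int hβ0 hA).const_mul _).add
      ((kR_int hβ hA).const_mul _)).const_mul _)).const_mul _
  have hH0 : ∀ y, 0 ≤ H y := by
    intro y
    have h1 := aR_nonneg (β := β) (T := T) (U := U) (y := y)
    have h2 := dR_nonneg (β := β) (T := T) (U := U) (y := y)
    have h3 := kR_nonneg (β := β) (T := T) (U := U) (y := y)
    have h4 : 0 ≤ β - 1 := by linarith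
    rw [hH]
    positivity
  have hGc' := Gz'_cont β T U
  have hGc : Continuous (Gz β T U) :=
    continuous_iff_continuousAt.2 fun y => (Gz_deriv hβ0 hA.pos y).continuousAt
  have hvar : ∀ a b : ℝ, a ≤ b → |aR β T U b - aR β T U a| ≤ ∫ y in a..b, H y := by
    intro a b hab
    have h1 := tv hβ (fun y => Gz_deriv (T := T) hβ0 hA.pos y) hGc' hab
    rw [Gz_pow hβ0, Gz_pow hβ0] at h1
    refine h1.trans (intervalIntegral.integral_mono_on hab ?_ iH.intervalIntegrable fun y _ => ?_)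
    · exact (continuous_const.mul ((hGc.norm.rpow_const fun y => Or.inr (by linarith)).mul
        hGc'.norm)).intervalIntegrable _ _
    · have h2 := young hβ (norm_nonneg (Gz β T U y)) (show 0 ≤ ‖Gz' β T U y‖ / lam by positivity)
      rw [Gz_pow hβ0, Real.div_rpow (norm_nonneg _) hlam0.le] at h2
      have h3 := mul_le_mul_of_nonneg_left h2 hlam0.le
      have h4 := Gz'_pow hβ0 hel T U y
      have h5 : ‖Gz' β T U y‖ ^ β / lam ^ β ≤
          lam ^ (-β) * ((1 + e) * dR β T U y + C * kR β T U y) := by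
        rw [Real.rpow_neg hlam0.le, div_eq_inv_mul]
        gcongr
      have e1 : lam * (β * (‖Gz β T U y‖ ^ (β - 1) * (‖Gz' β T U y‖ / lam))) =
          β * (‖Gz β T U y‖ ^ (β - 1) * ‖Gz' β T U y‖) := by
        field_simp
      rw [e1] at h3
      refine h3.trans ?_
      rw [hH]
      simp only
      gcongr
  have hη : 0 < 2 * Real.pi * δ / L := by positivity
  obtain ⟨-, hq⟩ := quad (aR_cont hβ0 T U) (aR_int hβ0 hA) iH hH0 hvar hη θ
  refine hq.trans ?_
  -- the integral of the variation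
  have hKI : ∫ y, kR β T U y ≤ (2 * ϑ * L) ^ β * MI β T U + Real.pi / T ^ 3 := by
    obtain ⟨t1, t2⟩ := tR_int 3 hT0
    have i2 := aR_int hβ0 hA
    have h3 := integral_mono (kR_int hβ hA) ((i2.const_mul ((2 * ϑ * L) ^ β)).add t1) (hkR U hA)
    have h4 := integral_add (i2.const_mul ((2 * ϑ * L) ^ β)) t1
    rw [integral_const_mul] at h4
    have h5 := h3.trans (le_of_eq h4)
    unfold MI
    linarith
  have hIH : ∫ y, H y = lam * ((β - 1) * MI β T U + lam ^ (-β) * ((1 + e) * DI β T U +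
      C * ∫ y, kR β T U y)) := by
    have j1 := (aR_int hβ0 hA).const_mul (β - 1)
    have j2 := (dR_int hβ0 hA).const_mul (1 + e)
    have j3 := (kR_int hβ hA).const_mul C
    rw [hH, integral_const_mul]
    congr 1
    have a1 := integral_add j1 ((j2.add j3).const_mul (lam ^ (-β)))
    have a2 := integral_add j2 j3
    have a1' : ∫ y, ((β - 1) * aR β T U y + lam ^ (-β) * ((1 + e) * dR β T U y +
        C * kR β T U y)) = (∫ y, (β - 1) * aR β T U y) + ∫ y, lam ^ (-β) * ((1 + e) * dR β T U y +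
        C * kR β T U y) := a1
    rw [a1', integral_const_mul, integral_const_mul, integral_add j2 j3, integral_const_mul,
      integral_const_mul]
    rfl
  have hD := hbrn U hA
  have hlL : lam ^ (-β) * ((1 / 2 + e) * L) ^ β = 1 := by
    rw [← hlam, ← Real.rpow_add hlam0, neg_add_cancel, Real.rpow_zero]
  have hl1 : lam ^ (-β) * (2 * ϑ * L) ^ β ≤ (4 * ϑ) ^ β := by
    rw [Real.rpow_neg hlam0.le, ← div_eq_inv_mul, ← Real.div_rpow (by positivity) hlam0.le]
    apply Real.rpow_le_rpow (by positivity) _ hβ0.le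
    rw [div_le_iff₀ hlam0, hlam]
    have : 0 ≤ ϑ * e * L := by positivity
    nlinarith
  have hl2 : lam ^ (-β) ≤ 2 ^ β := by
    rw [Real.rpow_neg hlam0.le, ← Real.inv_rpow hlam0.le]
    apply Real.rpow_le_rpow (by positivity) _ hβ0.le
    rw [inv_le_comm₀ hlam0 (by norm_num), hlam]
    nlinarith
  have hsm2 : C * (2 ^ β * (Real.pi / T ^ 3)) ≤ e * MI β T U := by
    have e2 : C * (2 ^ β * (Real.pi / T ^ 3)) = (C * 2 ^ β * Real.pi) / T ^ 1 / T ^ 2 := by
      field_simp
    rw [e2]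
    calc (C * 2 ^ β * Real.pi) / T ^ 1 / T ^ 2 ≤ (e * c) / T ^ 2 := by gcongr
      _ = e * (c / T ^ 2) := by ring
      _ ≤ _ := by
          have := hlow U hA
          gcongr
  have hl0 : 0 < lam ^ (-β) := by positivity
  have hfin : ∫ y, H y ≤ lam * ((β + 3 * e) * MI β T U) := by
    rw [hIH]
    apply mul_le_mul_of_nonneg_left _ hlam0.le
    have k1 : lam ^ (-β) * ((1 + e) * DI β T U) ≤ (1 + e) * MI β T U := by
      calc lam ^ (-β) * ((1 + e) * DI β T U) ≤
          lam ^ (-β) * ((1 + e) * (((1 / 2 + e) * L) ^ β * MI β T U)) := by gcongr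
        _ = (1 + e) * (lam ^ (-β) * ((1 / 2 + e) * L) ^ β) * MI β T U := by ring
        _ = _ := by rw [hlL, mul_one]
    have k2 : lam ^ (-β) * (C * ∫ y, kR β T U y) ≤ e * MI β T U + e * MI β T U := by
      calc lam ^ (-β) * (C * ∫ y, kR β T U y) ≤
          lam ^ (-β) * (C * ((2 * ϑ * L) ^ β * MI β T U + Real.pi / T ^ 3)) := by gcongr
        _ = C * (lam ^ (-β) * (2 * ϑ * L) ^ β) * MI β T U + C * (lam ^ (-β) * (Real.pi / T ^ 3)) := by
            ring
        _ ≤ C * (4 * ϑ) ^ β * MI β T U + C * (2 ^ β * (Real.pi / T ^ 3)) := by gcongr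
        _ ≤ e * MI β T U + e * MI β T U := by
            gcongr
    calc (β - 1) * MI β T U + lam ^ (-β) * ((1 + e) * DI β T U + C * ∫ y, kR β T U y)
        = (β - 1) * MI β T U + lam ^ (-β) * ((1 + e) * DI β T U) +
            lam ^ (-β) * (C * ∫ y, kR β T U y) := by ring
      _ ≤ (β - 1) * MI β T U + (1 + e) * MI β T U + (e * MI β T U + e * MI β T U) := by
          linarith
      _ = _ := by ring
  calc 2 * Real.pi * δ / L / 2 * ∫ y, H y ≤ 2 * Real.pi * δ / L / 2 *
        (lam * ((β + 3 * e) * MI β T U)) := by gcongr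
    _ = (Real.pi * δ * (1 / 2 + e) * (β + 3 * e)) * MI β T U := by
        rw [hlam]
        field_simp
    _ ≤ _ := by
        apply mul_le_mul_of_nonneg_right _ hMI0
        have h1 : Real.pi * δ * (1 / 2 + e) * (β + 3 * e) =
            Real.pi * β * δ / 2 + Real.pi * δ * e * (β + 3 / 2 + 3 * e) := by ring
        rw [h1]
        have h2 : Real.pi * δ * e * (β + 3 / 2 + 3 * e) ≤ Real.pi * δ * e * (β + 5) := by
          have h3 : 0 ≤ Real.pi * δ * e := by positivity
          apply mul_le_mul_of_nonneg_left _ h3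
          linarith
        linarith

end

end Q97.BS
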