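import Pool.Agent.Q97.BS.Enn

set_option autoImplicit false

open MeasureTheory Filter Topology Complex Set FourierTransform
open scoped ENNReal

namespace Q97.BS

noncomputable section

theorem cos_sum {x : ℝ} (hx : x ∈ Icc (0 : ℝ) 1) :
    HasSum (fun n : ℕ => 1 / (n : ℝ) ^ 2 * Real.cos (2 * Real.pi * n * x))
      (Real.pi ^ 2 * (x ^ 2 - x + 1 / 6)) := by
  have h := hasSum_one_div_nat_pow_mul_cos (k := 1) one_ne_zero hx
  have e : Polynomial.eval x (Polynomial.map (algebraMap ℚ ℝ) (Polynomial.bernoulli (2 * 1))) =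
      x ^ 2 - x + 1 / 6 := by
    have h1 : Polynomial.bernoulli (2 * 1) =
        Polynomial.X ^ 2 - Polynomial.X + Polynomial.C (1 / 6 : ℚ) := by
      simp only [Polynomial.bernoulli, mul_one, Finset.sum_range_succ, Finset.sum_range_zero]
      norm_num [bernoulli_zero, bernoulli_one, bernoulli_two, Polynomial.monomial_zero_left,
        ← Polynomial.C_mul_X_pow_eq_monomial]
      ring
    rw [h1]
    simp
  rw [e] at h
  have e2 : (-1 : ℝ) ^ (1 + 1) * (2 * Real.pi) ^ (2 * 1) / 2 / ((2 * 1).factorial : ℝ) *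
      (x ^ 2 - x + 1 / 6) = Real.pi ^ 2 * (x ^ 2 - x + 1 / 6) := by
    have e3 : ((2 * 1).factorial : ℝ) = 2 := by norm_num [Nat.factorial]
    rw [e3]
    ring
  rw [e2] at h
  simpa only [mul_one] using h

theorem tri {y : ℝ} (hy : |y| ≤ Real.pi / 2) :
    HasSum (fun k : ℕ => 1 / (2 * (k : ℝ) + 1) ^ 2 * ((-1) ^ k * Real.sin ((2 * k + 1) * y)))
      (Real.pi * y / 4) := by
  have hπ := Real.pi_pos
  obtain ⟨hy1, hy2⟩ := abs_le.mp hy
  set x : ℝ := 1 / 4 - y / (2 * Real.pi) with hx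
  have hq1 : y / (2 * Real.pi) ≤ 1 / 4 := by
    rw [div_le_iff₀ (by positivity)]; linarith
  have hq2 : -(1 / 4) ≤ y / (2 * Real.pi) := by
    rw [le_div_iff₀ (by positivity)]; linarith
  have hx1 : x ∈ Icc (0 : ℝ) 1 := ⟨by rw [hx]; linarith, by rw [hx]; linarith⟩
  have hx2 : 2 * x ∈ Icc (0 : ℝ) 1 := ⟨by rw [hx]; linarith, by rw [hx]; linarith⟩
  have h1 := cos_sum hx1
  have h2 := (cos_sum hx2).mul_left (1 / 4)
  set f : ℕ → ℝ := fun n => 1 / (n : ℝ) ^ 2 * Real.cos (2 * Real.pi * n * x) with hf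
  have h3 : HasSum (fun k : ℕ => f (2 * k)) (1 / 4 * (Real.pi ^ 2 * ((2 * x) ^ 2 - 2 * x + 1 / 6))) := by
    have e : (fun k : ℕ => f (2 * k)) =
        fun k : ℕ => 1 / 4 * (1 / (k : ℝ) ^ 2 * Real.cos (2 * Real.pi * k * (2 * x))) := by
      funext k
      simp only [hf]
      push_cast
      have e1 : 2 * Real.pi * (2 * (k : ℝ)) * x = 2 * Real.pi * k * (2 * x) := by ring
      rw [e1, mul_pow]
      rcases eq_or_ne (k : ℝ) 0 with h | h
      · rw [h]; norm_num
      · field_simp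
        norm_num
        ring
    rw [e]
    exact h2
  have h4 : Summable (fun k : ℕ => f (2 * k + 1)) := by
    have hs : Summable (fun n : ℕ => 1 / (n : ℝ) ^ 2) := Real.summable_one_div_nat_pow.mpr (by norm_num)
    have hs2 : Summable (fun k : ℕ => 1 / ((2 * k + 1 : ℕ) : ℝ) ^ 2) :=
      hs.comp_injective (i := fun k : ℕ => 2 * k + 1) (fun a b h => by simpa using h)
    refine Summable.of_norm_bounded hs2 (fun k => ?_)
    simp only [hf]
    rw [norm_mul, Real.norm_of_nonneg (by positivity)]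
    exact mul_le_of_le_one_right (by positivity) (Real.abs_cos_le_one _)
  have h5 := h3.even_add_odd h4.hasSum
  have h6 := h5.unique h1
  have h7 : HasSum (fun k : ℕ => f (2 * k + 1)) (Real.pi * y / 4) := by
    have e : ∑' k : ℕ, f (2 * k + 1) = Real.pi * y / 4 := by
      have e1 : Real.pi * y / 4 = Real.pi ^ 2 * (x ^ 2 - x + 1 / 6) -
          1 / 4 * (Real.pi ^ 2 * ((2 * x) ^ 2 - 2 * x + 1 / 6)) := by
        rw [hx]
        field_simp
        ring
      rw [e1, ← h6]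
      ring
    rw [← e]
    exact h4.hasSum
  have e : (fun k : ℕ => 1 / (2 * (k : ℝ) + 1) ^ 2 * ((-1) ^ k * Real.sin ((2 * k + 1) * y))) =
      fun k : ℕ => f (2 * k + 1) := by
    funext k
    simp only [hf]
    push_cast
    congr 1
    have e1 : 2 * Real.pi * (2 * (k : ℝ) + 1) * x = (Real.pi / 2 - (2 * k + 1) * y) + k * Real.pi := by
      rw [hx]
      field_simp
      ring
    rw [e1, Real.cos_add_nat_mul_pi, Real.cos_pi_div_two_sub]
  rw [e]
  exact h7

theorem odd_sum : HasSum (fun k : ℕ => 1 / (2 * (k : ℝ) + 1) ^ 2) (Real.pi ^ 2 / 8) := by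
  have h := tri (y := Real.pi / 2) (by rw [abs_of_pos (by positivity)])
  have e : (fun k : ℕ => 1 / (2 * (k : ℝ) + 1) ^ 2 *
      ((-1) ^ k * Real.sin ((2 * k + 1) * (Real.pi / 2)))) =
      fun k : ℕ => 1 / (2 * (k : ℝ) + 1) ^ 2 := by
    funext k
    have e1 : (2 * (k : ℝ) + 1) * (Real.pi / 2) = Real.pi / 2 + k * Real.pi := by ring
    rw [e1, Real.sin_add_nat_mul_pi, Real.sin_pi_div_two, mul_one, ← mul_pow]
    norm_num
  rw [e] at h
  convert h using 1
  ring

/-- the weights of the interpolation formula -/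
def cw (b : ℝ) (k : ℕ) : ℝ := 8 * b / Real.pi * (1 / (2 * (k : ℝ) + 1) ^ 2)

/-- the nodes of the interpolation formula -/
def nd (b : ℝ) (k : ℕ) : ℝ := (2 * (k : ℝ) + 1) / (4 * b)

theorem cw_nonneg {b : ℝ} (hb : 0 < b) (k : ℕ) : 0 ≤ cw b k := by
  unfold cw
  have := Real.pi_pos
  positivity

theorem cw_sum {b : ℝ} : HasSum (fun k => 2 * cw b k) (2 * Real.pi * b) := by
  have h := odd_sum.mul_left (16 * b / Real.pi)
  have e : 16 * b / Real.pi * (Real.pi ^ 2 / 8) = 2 * Real.pi * b := by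
    have := Real.pi_pos
    field_simp
    ring
  rw [e] at h
  have e2 : (fun k => 2 * cw b k) = fun k : ℕ => 16 * b / Real.pi * (1 / (2 * (k : ℝ) + 1) ^ 2) := by
    funext k
    unfold cw
    ring
  rw [e2]
  exact h

theorem mult_sum {b : ℝ} (hb : 0 < b) {ξ : ℝ} (hξ : |ξ| ≤ b) :
    HasSum (fun k => 2 * cw b k * ((-1) ^ k * Real.sin (2 * Real.pi * ξ * nd b k)))
      (2 * Real.pi * ξ) := by
  have hπ := Real.pi_pos
  have h := (tri (y := Real.pi * ξ / (2 * b)) (by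
    rw [abs_div, abs_mul, abs_of_pos hπ, abs_of_pos (by positivity : 0 < 2 * b),
      div_le_div_iff₀ (by positivity) (by norm_num)]
    nlinarith)).mul_left (16 * b / Real.pi)
  have e : 16 * b / Real.pi * (Real.pi * (Real.pi * ξ / (2 * b)) / 4) = 2 * Real.pi * ξ := by
    field_simp
    ring
  rw [e] at h
  have e2 : (fun k => 2 * cw b k * ((-1) ^ k * Real.sin (2 * Real.pi * ξ * nd b k))) =
      fun k : ℕ => 16 * b / Real.pi * (1 / (2 * (k : ℝ) + 1) ^ 2 *
        ((-1) ^ k * Real.sin ((2 * k + 1) * (Real.pi * ξ / (2 * b))))) := by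
    funext k
    have e3 : 2 * Real.pi * ξ * nd b k = (2 * k + 1) * (Real.pi * ξ / (2 * b)) := by
      unfold nd
      field_simp
      ring
    rw [e3]
    unfold cw
    ring
  rw [e2]
  exact h

/-- the multiplier of the truncated interpolation formula -/
def mm (b : ℝ) (K : ℕ) (ξ : ℝ) : ℝ :=
  2 * Real.pi * ξ - ∑ k ∈ Finset.range K, 2 * cw b k *
    ((-1) ^ k * Real.sin (2 * Real.pi * ξ * nd b k))

theorem sin_le (k : ℕ) (z : ℝ) : |(-1 : ℝ) ^ k * Real.sin z| ≤ 1 := by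
  rw [abs_mul, abs_pow, abs_neg, abs_one, one_pow, one_mul]
  exact Real.abs_sin_le_one z

theorem mm_in {b : ℝ} (hb : 0 < b) (K : ℕ) {ξ : ℝ} (hξ : |ξ| ≤ b) :
    |mm b K ξ| ≤ 2 * Real.pi * b - ∑ k ∈ Finset.range K, 2 * cw b k := by
  set f : ℕ → ℝ := fun k => 2 * cw b k * ((-1) ^ k * Real.sin (2 * Real.pi * ξ * nd b k)) with hf
  have h1 : HasSum f (2 * Real.pi * ξ) := mult_sum hb hξ
  have h2 := (hasSum_nat_add_iff' K).mpr h1
  have h3 := (hasSum_nat_add_iff' K).mpr (cw_sum (b := b))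
  have h4 : mm b K ξ = ∑' k, f (k + K) := by
    rw [h2.tsum_eq]
    rfl
  rw [h4, ← h3.tsum_eq, ← Real.norm_eq_abs]
  have hle : ∀ k, ‖f (k + K)‖ ≤ 2 * cw b (k + K) := by
    intro k
    simp only [hf]
    rw [Real.norm_eq_abs, abs_mul, abs_of_nonneg (by have := cw_nonneg hb (k + K); positivity)]
    exact mul_le_of_le_one_right (by have := cw_nonneg hb (k + K); positivity) (sin_le _ _)
  exact tsum_of_norm_bounded h3.summable.hasSum hle

theorem cw_partial {b : ℝ} (hb : 0 < b) (K : ℕ) :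
    ∑ k ∈ Finset.range K, 2 * cw b k ≤ 2 * Real.pi * b :=
  sum_le_hasSum _ (fun k _ => by have := cw_nonneg hb k; positivity) cw_sum

theorem mm_out {b : ℝ} (hb : 0 < b) (K : ℕ) (ξ : ℝ) :
    |mm b K ξ| ≤ (2 * Real.pi + 2 * Real.pi * b) * (1 + |ξ|) := by
  have hπ := Real.pi_pos
  unfold mm
  refine (abs_sub _ _).trans ?_
  have h1 : |∑ k ∈ Finset.range K, 2 * cw b k * ((-1) ^ k * Real.sin (2 * Real.pi * ξ * nd b k))| ≤
      2 * Real.pi * b := by
    refine (Finset.abs_sum_le_sum_abs _ _).trans (le_trans (Finset.sum_le_sum fun k _ => ?_)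
      (cw_partial hb K))
    rw [abs_mul, abs_of_nonneg (by have := cw_nonneg hb k; positivity)]
    exact mul_le_of_le_one_right (by have := cw_nonneg hb k; positivity) (sin_le _ _)
  rw [abs_mul, abs_of_pos (by positivity : 0 < 2 * Real.pi)]
  nlinarith [abs_nonneg ξ, mul_nonneg (mul_nonneg hπ.le hb.le) (abs_nonneg ξ)]

/-- the derivative -/
def dg (g : ℝ → ℂ) (x : ℝ) : ℂ := ∫ ξ, ((2 * Real.pi * ξ : ℝ) : ℂ) * I * (ee (ξ * x) * 𝓕 g ξ)

theorem ee_deriv (ξ x : ℝ) :
    HasDerivAt (fun x : ℝ => ee (ξ * x)) (((2 * Real.pi * ξ : ℝ) : ℂ) * I * ee (ξ * x)) x := by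
  unfold ee
  have h1 : HasDerivAt (fun x : ℝ => ((2 * Real.pi * (ξ * x) : ℝ) : ℂ) * I)
      (((2 * Real.pi * ξ : ℝ) : ℂ) * I) x := by
    have h2 : HasDerivAt (fun x : ℝ => 2 * Real.pi * (ξ * x)) (2 * Real.pi * ξ) x := by
      have := ((hasDerivAt_id x).const_mul ξ).const_mul (2 * Real.pi)
      simpa using this
    exact h2.ofReal_comp.mul_const I
  exact h1.cexp.congr_deriv (mul_comm _ _)

theorem hasDeriv_dg {g : ℝ → ℂ} {b η : ℝ} (hg : Band g b η)
    (hi : Integrable (fun ξ => (1 + |ξ|) * ‖𝓕 g ξ‖)) (x : ℝ) : HasDerivAt g (dg g x) x := by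
  have hπ := Real.pi_pos
  have h := hasDerivAt_integral_of_dominated_loc_of_deriv_le (μ := (volume : Measure ℝ)) (x₀ := x)
    (s := Metric.ball x 1) (F := fun x ξ => ee (ξ * x) * 𝓕 g ξ)
    (F' := fun x ξ => ((2 * Real.pi * ξ : ℝ) : ℂ) * I * (ee (ξ * x) * 𝓕 g ξ))
    (bound := fun ξ => 2 * Real.pi * ((1 + |ξ|) * ‖𝓕 g ξ‖)) (Metric.ball_mem_nhds x one_pos)
    (Eventually.of_forall fun z => by
      have := ee_continuous
      exact (Continuous.aestronglyMeasurable (by fun_prop)).mul hg.fint.aestronglyMeasurable)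
    (by
      refine hg.fint.norm.mono' ?_ (Eventually.of_forall fun ξ => ?_)
      · have := ee_continuous
        exact (Continuous.aestronglyMeasurable (by fun_prop)).mul hg.fint.aestronglyMeasurable
      · rw [norm_mul, ee_norm, one_mul])
    (by
      have := ee_continuous
      refine (Continuous.aestronglyMeasurable (by fun_prop)).mul
        ((Continuous.aestronglyMeasurable (by fun_prop)).mul hg.fint.aestronglyMeasurable))
    (Eventually.of_forall fun ξ z _ => by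
      rw [norm_mul, norm_mul, norm_mul, ee_norm, Complex.norm_I, mul_one, one_mul, Complex.norm_real,
        Real.norm_eq_abs, abs_mul, abs_of_pos (by positivity : 0 < 2 * Real.pi), mul_assoc]
      have := norm_nonneg (𝓕 g ξ)
      gcongr
      linarith)
    (hi.const_mul _)
    (Eventually.of_forall fun ξ z _ => by
      have := (ee_deriv ξ z).mul_const (𝓕 g ξ)
      refine this.congr_deriv ?_
      ring)
  have h2 := h.2
  have e : (fun x => ∫ ξ, ee (ξ * x) * 𝓕 g ξ) = g := by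
    funext z
    exact (hg.inv z).symm
  rw [e] at h2
  exact h2

/-- The truncated interpolation formula of M. Riesz. -/
theorem riesz {g : ℝ → ℂ} {b η η₁ : ℝ} (hb : 0 < b) (hg : Band g b η)
    (hi : Integrable (fun ξ => (1 + |ξ|) * ‖𝓕 g ξ‖))
    (hη : ∫ ξ in {ξ : ℝ | b < |ξ|}, (1 + |ξ|) * ‖𝓕 g ξ‖ ≤ η₁) {e : ℝ} (he : 0 < e) :
    ∃ K : ℕ, ∀ x : ℝ, ‖dg g x‖ ≤ ∑ k ∈ Finset.range K, cw b k *
      (‖g (x + nd b k)‖ + ‖g (x - nd b k)‖) + ((2 * Real.pi + 2 * Real.pi * b) * η₁ + e) := by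
  have hπ := Real.pi_pos
  set B := ∫ ξ, ‖𝓕 g ξ‖ with hB
  have hB0 : 0 ≤ B := integral_nonneg fun ξ => norm_nonneg _
  have h1 := (cw_sum (b := b)).tendsto_sum_nat
  have h2 : Tendsto (fun K => (2 * Real.pi * b - ∑ k ∈ Finset.range K, 2 * cw b k) * B) atTop
      (𝓝 0) := by
    have h3 := (tendsto_const_nhds (x := 2 * Real.pi * b)).sub h1
    rw [sub_self] at h3
    have h4 := h3.mul_const B
    rwa [zero_mul] at h4
  obtain ⟨K, hK⟩ := (h2.eventually (gt_mem_nhds he)).exists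
  refine ⟨K, fun x => ?_⟩
  have hcI : ∀ z : ℝ, Integrable (fun ξ => ee (ξ * z) * 𝓕 g ξ) := by
    intro z
    refine hg.fint.norm.mono' ?_ (Eventually.of_forall fun ξ => ?_)
    · have := ee_continuous
      exact (Continuous.aestronglyMeasurable (by fun_prop)).mul hg.fint.aestronglyMeasurable
    · rw [norm_mul, ee_norm, one_mul]
  have hdI : Integrable (fun ξ => ((2 * Real.pi * ξ : ℝ) : ℂ) * I * (ee (ξ * x) * 𝓕 g ξ)) := by
    refine (hi.const_mul (2 * Real.pi)).mono' ?_ (Eventually.of_forall fun ξ => ?_)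
    · have := ee_continuous
      exact (Continuous.aestronglyMeasurable (by fun_prop)).mul
        ((Continuous.aestronglyMeasurable (by fun_prop)).mul hg.fint.aestronglyMeasurable)
    · rw [norm_mul, norm_mul, norm_mul, ee_norm, Complex.norm_I, mul_one, one_mul, Complex.norm_real,
        Real.norm_eq_abs, abs_mul, abs_of_pos (by positivity : 0 < 2 * Real.pi), mul_assoc]
      have := norm_nonneg (𝓕 g ξ)
      gcongr
      linarith
  have hsin : ∀ ξ k : ℝ, ee (ξ * (x + k)) - ee (ξ * (x - k)) =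
      2 * I * (Real.sin (2 * Real.pi * ξ * k) : ℂ) * ee (ξ * x) := by
    intro ξ k
    have e1 : ee (ξ * (x + k)) = ee (ξ * k) * ee (ξ * x) := by
      rw [← ee_add]; congr 1; ring
    have e2 : ee (ξ * (x - k)) = ee (-(ξ * k)) * ee (ξ * x) := by
      rw [← ee_add]; congr 1; ring
    have e3 : ee (ξ * k) - ee (-(ξ * k)) = 2 * I * (Real.sin (2 * Real.pi * ξ * k) : ℂ) := by
      unfold ee
      rw [Complex.exp_mul_I, Complex.exp_mul_I]
      have e4 : ((2 * Real.pi * (-(ξ * k)) : ℝ) : ℂ) = -((2 * Real.pi * (ξ * k) : ℝ) : ℂ) := by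
        push_cast; ring
      rw [e4, Complex.cos_neg, Complex.sin_neg]
      have e5 : 2 * Real.pi * ξ * k = 2 * Real.pi * (ξ * k) := by ring
      rw [e5, Complex.ofReal_sin]
      ring
    rw [e1, e2, ← sub_mul, e3]
  have hrep : dg g x - ∑ k ∈ Finset.range K, (cw b k : ℂ) * ((-1) ^ k *
      (g (x + nd b k) - g (x - nd b k))) =
      ∫ ξ, I * ((mm b K ξ : ℝ) : ℂ) * (ee (ξ * x) * 𝓕 g ξ) := by
    have e1 : ∀ k : ℕ, (cw b k : ℂ) * ((-1) ^ k * (g (x + nd b k) - g (x - nd b k))) =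
        ∫ ξ, (cw b k : ℂ) * ((-1) ^ k * (ee (ξ * (x + nd b k)) * 𝓕 g ξ -
          ee (ξ * (x - nd b k)) * 𝓕 g ξ)) := by
      intro k
      rw [integral_const_mul, integral_const_mul, integral_sub (hcI _) (hcI _), ← hg.inv, ← hg.inv]
    simp_rw [e1]
    have hkI : ∀ k : ℕ, Integrable (fun ξ => (cw b k : ℂ) * ((-1) ^ k *
        (ee (ξ * (x + nd b k)) * 𝓕 g ξ - ee (ξ * (x - nd b k)) * 𝓕 g ξ))) := fun k =>
      (((hcI _).sub (hcI _)).const_mul _).const_mul _
    rw [← integral_finsetSum _ (fun k _ => hkI k)]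
    rw [dg, ← integral_sub hdI (integrable_finsetSum _ fun k _ => hkI k)]
    refine integral_congr_ae (Eventually.of_forall fun ξ => ?_)
    simp only
    have e2 : ∀ k : ℕ, (cw b k : ℂ) * ((-1) ^ k * (ee (ξ * (x + nd b k)) * 𝓕 g ξ -
          ee (ξ * (x - nd b k)) * 𝓕 g ξ)) =
        I * ((2 * cw b k * ((-1) ^ k * Real.sin (2 * Real.pi * ξ * nd b k)) : ℝ) : ℂ) *
          (ee (ξ * x) * 𝓕 g ξ) := by
      intro k
      rw [← sub_mul, hsin]
      push_cast
      ring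
    simp_rw [e2]
    rw [← Finset.sum_mul, ← Finset.mul_sum, ← Complex.ofReal_sum]
    unfold mm
    push_cast
    ring
  have hm : MeasurableSet {ξ : ℝ | b < |ξ|} := measurableSet_lt measurable_const measurable_norm
  set R := 2 * Real.pi * b - ∑ k ∈ Finset.range K, 2 * cw b k with hR
  have hR0 : 0 ≤ R := by
    have := cw_partial hb K
    rw [hR]; linarith
  set σ := 2 * Real.pi + 2 * Real.pi * b with hσ
  have hσ0 : 0 ≤ σ := by positivity
  have hbd : ∀ ξ, ‖I * ((mm b K ξ : ℝ) : ℂ) * (ee (ξ * x) * 𝓕 g ξ)‖ ≤ R * ‖𝓕 g ξ‖ +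
      {ξ : ℝ | b < |ξ|}.indicator (fun ξ => σ * ((1 + |ξ|) * ‖𝓕 g ξ‖)) ξ := by
    intro ξ
    rw [norm_mul, norm_mul, norm_mul, ee_norm, Complex.norm_I, one_mul, one_mul, Complex.norm_real,
      Real.norm_eq_abs]
    by_cases h : b < |ξ|
    · rw [indicator_of_mem (show ξ ∈ {ξ : ℝ | b < |ξ|} from h), ← mul_assoc]
      have h3 := mul_le_mul_of_nonneg_right (mm_out hb K ξ) (norm_nonneg (𝓕 g ξ))
      have h4 : 0 ≤ R * ‖𝓕 g ξ‖ := by positivity
      linarith
    · rw [indicator_of_notMem (show ξ ∉ {ξ : ℝ | b < |ξ|} from h), add_zero]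
      exact mul_le_mul_of_nonneg_right (mm_in hb K (not_lt.mp h)) (norm_nonneg _)
  have hIbd : Integrable (fun ξ => R * ‖𝓕 g ξ‖ +
      {ξ : ℝ | b < |ξ|}.indicator (fun ξ => σ * ((1 + |ξ|) * ‖𝓕 g ξ‖)) ξ) :=
    (hg.fint.norm.const_mul R).add ((hi.const_mul σ).indicator hm)
  have hfin := norm_integral_le_of_norm_le hIbd (Eventually.of_forall hbd)
  rw [integral_add (hg.fint.norm.const_mul R) ((hi.const_mul σ).indicator hm),
    integral_indicator hm, integral_const_mul, integral_const_mul, ← hrep] at hfin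
  have h5 : ‖∑ k ∈ Finset.range K, (cw b k : ℂ) * ((-1) ^ k *
      (g (x + nd b k) - g (x - nd b k)))‖ ≤ ∑ k ∈ Finset.range K, cw b k *
      (‖g (x + nd b k)‖ + ‖g (x - nd b k)‖) := by
    refine (norm_sum_le _ _).trans (Finset.sum_le_sum fun k _ => ?_)
    rw [norm_mul, norm_mul, norm_pow, norm_neg, norm_one, one_pow, one_mul, Complex.norm_real,
      Real.norm_of_nonneg (cw_nonneg hb k)]
    exact mul_le_mul_of_nonneg_left (norm_sub_le _ _) (cw_nonneg hb k)
  have h6 := norm_sub_norm_le (dg g x) (∑ k ∈ Finset.range K, (cw b k : ℂ) * ((-1) ^ k *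
      (g (x + nd b k) - g (x - nd b k))))
  have h7 : σ * ∫ ξ in {ξ : ℝ | b < |ξ|}, (1 + |ξ|) * ‖𝓕 g ξ‖ ≤ σ * η₁ :=
    mul_le_mul_of_nonneg_left hη hσ0
  linarith

end

end Q97.BS
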