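import Pool.Agent.Q97.BS.Trf

set_option autoImplicit false

open MeasureTheory Filter Topology Complex Set
open scoped ENNReal

namespace Q97.BS

open Q97.MM

noncomputable section

theorem V_adm {β : ℝ} (hβ : 0 < β) : ∀ᶠ T : ℝ in atTop, ∀ U : ℝ, Adm T U →
    √(β / 2) ≤ U * √(β / 2) ∧ U * √(β / 2) ≤ T := by
  have h1 := Real.tendsto_log_atTop.eventually (eventually_ge_atTop √(β / 2))
  filter_upwards [h1] with T h1 U hA
  have hs : 0 < √(β / 2) := Real.sqrt_pos.2 (by positivity)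
  have hL := hA.log
  constructor
  · have := hA.2.1
    nlinarith
  · have h2 := hA.2.2
    rw [le_div_iff₀ (by linarith)] at h2
    calc U * √(β / 2) ≤ U * Real.log T := mul_le_mul_of_nonneg_left h1 hA.pos.le
      _ ≤ T := h2

theorem A_eq {β : ℝ} (hβ : 0 < β) {T U : ℝ} (hA : Adm T U) :
    ∫⁻ x, ‖gg T (U * √(β / 2)) x‖ₑ ^ β = ENNReal.ofReal (Real.log T / (2 * Real.pi) * PI β T U) := by
  have hT0 : 0 < T := by linarith [hA.1]
  have hL := hA.log
  have hπ := Real.pi_pos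
  set ρ := 2 * Real.pi / Real.log T with hρ
  have hρ0 : 0 < ρ := by positivity
  have h1 : ∀ x, ‖gg T (U * √(β / 2)) x‖ₑ ^ β = ENNReal.ofReal (pR β T U (T + ρ * x)) := by
    intro x
    rw [enorm_rpow hβ, gg_pow hβ hT0 hA.pos]
  simp_rw [h1]
  have hi : Integrable (fun x => pR β T U (T + ρ * x)) :=
    ((pR_int hβ hA).comp_add_left T).comp_mul_left' hρ0.ne'
  rw [← ofReal_integral_eq_lintegral_ofReal hi (Eventually.of_forall fun x => pR_nonneg hT0)]
  congr 1
  have h2 := Measure.integral_comp_mul_left (fun w : ℝ => pR β T U (T + w)) ρ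
  rw [h2, integral_add_left_eq_self (pR β T U) T, abs_of_pos (inv_pos.mpr hρ0), smul_eq_mul, PI, hρ]
  field_simp

theorem to_real {f : ℤ → ℝ} (hf : ∀ n, 0 ≤ f n) {R : ℝ} (hR : 0 ≤ R)
    (h : ∑' n, ENNReal.ofReal (f n) ≤ ENNReal.ofReal R) : Summable f ∧ ∑' n, f n ≤ R := by
  have h1 : ∑' n, ENNReal.ofReal (f n) ≠ ∞ := ne_top_of_le_ne_top ENNReal.ofReal_ne_top h
  have h2 : Summable f := by
    have := ENNReal.summable_toReal h1
    refine this.congr fun n => ?_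
    rw [ENNReal.toReal_ofReal (hf n)]
  refine ⟨h2, ?_⟩
  rw [← ENNReal.ofReal_tsum_of_nonneg hf h2] at h
  exact (ENNReal.ofReal_le_ofReal_iff hR).mp h

theorem tR_sum (D : ℕ) {δ : ℝ} (hδ : 0 < δ) : ∃ S : ℝ, 0 < S ∧ ∀ T : ℝ, 3 ≤ T → ∀ x₀ : ℝ,
    ∑' n : ℤ, ENNReal.ofReal (tR (D + 2) T (T + 2 * Real.pi / Real.log T * (x₀ + n * δ))) ≤
      ENNReal.ofReal (S / T ^ D) := by
  obtain ⟨S, hS0, hS⟩ := sum_decay hδ
  refine ⟨S, hS0, fun T hT x₀ => ?_⟩
  have hT0 : 0 < T := by linarith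
  have hL := log_pos' hT
  have hπ := Real.pi_gt_three
  have hLT : Real.log T ≤ T := (Real.log_le_sub_one_of_pos hT0).trans (by linarith)
  set L := Real.log T with hLd
  have hL0 : 0 < L := by linarith
  have h1 : ∀ n : ℤ, tR (D + 2) T (T + 2 * Real.pi / L * (x₀ + n * δ)) ≤
      1 / T ^ D * (1 / (1 + |(-x₀) - n * δ|) ^ 2) := by
    intro n
    unfold tR
    have e1 : T + 2 * Real.pi / L * (x₀ + n * δ) - T = 2 * Real.pi / L * (x₀ + n * δ) := by ring
    have e2 : |(-x₀) - n * δ| = |x₀ + n * δ| := by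
      rw [← abs_neg]; congr 1; ring
    rw [e1, e2, abs_mul, abs_of_pos (by positivity : 0 < 2 * Real.pi / L)]
    set z := |x₀ + n * δ| with hz
    have hz0 : 0 ≤ z := abs_nonneg _
    have h2 : 1 + z ≤ T * (1 + 2 * Real.pi / L * z) := by
      have h3 : L * (1 + 2 * Real.pi / L * z) ≤ T * (1 + 2 * Real.pi / L * z) :=
        mul_le_mul_of_nonneg_right hLT (by positivity)
      have h4 : L * (1 + 2 * Real.pi / L * z) = L + 2 * Real.pi * z := by field_simp
      rw [h4] at h3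
      nlinarith
    have h3 : (1 + z) ^ 2 ≤ (T * (1 + 2 * Real.pi / L * z)) ^ 2 :=
      pow_le_pow_left₀ (by positivity) h2 2
    have h4 : 1 / T ^ D * (1 / (1 + z) ^ 2) = 1 / (T ^ D * (1 + z) ^ 2) := by field_simp
    rw [h4]
    apply one_div_le_one_div_of_le (by positivity)
    calc T ^ D * (1 + z) ^ 2 ≤ T ^ D * (T * (1 + 2 * Real.pi / L * z)) ^ 2 := by gcongr
      _ = _ := by rw [pow_add]; ring
  refine (ENNReal.tsum_le_tsum fun n => ENNReal.ofReal_le_ofReal (h1 n)).trans ?_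
  rw [← ENNReal.ofReal_tsum_of_nonneg (fun n => by positivity) ((hS (-x₀)).1.mul_left _),
    tsum_mul_left]
  apply ENNReal.ofReal_le_ofReal
  calc 1 / T ^ D * ∑' n : ℤ, 1 / (1 + |(-x₀) - n * δ|) ^ 2 ≤ 1 / T ^ D * S := by
        gcongr
        exact (hS (-x₀)).2
    _ = _ := by ring

theorem sub_int {T : ℝ} (hT : 3 ≤ T) (D : ℕ) (E : Set ℝ) :
    ∫⁻ x in E, ENNReal.ofReal (tR D T (T + 2 * Real.pi / Real.log T * x)) ≤
      ENNReal.ofReal (Real.log T / (2 * Real.pi) * (Real.pi / T ^ D)) := by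
  have hT0 : 0 < T := by linarith
  have hL := log_pos' hT
  have hπ := Real.pi_pos
  set ρ := 2 * Real.pi / Real.log T with hρ
  have hρ0 : 0 < ρ := by positivity
  obtain ⟨h1, h2⟩ := tR_int D hT0
  refine (setLIntegral_le_lintegral _ _).trans ?_
  have hi : Integrable (fun x => tR D T (T + ρ * x)) := (h1.comp_add_left T).comp_mul_left' hρ0.ne'
  rw [← ofReal_integral_eq_lintegral_ofReal hi (Eventually.of_forall fun x => by
    show 0 ≤ tR D T (T + ρ * x)
    unfold tR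
    positivity)]
  apply ENNReal.ofReal_le_ofReal
  have h3 := Measure.integral_comp_mul_left (fun w : ℝ => tR D T (T + w)) ρ
  rw [h3, integral_add_left_eq_self (tR D T) T, abs_of_pos (inv_pos.mpr hρ0), smul_eq_mul]
  have e : ρ⁻¹ = Real.log T / (2 * Real.pi) := by rw [hρ]; field_simp
  rw [e]
  gcongr

theorem half_pow {β : ℝ} (hβ : 0 < β) : (1 + 2 * (1 / 4 : ℝ)) ^ β ≤ 2 ^ β ∧
    (1 / (1 - 2 * (1 / 4 : ℝ))) ^ β ≤ 2 ^ β := by
  constructor
  · exact Real.rpow_le_rpow (by norm_num) (by norm_num) hβ.le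
  · apply le_of_eq
    norm_num

/-- comparison of the two moments -/
theorem PI_MI {β : ℝ} (hβ : 0 < β) (D : ℕ) : ∀ᶠ T : ℝ in atTop, ∀ U : ℝ, Adm T U →
    PI β T U ≤ 2 ^ β * MI β T U + Real.pi / T ^ D ∧ MI β T U ≤ 2 ^ β * PI β T U + Real.pi / T ^ D := by
  filter_upwards [cmp hβ D (ϑ := 1 / 4) (by norm_num) le_rfl, eventually_ge_atTop 3] with T h1 hT U hA
  have hT0 : 0 < T := by linarith
  obtain ⟨hp1, hp2⟩ := half_pow hβ
  obtain ⟨t1, t2⟩ := tR_int D hT0
  have i1 := pR_int hβ hA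
  have i2 := aR_int hβ hA
  constructor
  · have h2 : ∀ y, pR β T U y ≤ 2 ^ β * aR β T U y + tR D T y := fun y =>
      (h1 U hA y).1.trans (by
        have := mul_le_mul_of_nonneg_right hp1 (aR_nonneg (β := β) (T := T) (U := U) (y := y))
        linarith)
    have h3 := integral_mono i1 ((i2.const_mul (2 ^ β)).add t1) h2
    have h4 := integral_add (i2.const_mul (2 ^ β)) t1
    rw [integral_const_mul] at h4
    have h5 := h3.trans (le_of_eq h4)
    unfold PI MI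
    linarith
  · have h2 : ∀ y, aR β T U y ≤ 2 ^ β * pR β T U y + tR D T y := fun y =>
      (h1 U hA y).2.trans (by
        have := mul_le_mul_of_nonneg_right hp2 (pR_nonneg (β := β) (U := U) (y := y) hT0)
        linarith)
    have h3 := integral_mono i2 ((i1.const_mul (2 ^ β)).add t1) h2
    have h4 := integral_add (i1.const_mul (2 ^ β)) t1
    rw [integral_const_mul] at h4
    have h5 := h3.trans (le_of_eq h4)
    unfold PI MI
    linarith

theorem MI_lower {β : ℝ} (hβ : 0 < β) : ∃ c : ℝ, 0 < c ∧ ∀ᶠ T : ℝ in atTop, ∀ U : ℝ, Adm T U →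
    c / T ^ 2 ≤ MI β T U := by
  obtain ⟨c, hc, h1⟩ := PI_lower hβ
  have hsm : Tendsto (fun T : ℝ => Real.pi / T ^ 1) atTop (𝓝 0) :=
    (tendsto_pow_atTop (n := 1) (α := ℝ) (by norm_num)).const_div_atTop _
  refine ⟨c / 2 / 2 ^ β, by positivity, ?_⟩
  filter_upwards [h1, PI_MI hβ 3, hsm.eventually (gt_mem_nhds (half_pos hc)), eventually_ge_atTop 3]
    with T h1 h2 h3 hT U hA
  have hT0 : 0 < T := by linarith
  have a1 := h1 U hA
  have a2 := (h2 U hA).1
  have a3 : Real.pi / T ^ 3 ≤ c / 2 / T ^ 2 := by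
    have e : Real.pi / T ^ 3 = Real.pi / T ^ 1 / T ^ 2 := by field_simp
    rw [e]
    gcongr
  have a4 : c / 2 / T ^ 2 ≤ 2 ^ β * MI β T U := by
    have e : c / T ^ 2 = c / 2 / T ^ 2 + c / 2 / T ^ 2 := by ring
    linarith
  have h2β : (0 : ℝ) < 2 ^ β := by positivity
  calc c / 2 / 2 ^ β / T ^ 2 = (c / 2 / T ^ 2) / 2 ^ β := by ring
    _ ≤ _ := by
        rw [div_le_iff₀ h2β, mul_comm]
        exact a4

/-- The upper sampling inequality for zeta. -/
theorem sam_upper {β δ : ℝ} (hβ : 0 < β) (hδ : 0 < δ) : ∃ C : ℝ, 0 < C ∧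
    ∀ᶠ T : ℝ in atTop, ∀ U : ℝ, Adm T U → ∀ θ : ℝ,
      Summable (fun n : ℤ => aR β T U (θ + n * (2 * Real.pi * δ / Real.log T))) ∧
      2 * Real.pi * δ / Real.log T *
        ∑' n : ℤ, aR β T U (θ + n * (2 * Real.pi * δ / Real.log T)) ≤ C * MI β T U := by
  obtain ⟨C₁, hC₁, hup⟩ := upper_e (b := 3 / 5) (b' := 7 / 10) (δ := 1 / 2) (by norm_num) (by norm_num)
    (by norm_num) (by norm_num) hβ hδ
  obtain ⟨S, hS, htR⟩ := tR_sum 3 hδ
  obtain ⟨K, hK, hband⟩ := gg_band (b := 3 / 5) (by norm_num) ⌈7 / β⌉₊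
    (v₀ := √(β / 2)) (Real.sqrt_pos.2 (by positivity))
  obtain ⟨c, hc, hlow⟩ := MI_lower hβ
  refine ⟨2 * Real.pi * δ * (2 ^ β * C₁ * (1 / (2 * Real.pi)) * 2 ^ β + 1), by positivity, ?_⟩
  have hsm : Tendsto (fun T : ℝ => (2 ^ β * C₁ * (1 / 2 + 4 * K ^ β) + 2 ^ β * S + S) / T ^ 1) atTop
      (𝓝 0) :=
    (tendsto_pow_atTop (n := 1) (α := ℝ) (by norm_num)).const_div_atTop _
  filter_upwards [V_adm hβ, cmp hβ 5 (ϑ := 1 / 4) (by norm_num) le_rfl, pR_tail hβ 5 (ϑ := 1 / 4)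
    (by norm_num), hlow, PI_MI hβ 4, hsm.eventually (gt_mem_nhds hc), eventually_ge_atTop 3] with
    T hV hcmp htl hlo hPM hsmall hT U hA θ
  have hT0 : 0 < T := by linarith
  have hL := log_pos' hT
  have hπ := Real.pi_gt_three
  have hLT : Real.log T ≤ T := (Real.log_le_sub_one_of_pos hT0).trans (by linarith)
  have hUL : U * Real.log T ≤ T := by
    have := hA.2.2
    rwa [le_div_iff₀ (by linarith)] at this
  set L := Real.log T with hLd
  have hL0 : 0 < L := by linarith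
  set g := gg T (U * √(β / 2)) with hg
  obtain ⟨hbnd, -⟩ := hband T _ hT (hV U hA).1 (hV U hA).2
  obtain ⟨hp1, hp2⟩ := half_pow hβ
  set x₀ := (θ - T) * L / (2 * Real.pi) with hx₀
  have hy : ∀ n : ℤ, θ + n * (2 * Real.pi * δ / L) = T + 2 * Real.pi / L * (x₀ + n * δ) := by
    intro n
    rw [hx₀]
    field_simp
    ring
  set Y := T * L with hY
  have hY0 : 0 < Y := by positivity
  have hterm : ∀ n : ℤ, ENNReal.ofReal (aR β T U (θ + n * (2 * Real.pi * δ / L))) ≤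
      ENNReal.ofReal (2 ^ β) * ({x : ℝ | |x| ≤ Y}.indicator (fun x => ‖g x‖ₑ ^ β)) (x₀ + n * δ) +
      ENNReal.ofReal (2 ^ β + 1) *
        ENNReal.ofReal (tR 5 T (T + 2 * Real.pi / L * (x₀ + n * δ))) := by
    intro n
    rw [hy n]
    set x := x₀ + n * δ with hx
    set y := T + 2 * Real.pi / L * x with hyd
    have ht0 : 0 ≤ tR 5 T y := by unfold tR; positivity
    have h1 : aR β T U y ≤ 2 ^ β * pR β T U y + tR 5 T y :=
      (hcmp U hA y).2.trans (by
        have := mul_le_mul_of_nonneg_right hp2 (pR_nonneg (β := β) (U := U) (y := y) hT0)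
        linarith)
    by_cases hxY : |x| ≤ Y
    · rw [indicator_of_mem (show x ∈ {x : ℝ | |x| ≤ Y} from hxY), hg, enorm_rpow hβ,
        gg_pow hβ hT0 hA.pos, ← ENNReal.ofReal_mul (by positivity), ← ENNReal.ofReal_mul (by positivity),
        ← ENNReal.ofReal_add (mul_nonneg (by positivity) (pR_nonneg hT0)) (by positivity)]
      apply ENNReal.ofReal_le_ofReal
      have h2 : 0 ≤ 2 ^ β * tR 5 T y := by positivity
      have h3 : (2 ^ β + 1) * tR 5 T y = 2 ^ β * tR 5 T y + tR 5 T y := by ring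
      rw [h3]
      linarith
    · rw [indicator_of_notMem (show x ∉ {x : ℝ | |x| ≤ Y} from hxY), mul_zero, zero_add,
        ← ENNReal.ofReal_mul (by positivity)]
      apply ENNReal.ofReal_le_ofReal
      push Not at hxY
      have h2 : 1 / 4 * (U * L) < |y - T| := by
        have e : y - T = 2 * Real.pi / L * x := by rw [hyd]; ring
        rw [e, abs_mul, abs_of_pos (by positivity : 0 < 2 * Real.pi / L)]
        have h3 : 2 * Real.pi / L * Y < 2 * Real.pi / L * |x| :=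
          mul_lt_mul_of_pos_left hxY (by positivity)
        have h4 : 2 * Real.pi / L * Y = 2 * Real.pi * T := by rw [hY]; field_simp
        nlinarith
      have h3 := htl U hA y h2
      have h4 : 2 ^ β * pR β T U y ≤ 2 ^ β * tR 5 T y := by gcongr
      linarith
  have hsum := ENNReal.tsum_le_tsum hterm
  rw [ENNReal.tsum_add, ENNReal.tsum_mul_left, ENNReal.tsum_mul_left] at hsum
  have hu := hup g _ hbnd x₀ Y hY0.le
  rw [hg, A_eq hβ hA, ← hg] at hu
  have hPI0 : 0 ≤ PI β T U := integral_nonneg fun y => pR_nonneg hT0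
  have hMI0 : 0 ≤ MI β T U := integral_nonneg fun y => aR_nonneg
  -- the error
  have hη : (1 + Y) ^ 2 * (K / T ^ ⌈7 / β⌉₊) ^ β ≤ 4 * K ^ β / T ^ 3 := by
    have h1 : (K / T ^ ⌈7 / β⌉₊) ^ β ≤ K ^ β / T ^ 7 := by
      rw [Real.div_rpow hK.le (by positivity)]
      apply div_le_div_of_nonneg_left (by positivity) (by positivity)
      rw [← Real.rpow_natCast, ← Real.rpow_natCast, ← Real.rpow_mul hT0.le]
      apply Real.rpow_le_rpow_of_exponent_le (by linarith)
      have := Nat.le_ceil (7 / β)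
      rw [div_le_iff₀ hβ] at this
      exact_mod_cast this
    have h2 : (1 + Y) ^ 2 ≤ 4 * T ^ 4 := by
      have h3 : 1 + Y ≤ 2 * T ^ 2 := by
        have : Y ≤ T * T := mul_le_mul_of_nonneg_left hLT hT0.le
        nlinarith
      calc (1 + Y) ^ 2 ≤ (2 * T ^ 2) ^ 2 := pow_le_pow_left₀ (by positivity) h3 2
        _ = _ := by ring
    calc (1 + Y) ^ 2 * (K / T ^ ⌈7 / β⌉₊) ^ β ≤ (4 * T ^ 4) * (K ^ β / T ^ 7) := by gcongr
      _ = _ := by field_simp
  have hu' : ∑' n : ℤ, ({x : ℝ | |x| ≤ Y}.indicator (fun x => ‖g x‖ₑ ^ β)) (x₀ + n * δ) ≤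
      ENNReal.ofReal (C₁ * (L / (2 * Real.pi) * PI β T U + 4 * K ^ β / T ^ 3)) := by
    refine hu.trans ?_
    rw [← ENNReal.ofReal_add (by positivity) (by positivity), ← ENNReal.ofReal_mul hC₁.le]
    apply ENNReal.ofReal_le_ofReal
    gcongr
  have hfin : ∑' n : ℤ, ENNReal.ofReal (aR β T U (θ + n * (2 * Real.pi * δ / L))) ≤
      ENNReal.ofReal (2 ^ β * (C₁ * (L / (2 * Real.pi) * PI β T U + 4 * K ^ β / T ^ 3)) +
        (2 ^ β + 1) * (S / T ^ 3)) := by
    refine hsum.trans (le_trans (add_le_add (mul_le_mul_right hu' _)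
      (mul_le_mul_right (htR T hT x₀) _)) (le_of_eq ?_))
    rw [← ENNReal.ofReal_mul (by positivity), ← ENNReal.ofReal_mul (by positivity),
      ← ENNReal.ofReal_add (by positivity) (by positivity)]
  obtain ⟨hs1, hs2⟩ := to_real (fun n => aR_nonneg) (by positivity) hfin
  refine ⟨hs1, ?_⟩
  have a1 := (hPM U hA).1
  have a2 := hlo U hA
  have a3 : (2 ^ β * C₁ * (1 / 2 + 4 * K ^ β) + 2 ^ β * S + S) / T ^ 3 ≤ MI β T U := by
    have e : (2 ^ β * C₁ * (1 / 2 + 4 * K ^ β) + 2 ^ β * S + S) / T ^ 3 =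
      (2 ^ β * C₁ * (1 / 2 + 4 * K ^ β) + 2 ^ β * S + S) / T ^ 1 / T ^ 2 := by field_simp
    rw [e]
    refine le_trans ?_ a2
    gcongr
  have a4 : 2 ^ β * (C₁ * (L / (2 * Real.pi) * PI β T U + 4 * K ^ β / T ^ 3)) +
        (2 ^ β + 1) * (S / T ^ 3) ≤
      L * ((2 ^ β * C₁ * (1 / (2 * Real.pi)) * 2 ^ β + 1) * MI β T U) := by
    have b1 : L / (2 * Real.pi) * PI β T U ≤
        L / (2 * Real.pi) * (2 ^ β * MI β T U) + 1 / 2 / T ^ 3 := by
      have b2 : L / (2 * Real.pi) * PI β T U ≤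
          L / (2 * Real.pi) * (2 ^ β * MI β T U + Real.pi / T ^ 4) := by gcongr
      have b3 : L / (2 * Real.pi) * (Real.pi / T ^ 4) ≤ 1 / 2 / T ^ 3 := by
        have e : L / (2 * Real.pi) * (Real.pi / T ^ 4) = (L / T) * (1 / 2 / T ^ 3) := by field_simp
        rw [e]
        have : L / T ≤ 1 := by rw [div_le_one hT0]; exact hLT
        exact mul_le_of_le_one_left (by positivity) this
      linarith
    calc 2 ^ β * (C₁ * (L / (2 * Real.pi) * PI β T U + 4 * K ^ β / T ^ 3)) +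
          (2 ^ β + 1) * (S / T ^ 3)
        ≤ 2 ^ β * (C₁ * (L / (2 * Real.pi) * (2 ^ β * MI β T U) + 1 / 2 / T ^ 3 +
            4 * K ^ β / T ^ 3)) + (2 ^ β + 1) * (S / T ^ 3) := by gcongr
      _ = L * (2 ^ β * C₁ * (1 / (2 * Real.pi)) * 2 ^ β * MI β T U) +
            (2 ^ β * C₁ * (1 / 2 + 4 * K ^ β) + 2 ^ β * S + S) / T ^ 3 := by
          field_simp
          ring
      _ ≤ L * (2 ^ β * C₁ * (1 / (2 * Real.pi)) * 2 ^ β * MI β T U) + L * MI β T U := by
          have : MI β T U ≤ L * MI β T U := by nlinarith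
          linarith
      _ = _ := by ring
  calc 2 * Real.pi * δ / L * ∑' n : ℤ, aR β T U (θ + n * (2 * Real.pi * δ / L))
      ≤ 2 * Real.pi * δ / L * (L * ((2 ^ β * C₁ * (1 / (2 * Real.pi)) * 2 ^ β + 1) * MI β T U)) := by
        gcongr
        exact hs2.trans a4
    _ = _ := by field_simp

/-- The lower sampling inequality for zeta, for every step below the critical one. -/
theorem sam_lower {β δ : ℝ} (hβ : 0 < β) (hδ : 0 < δ) (hδ1 : δ < 1) : ∃ C : ℝ, 0 < C ∧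
    ∀ᶠ T : ℝ in atTop, ∀ U : ℝ, Adm T U → ∀ θ : ℝ,
      MI β T U ≤ C * (2 * Real.pi * δ / Real.log T *
        ∑' n : ℤ, aR β T U (θ + n * (2 * Real.pi * δ / Real.log T))) := by
  set ε : ℝ := (1 / δ - 1) / 3 with hε
  have hε0 : 0 < ε := by
    have : 1 < 1 / δ := by rw [lt_div_iff₀ hδ]; linarith
    rw [hε]; linarith
  obtain ⟨C₁, hC₁, hlw⟩ := lower_e (b := 1 / 2 + ε) (b' := 1 / 2 + 2 * ε) (δ := δ) (by positivity)
    (by linarith) hδ (by rw [hε]; linarith) hβ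
  obtain ⟨S, hS, htR⟩ := tR_sum 3 hδ
  obtain ⟨K, hK, hband⟩ := gg_band (b := 1 / 2 + ε) (by linarith) ⌈6 / β⌉₊
    (v₀ := √(β / 2)) (Real.sqrt_pos.2 (by positivity))
  obtain ⟨c, hc, hlow⟩ := MI_lower hβ
  obtain ⟨C₀, hC₀, hup⟩ := sam_upper hβ hδ
  refine ⟨2 * (2 ^ β * C₁ * 2 ^ β / δ), by positivity, ?_⟩
  set Q : ℝ := 2 * Real.pi * (2 ^ β * (C₁ * (S + 2 * K ^ β))) + 2 ^ β * Real.pi + Real.pi with hQ
  have hQ0 : 0 < Q := by have := Real.pi_pos; positivity
  have hsm : Tendsto (fun T : ℝ => Q / T ^ 1) atTop (𝓝 0) :=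
    (tendsto_pow_atTop (n := 1) (α := ℝ) (by norm_num)).const_div_atTop _
  filter_upwards [V_adm hβ, cmp hβ 5 (ϑ := 1 / 4) (by norm_num) le_rfl, pR_tail hβ 5 (ϑ := 1 / 4)
    (by norm_num), hlow, PI_MI hβ 3, hsm.eventually (gt_mem_nhds (half_pos hc)), eventually_ge_atTop 3,
    hup] with T hV hcmp htl hlo hPM hsmall hT hup U hA θ
  have hT0 : 0 < T := by linarith
  have hL := log_pos' hT
  have hπ := Real.pi_gt_three
  have hLT : Real.log T ≤ T := (Real.log_le_sub_one_of_pos hT0).trans (by linarith)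
  have hUL : U * Real.log T ≤ T := by
    have := hA.2.2
    rwa [le_div_iff₀ (by linarith)] at this
  obtain ⟨hsumm, -⟩ := hup U hA θ
  set L := Real.log T with hLd
  have hL0 : 0 < L := by linarith
  set g := gg T (U * √(β / 2)) with hg
  obtain ⟨hbnd, -⟩ := hband T _ hT (hV U hA).1 (hV U hA).2
  obtain ⟨hp1, hp2⟩ := half_pow hβ
  set x₀ := (θ - T) * L / (2 * Real.pi) with hx₀
  have hy : ∀ n : ℤ, θ + n * (2 * Real.pi * δ / L) = T + 2 * Real.pi / L * (x₀ + n * δ) := by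
    intro n
    rw [hx₀]
    field_simp
    ring
  set Y := T * L with hY
  have hY0 : 0 < Y := by positivity
  set Sg := ∑' n : ℤ, aR β T U (θ + n * (2 * Real.pi * δ / L)) with hSg
  have hSg0 : 0 ≤ Sg := tsum_nonneg fun n => aR_nonneg
  -- the sum of the scaled function
  have h1 : ∑' n : ℤ, ‖g (x₀ + n * δ)‖ₑ ^ β ≤ ENNReal.ofReal (2 ^ β * Sg + S / T ^ 3) := by
    have hterm : ∀ n : ℤ, ‖g (x₀ + n * δ)‖ₑ ^ β ≤
        ENNReal.ofReal (2 ^ β * aR β T U (θ + n * (2 * Real.pi * δ / L))) +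
          ENNReal.ofReal (tR 5 T (T + 2 * Real.pi / L * (x₀ + n * δ))) := by
      intro n
      rw [hy n, hg, enorm_rpow hβ, gg_pow hβ hT0 hA.pos]
      set y := T + 2 * Real.pi / L * (x₀ + n * δ) with hyd
      have ht0 : 0 ≤ tR 5 T y := by unfold tR; positivity
      rw [← ENNReal.ofReal_add (mul_nonneg (by positivity) aR_nonneg) ht0]
      apply ENNReal.ofReal_le_ofReal
      exact (hcmp U hA y).1.trans (by
        have := mul_le_mul_of_nonneg_right hp1 (aR_nonneg (β := β) (T := T) (U := U) (y := y))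
        linarith)
    refine (ENNReal.tsum_le_tsum hterm).trans ?_
    rw [ENNReal.tsum_add, ← ENNReal.ofReal_tsum_of_nonneg
      (fun n => mul_nonneg (by positivity) aR_nonneg) (hsumm.mul_left _), tsum_mul_left,
      ENNReal.ofReal_add (by positivity) (by positivity)]
    exact add_le_add le_rfl (htR T hT x₀)
  -- the integral
  have h2 : ENNReal.ofReal (L / (2 * Real.pi) * PI β T U) ≤
      ENNReal.ofReal (C₁ * ((2 ^ β * Sg + S / T ^ 3) + 2 * Y * (K / T ^ ⌈6 / β⌉₊) ^ β) +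
        L / (2 * Real.pi) * (Real.pi / T ^ 5)) := by
    rw [← A_eq hβ hA, ← hg, ← lintegral_add_compl _ (measurableSet_Icc (a := -Y) (b := Y)),
      ENNReal.ofReal_add (by positivity) (by positivity)]
    apply add_le_add
    · refine (hlw g _ hbnd x₀ (Icc (-Y) Y)).trans ?_
      rw [ENNReal.ofReal_mul hC₁.le]
      apply mul_le_mul_right
      rw [ENNReal.ofReal_add (by positivity) (by positivity), Real.volume_Icc,
        ENNReal.ofReal_mul (by positivity)]
      apply add_le_add h1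
      apply le_of_eq
      congr 2
      ring
    · refine le_trans (setLIntegral_mono' measurableSet_Icc.compl fun x hx => ?_) (sub_int hT 5 _)
      rw [hg, enorm_rpow hβ, gg_pow hβ hT0 hA.pos]
      apply ENNReal.ofReal_le_ofReal
      apply htl U hA
      have hxY : Y < |x| := by
        by_contra hcon
        push Not at hcon
        exact hx (abs_le.mp hcon)
      have e : T + 2 * Real.pi / L * x - T = 2 * Real.pi / L * x := by ring
      rw [e, abs_mul, abs_of_pos (by positivity : 0 < 2 * Real.pi / L)]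
      have h3 : 2 * Real.pi / L * Y < 2 * Real.pi / L * |x| :=
        mul_lt_mul_of_pos_left hxY (by positivity)
      have h4 : 2 * Real.pi / L * Y = 2 * Real.pi * T := by rw [hY]; field_simp
      nlinarith
  have hη : 2 * Y * (K / T ^ ⌈6 / β⌉₊) ^ β ≤ 2 * K ^ β / T ^ 3 := by
    have h1 : (K / T ^ ⌈6 / β⌉₊) ^ β ≤ K ^ β / T ^ 6 := by
      rw [Real.div_rpow hK.le (by positivity)]
      apply div_le_div_of_nonneg_left (by positivity) (by positivity)
      rw [← Real.rpow_natCast, ← Real.rpow_natCast, ← Real.rpow_mul hT0.le]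
      apply Real.rpow_le_rpow_of_exponent_le (by linarith)
      have := Nat.le_ceil (6 / β)
      rw [div_le_iff₀ hβ] at this
      exact_mod_cast this
    have h2 : Y ≤ T ^ 3 := by
      have h3 : Y ≤ T * T := mul_le_mul_of_nonneg_left hLT hT0.le
      nlinarith
    calc 2 * Y * (K / T ^ ⌈6 / β⌉₊) ^ β ≤ 2 * T ^ 3 * (K ^ β / T ^ 6) := by gcongr
      _ = _ := by field_simp
  have h3 : L / (2 * Real.pi) * PI β T U ≤
      C₁ * (2 ^ β * Sg) + C₁ * (S + 2 * K ^ β) / T ^ 3 + L / (2 * Real.pi) * (Real.pi / T ^ 5) := by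
    have h4 := (ENNReal.ofReal_le_ofReal_iff (by positivity)).mp h2
    refine h4.trans ?_
    have h5 : C₁ * ((2 ^ β * Sg + S / T ^ 3) + 2 * Y * (K / T ^ ⌈6 / β⌉₊) ^ β) ≤
        C₁ * ((2 ^ β * Sg + S / T ^ 3) + 2 * K ^ β / T ^ 3) := by gcongr
    have h6 : C₁ * ((2 ^ β * Sg + S / T ^ 3) + 2 * K ^ β / T ^ 3) =
        C₁ * (2 ^ β * Sg) + C₁ * (S + 2 * K ^ β) / T ^ 3 := by ring
    linarith
  have h4 : PI β T U ≤ 2 * Real.pi / L * (C₁ * (2 ^ β * Sg)) +
      2 * Real.pi * (C₁ * (S + 2 * K ^ β)) / T ^ 3 + Real.pi / T ^ 3 := by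
    have h5 : PI β T U = 2 * Real.pi / L * (L / (2 * Real.pi) * PI β T U) := by field_simp
    rw [h5]
    have h6 := mul_le_mul_of_nonneg_left h3 (show 0 ≤ 2 * Real.pi / L by positivity)
    refine h6.trans ?_
    have e1 : 2 * Real.pi / L * (C₁ * (2 ^ β * Sg) + C₁ * (S + 2 * K ^ β) / T ^ 3 +
        L / (2 * Real.pi) * (Real.pi / T ^ 5)) = 2 * Real.pi / L * (C₁ * (2 ^ β * Sg)) +
        (1 / L) * (2 * Real.pi * (C₁ * (S + 2 * K ^ β)) / T ^ 3) + (1 / T ^ 2) * (Real.pi / T ^ 3) := by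
      field_simp
    rw [e1]
    have h7 : (1 / L) * (2 * Real.pi * (C₁ * (S + 2 * K ^ β)) / T ^ 3) ≤
        2 * Real.pi * (C₁ * (S + 2 * K ^ β)) / T ^ 3 := by
      apply mul_le_of_le_one_left (by positivity)
      rw [div_le_one hL0]
      exact hL
    have h8 : (1 / T ^ 2) * (Real.pi / T ^ 3) ≤ Real.pi / T ^ 3 := by
      apply mul_le_of_le_one_left (by positivity)
      rw [div_le_one (by positivity)]
      nlinarith
    linarith
  have h5 := (hPM U hA).2
  have h6 := hlo U hA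
  have h7 : MI β T U ≤ 2 ^ β * (2 * Real.pi / L * (C₁ * (2 ^ β * Sg))) + Q / T ^ 3 := by
    have h8 : 2 ^ β * PI β T U ≤ 2 ^ β * (2 * Real.pi / L * (C₁ * (2 ^ β * Sg)) +
      2 * Real.pi * (C₁ * (S + 2 * K ^ β)) / T ^ 3 + Real.pi / T ^ 3) := by gcongr
    have h9 : Q / T ^ 3 = 2 ^ β * (2 * Real.pi * (C₁ * (S + 2 * K ^ β)) / T ^ 3) +
        2 ^ β * (Real.pi / T ^ 3) + Real.pi / T ^ 3 := by
      rw [hQ]; ring
    rw [h9]
    linarith
  have h8 : Q / T ^ 3 ≤ MI β T U / 2 := by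
    have e : Q / T ^ 3 = Q / T ^ 1 / T ^ 2 := by field_simp
    rw [e]
    have h9 : Q / T ^ 1 / T ^ 2 ≤ c / 2 / T ^ 2 := by gcongr
    have h10 : c / 2 / T ^ 2 = c / T ^ 2 / 2 := by ring
    linarith
  have h9 : 2 * (2 ^ β * C₁ * 2 ^ β / δ) * (2 * Real.pi * δ / L * Sg) =
      2 * (2 ^ β * (2 * Real.pi / L * (C₁ * (2 ^ β * Sg)))) := by
    field_simp
  rw [h9]
  linarith

end

end Q97.BS
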