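import Mathlib

set_option autoImplicit false

open MeasureTheory Filter Topology Complex Set FourierTransform SchwartzMap ContDiff

namespace Q97.BS

noncomputable section

theorem exists_kernel {b b' : ℝ} (hb : 0 < b) (hbb : b < b') :
    ∃ ψ : 𝓢(ℝ, ℂ), (∀ ξ : ℝ, |ξ| ≤ b → 𝓕 (ψ : ℝ → ℂ) ξ = 1) ∧
      (∀ ξ : ℝ, b' ≤ |ξ| → 𝓕 (ψ : ℝ → ℂ) ξ = 0) := by
  let φ : ContDiffBump (0 : ℝ) := ⟨b, b', hb, hbb⟩
  have h1 : HasCompactSupport (fun x : ℝ => ((φ x : ℝ) : ℂ)) :=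
    φ.hasCompactSupport.comp_left (g := fun x : ℝ => (x : ℂ)) (by simp)
  have h2 : ContDiff ℝ ∞ (fun x : ℝ => ((φ x : ℝ) : ℂ)) :=
    Complex.ofRealCLM.contDiff.comp φ.contDiff
  let φS : 𝓢(ℝ, ℂ) := h1.toSchwartzMap h2
  have h3 : 𝓕 (𝓕⁻ φS) = φS := FourierTransform.fourier_fourierInv_eq φS
  have h4 : ∀ ξ : ℝ, 𝓕 ((𝓕⁻ φS : 𝓢(ℝ, ℂ)) : ℝ → ℂ) ξ = ((φ ξ : ℝ) : ℂ) := by
    intro ξ
    have h5 := SchwartzMap.fourier_coe (𝓕⁻ φS)
    rw [← h5, h3]
    rfl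
  refine ⟨𝓕⁻ φS, fun ξ hξ => ?_, fun ξ hξ => ?_⟩
  · rw [h4, φ.one_of_mem_closedBall (by
      rw [mem_closedBall_zero_iff, Real.norm_eq_abs]
      exact hξ)]
    simp
  · rw [h4, φ.zero_of_le_dist (by
      rw [dist_zero_right, Real.norm_eq_abs]
      exact hξ)]
    simp

theorem schwartz_decay (ψ : 𝓢(ℝ, ℂ)) (N : ℕ) :
    ∃ C : ℝ, 0 < C ∧ ∀ v : ℝ, ‖ψ v‖ * (1 + |v|) ^ N ≤ C := by
  have h := SchwartzMap.one_add_le_sup_seminorm_apply (𝕜 := ℝ) (m := (N, 0)) (k := N) (n := 0)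
    le_rfl le_rfl ψ
  refine ⟨|2 ^ N * (Finset.Iic ((N, 0) : ℕ × ℕ)).sup (fun m => SchwartzMap.seminorm ℝ m.1 m.2) ψ| + 1,
    by positivity, fun v => ?_⟩
  have h1 := h v
  rw [norm_iteratedFDeriv_zero, Real.norm_eq_abs] at h1
  rw [mul_comm]
  linarith [le_abs_self (2 ^ N * (Finset.Iic ((N, 0) : ℕ × ℕ)).sup
    (fun m => SchwartzMap.seminorm ℝ m.1 m.2) ψ)]

/-- the character -/
def ee (t : ℝ) : ℂ := cexp ((2 * Real.pi * t : ℝ) * I)

theorem ee_norm (t : ℝ) : ‖ee t‖ = 1 := by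
  unfold ee
  exact Complex.norm_exp_ofReal_mul_I _

theorem ee_add (s t : ℝ) : ee (s + t) = ee s * ee t := by
  unfold ee
  rw [← Complex.exp_add]
  congr 1
  push_cast
  ring

theorem ee_continuous : Continuous ee := by
  unfold ee
  fun_prop

theorem fourier_ee (f : ℝ → ℂ) (ξ : ℝ) : 𝓕 f ξ = ∫ v, ee (-(v * ξ)) * f v := by
  rw [Real.fourier_eq']
  refine integral_congr_ae (Eventually.of_forall fun v => ?_)
  simp only [ee, smul_eq_mul, RCLike.inner_apply, conj_trivial]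
  congr 2
  push_cast
  ring

theorem fourierInv_ee (f : ℝ → ℂ) (x : ℝ) : 𝓕⁻ f x = ∫ v, ee (v * x) * f v := by
  rw [Real.fourierInv_eq']
  refine integral_congr_ae (Eventually.of_forall fun v => ?_)
  simp only [ee, smul_eq_mul, RCLike.inner_apply, conj_trivial]
  congr 2
  push_cast
  ring

/-- The reproducing identity for exponentials. -/
theorem repro {ψ : 𝓢(ℝ, ℂ)} {b b' δ : ℝ} (h1 : ∀ ξ : ℝ, |ξ| ≤ b → 𝓕 (ψ : ℝ → ℂ) ξ = 1)
    (h2 : ∀ ξ : ℝ, b' ≤ |ξ| → 𝓕 (ψ : ℝ → ℂ) ξ = 0) (hδ : 0 < δ) (hb : b + b' ≤ 1 / δ)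
    (x θ : ℝ) {ξ : ℝ} (hξ : |ξ| ≤ b) :
    (δ : ℂ) * ∑' n : ℤ, ψ (x - θ - n * δ) * ee ((θ + n * δ) * ξ) = ee (x * ξ) := by
  set f : ℝ → ℂ := fun u => ψ (x - θ - u * δ) * ee ((θ + u * δ) * ξ) with hf
  have hc : Continuous f := by
    have := ψ.continuous
    have := ee_continuous
    fun_prop
  obtain ⟨C, hC, hC'⟩ := schwartz_decay ψ 2
  have hdec : f =O[cocompact ℝ] (fun u : ℝ => |u| ^ (-2 : ℝ)) := by
    refine Asymptotics.IsBigO.of_bound (C * (2 / δ) ^ 2) ?_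
    have h3 : ∀ᶠ u : ℝ in cocompact ℝ, 2 * |x - θ| / δ + 1 ≤ |u| := by
      have h4 := (tendsto_norm_cocompact_atTop (E := ℝ)).eventually
        (eventually_ge_atTop (2 * |x - θ| / δ + 1))
      simpa using h4
    filter_upwards [h3] with u hu
    have hu0 : 0 < |u| := by
      have : 0 ≤ 2 * |x - θ| / δ := by positivity
      linarith
    rw [hf]
    simp only
    rw [norm_mul, ee_norm, mul_one, Real.norm_of_nonneg (by positivity), Real.rpow_neg hu0.le,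
      Real.rpow_two]
    have h5 := hC' (x - θ - u * δ)
    have h6 : |u| * δ / 2 ≤ 1 + |x - θ - u * δ| := by
      have h7 : |u * δ| ≤ |x - θ| + |x - θ - u * δ| := by
        have e : u * δ = (x - θ) - (x - θ - u * δ) := by ring
        calc |u * δ| = |(x - θ) - (x - θ - u * δ)| := by rw [← e]
          _ ≤ _ := abs_sub _ _
      rw [abs_mul, abs_of_pos hδ] at h7
      have h8 : |x - θ| ≤ |u| * δ / 2 := by
        have h9 : 2 * |x - θ| / δ ≤ |u| := by linarith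
        rw [div_le_iff₀ hδ] at h9
        linarith
      linarith
    have h7 : (|u| * δ / 2) ^ 2 ≤ (1 + |x - θ - u * δ|) ^ 2 :=
      pow_le_pow_left₀ (by positivity) h6 2
    have h8 : ‖ψ (x - θ - u * δ)‖ * (|u| * δ / 2) ^ 2 ≤ C :=
      (mul_le_mul_of_nonneg_left h7 (norm_nonneg _)).trans h5
    have h9 : 0 < (|u| * δ / 2) ^ 2 := by positivity
    rw [← le_div_iff₀ h9] at h8
    refine h8.trans (le_of_eq ?_)
    field_simp
    try ring
  have hF : ∀ ν : ℝ, 𝓕 f ν = (ee (ξ * x - ν * (x - θ) / δ)) * ((1 / δ : ℝ) : ℂ) *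
      𝓕 (ψ : ℝ → ℂ) (ξ - ν / δ) := by
    intro ν
    rw [fourier_ee, fourier_ee]
    have e1 : ∀ u : ℝ, ee (-(u * ν)) * f u = ee (ξ * x - ν * (x - θ) / δ) *
        (fun v => ee (-(v * (ξ - ν / δ))) * ψ v) ((x - θ) - u * δ) := by
      intro u
      simp only [hf]
      have e2 : ee (-(u * ν)) * ee ((θ + u * δ) * ξ) = ee (ξ * x - ν * (x - θ) / δ) *
          ee (-((x - θ - u * δ) * (ξ - ν / δ))) := by
        rw [← ee_add, ← ee_add]
        congr 1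
        field_simp
        ring
      calc ee (-(u * ν)) * (ψ (x - θ - u * δ) * ee ((θ + u * δ) * ξ))
          = (ee (-(u * ν)) * ee ((θ + u * δ) * ξ)) * ψ (x - θ - u * δ) := by ring
        _ = _ := by rw [e2]; ring
    rw [integral_congr_ae (Eventually.of_forall e1), integral_const_mul]
    have e3 : ∫ u : ℝ, (fun v => ee (-(v * (ξ - ν / δ))) * ψ v) ((x - θ) - u * δ) =
        ((1 / δ : ℝ) : ℂ) * ∫ v, ee (-(v * (ξ - ν / δ))) * ψ v := by
      have e4 := Measure.integral_comp_mul_right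
        (fun w : ℝ => (fun v => ee (-(v * (ξ - ν / δ))) * ψ v) ((x - θ) - w)) δ
      rw [e4, integral_sub_left_eq_self (fun v => ee (-(v * (ξ - ν / δ))) * ψ v) volume (x - θ),
        abs_of_pos (inv_pos.mpr hδ), one_div, Complex.real_smul]
    rw [e3]
    ring
  have hz : ∀ n : ℤ, n ≠ 0 → 𝓕 f n = 0 := by
    intro n hn
    rw [hF, h2, mul_zero]
    have h3 : (1 : ℝ) ≤ |(n : ℝ)| := by
      rw [← Int.cast_abs]
      exact_mod_cast Int.one_le_abs hn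
    have h4 : 1 / δ ≤ |(n : ℝ) / δ| := by
      rw [abs_div, abs_of_pos hδ]
      gcongr
    have h5 : |(n : ℝ) / δ| ≤ |ξ| + |ξ - n / δ| := by
      have e : (n : ℝ) / δ = ξ - (ξ - n / δ) := by ring
      calc |(n : ℝ) / δ| = |ξ - (ξ - n / δ)| := by rw [← e]
        _ ≤ _ := abs_sub _ _
    linarith
  have hsum : Summable (fun n : ℤ => 𝓕 f n) := summable_of_ne_finset_zero (s := {0}) (fun n hn => by
    rw [Finset.mem_singleton] at hn
    exact hz n hn)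
  have hP := Real.tsum_eq_tsum_fourier_of_rpow_decay_of_summable hc (by norm_num : (1 : ℝ) < 2)
    hdec hsum 0
  have hR : ∑' n : ℤ, 𝓕 f n * fourier n (((0 : ℝ)) : UnitAddCircle) = 𝓕 f ((0 : ℤ) : ℝ) := by
    rw [tsum_eq_single (0 : ℤ) (fun n hn => by rw [hz n hn, zero_mul])]
    simp
  rw [hR] at hP
  have e5 : 𝓕 f ((0 : ℤ) : ℝ) = ee (ξ * x) * ((1 / δ : ℝ) : ℂ) := by
    rw [hF]
    simp only [Int.cast_zero, zero_mul, zero_div, sub_zero]
    rw [h1 ξ hξ, mul_one]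
  rw [e5] at hP
  simp only [zero_add] at hP
  have e6 : ∑' n : ℤ, ψ (x - θ - n * δ) * ee ((θ + n * δ) * ξ) = ∑' n : ℤ, f n := rfl
  rw [e6, hP, mul_comm x ξ]
  push_cast
  have : (δ : ℂ) ≠ 0 := Complex.ofReal_ne_zero.2 hδ.ne'
  field_simp

/-- `g` has its frequencies in `[-b, b]`, up to an error `η`. -/
structure Band (g : ℝ → ℂ) (b η : ℝ) : Prop where
  cont : Continuous g
  int : Integrable g
  fint : Integrable (𝓕 g)
  small : ∫ ξ in {ξ : ℝ | b < |ξ|}, ‖𝓕 g ξ‖ ≤ η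

theorem Band.inv {g : ℝ → ℂ} {b η : ℝ} (h : Band g b η) (x : ℝ) :
    g x = ∫ ξ, ee (ξ * x) * 𝓕 g ξ := by
  rw [← fourierInv_ee]
  exact (congrFun (h.cont.fourierInv_fourier_eq h.int h.fint) x).symm

theorem Band.bounded {g : ℝ → ℂ} {b η : ℝ} (h : Band g b η) (x : ℝ) :
    ‖g x‖ ≤ ∫ ξ, ‖𝓕 g ξ‖ := by
  rw [h.inv x]
  refine (norm_integral_le_integral_norm _).trans (le_of_eq ?_)
  refine integral_congr_ae (Eventually.of_forall fun ξ => ?_)
  simp only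
  rw [norm_mul, ee_norm, one_mul]

/-- summability of the shifted decays -/
theorem sum_decay {δ : ℝ} (hδ : 0 < δ) : ∃ S : ℝ, 0 < S ∧ ∀ y : ℝ,
    Summable (fun n : ℤ => 1 / (1 + |y - n * δ|) ^ 2) ∧
      ∑' n : ℤ, 1 / (1 + |y - n * δ|) ^ 2 ≤ S := by
  set κ : ℝ := min 1 δ with hκ
  have hκ0 : 0 < κ := lt_min one_pos hδ
  have hs : Summable (fun n : ℤ => 4 / κ ^ 2 * (1 / (1 + |(n : ℝ)|) ^ 2)) := by
    apply Summable.mul_left
    have h1 : Summable (fun n : ℤ => |(n : ℝ)| ^ (-(2 : ℝ))) :=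
      Real.summable_abs_int_rpow (by norm_num)
    refine Summable.of_norm_bounded_eventually h1 ?_
    rw [Filter.eventually_cofinite]
    refine (Set.finite_singleton (0 : ℤ)).subset fun n hn => ?_
    simp only [Set.mem_singleton_iff]
    by_contra h0
    apply hn
    have h2 : (0 : ℝ) < |(n : ℝ)| := abs_pos.mpr (by exact_mod_cast h0)
    rw [Real.norm_of_nonneg (by positivity), Real.rpow_neg h2.le, Real.rpow_two, one_div]
    apply inv_anti₀ (by positivity)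
    apply pow_le_pow_left₀ h2.le
    linarith
  have key : ∀ (y : ℝ) (n : ℤ), 1 / (1 + |y - (n + ⌊y / δ⌋) * δ|) ^ 2 ≤
      4 / κ ^ 2 * (1 / (1 + |(n : ℝ)|) ^ 2) := by
    intro y n
    have h1 : |(n : ℝ)| * δ - δ ≤ |y - (n + ⌊y / δ⌋) * δ| := by
      have e : y - ((n : ℝ) + ⌊y / δ⌋) * δ = (y - ⌊y / δ⌋ * δ) - n * δ := by ring
      have h2 : 0 ≤ y - ⌊y / δ⌋ * δ := by
        have := Int.floor_le (y / δ)
        rw [le_div_iff₀ hδ] at this
        linarith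
      have h3 : y - ⌊y / δ⌋ * δ ≤ δ := by
        have := (Int.lt_floor_add_one (y / δ)).le
        rw [div_le_iff₀ hδ] at this
        linarith
      rw [e]
      have h4 := abs_sub_abs_le_abs_sub ((n : ℝ) * δ) (y - ⌊y / δ⌋ * δ)
      rw [abs_mul, abs_of_pos hδ, abs_of_nonneg h2, abs_sub_comm] at h4
      linarith
    have h5 : κ / 2 * (1 + |(n : ℝ)|) ≤ 1 + |y - (n + ⌊y / δ⌋) * δ| := by
      have hκ1 : κ ≤ 1 := min_le_left _ _
      have hκ2 : κ ≤ δ := min_le_right _ _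
      rcases eq_or_ne n 0 with rfl | hn
      · simp only [Int.cast_zero, abs_zero, add_zero, mul_one]
        have := abs_nonneg (y - (0 + (⌊y / δ⌋ : ℝ)) * δ)
        linarith
      · have h6 : (1 : ℝ) ≤ |(n : ℝ)| := by
          rw [← Int.cast_abs]
          exact_mod_cast Int.one_le_abs hn
        have h7 := abs_nonneg (y - ((n : ℝ) + ⌊y / δ⌋) * δ)
        by_cases h8 : |(n : ℝ)| ≤ 2
        · nlinarith
        · push Not at h8
          have h9 : |(n : ℝ)| * δ / 2 ≤ |(n : ℝ)| * δ - δ := by nlinarith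
          have h10 : |(n : ℝ)| * κ ≤ |(n : ℝ)| * δ := by gcongr
          linarith
    have h6 : (κ / 2 * (1 + |(n : ℝ)|)) ^ 2 ≤ (1 + |y - (n + ⌊y / δ⌋) * δ|) ^ 2 :=
      pow_le_pow_left₀ (by positivity) h5 2
    calc 1 / (1 + |y - (n + ⌊y / δ⌋) * δ|) ^ 2 ≤ 1 / (κ / 2 * (1 + |(n : ℝ)|)) ^ 2 :=
          one_div_le_one_div_of_le (by positivity) h6
      _ = _ := by field_simp; ring
  refine ⟨(∑' n : ℤ, 4 / κ ^ 2 * (1 / (1 + |(n : ℝ)|) ^ 2)) + 1, ?_, fun y => ?_⟩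
  · have : 0 ≤ ∑' n : ℤ, 4 / κ ^ 2 * (1 / (1 + |(n : ℝ)|) ^ 2) := tsum_nonneg fun n => by positivity
    linarith
  · have h1 : Summable (fun n : ℤ => 1 / (1 + |y - (n + ⌊y / δ⌋) * δ|) ^ 2) :=
      Summable.of_nonneg_of_le (fun n => by positivity) (key y) hs
    let e : ℤ ≃ ℤ := Equiv.addRight ⌊y / δ⌋
    have h2 : (fun n : ℤ => 1 / (1 + |y - (n + ⌊y / δ⌋) * δ|) ^ 2) =
        (fun n : ℤ => 1 / (1 + |y - n * δ|) ^ 2) ∘ e := by
      funext n
      simp [e]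
    have h3 : Summable (fun n : ℤ => 1 / (1 + |y - n * δ|) ^ 2) := by
      rw [h2] at h1
      exact (Equiv.summable_iff e).mp h1
    refine ⟨h3, ?_⟩
    rw [← Equiv.tsum_eq e]
    have h4 : ∑' n : ℤ, 1 / (1 + |y - (e n : ℤ) * δ|) ^ 2 ≤
        ∑' n : ℤ, 4 / κ ^ 2 * (1 / (1 + |(n : ℝ)|) ^ 2) := by
      refine Summable.tsum_le_tsum (fun n => ?_) ?_ hs
      · have := key y n
        simpa [e] using this
      · rw [h2] at h1
        exact h1
    linarith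

end

end Q97.BS
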