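import Pool.Agent.Q97.BS.Gg
import Pool.Agent.Q97.MM.Cor

set_option autoImplicit false

open MeasureTheory Filter Topology Complex Set
open scoped ENNReal

namespace Q97.BS

open Q97.MM

noncomputable section

/-- the density of the moment of `(s - 1) ζ(s) / T` -/
def pR (β T U y : ℝ) : ℝ := (‖Z1 (pt y)‖ / T) ^ β * wt T U y

/-- the density of the moment of `ζ` -/
def aR (β T U y : ℝ) : ℝ := ‖riemannZeta (pt y)‖ ^ β * wt T U y

/-- the small majorant -/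
def tR (D : ℕ) (T y : ℝ) : ℝ := 1 / (T ^ D * (1 + |y - T|) ^ 2)

theorem pR_nonneg {β T U y : ℝ} (hT : 0 < T) : 0 ≤ pR β T U y :=
  mul_nonneg (by positivity) (wt_pos _ _ _).le

theorem aR_nonneg {β T U y : ℝ} : 0 ≤ aR β T U y :=
  mul_nonneg (by positivity) (wt_pos _ _ _).le

theorem gg_pow {β T U : ℝ} (hβ : 0 < β) (hT : 0 < T) (hU : 0 < U) (x : ℝ) :
    ‖gg T (U * √(β / 2)) x‖ ^ β = pR β T U (T + 2 * Real.pi / Real.log T * x) := by
  rw [gg_norm _ _ _ hT]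
  set y := T + 2 * Real.pi / Real.log T * x with hy
  have h1 : ‖FF 1 T (U * √(β / 2)) (pt y)‖ = ‖Z1 (pt y)‖ * Real.exp (-(((y - T) / U) ^ 2 / β)) := by
    have h2 := FF_norm 1 T (U * √(β / 2)) (1 / 2) y
    rw [pow_one] at h2
    have h3 : 2 * (U * √(β / 2)) ^ 2 = β * U ^ 2 := by
      rw [mul_pow, Real.sq_sqrt (by positivity)]
      ring
    rw [h3] at h2
    unfold pt
    rw [h2]
    congr 2
    field_simp
    ring
  rw [h1, pR, mul_div_right_comm, Real.mul_rpow (by positivity) (Real.exp_pos _).le,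
    ← Real.exp_mul, wt]
  congr 2
  field_simp

theorem tail (N D : ℕ) (C₀ : ℝ) {ϑ : ℝ} (hϑ : 0 < ϑ) : ∀ᶠ T : ℝ in atTop, ∀ U : ℝ, Adm T U →
    ∀ y : ℝ, ϑ * (U * Real.log T) < |y - T| →
      C₀ * (1 + |y|) ^ N * wt T U y ≤ tR D T y := by
  obtain ⟨C, hC, hC'⟩ := poly_le_exp (N + 2) (1 / 2) (by norm_num)
  have h1 := (tail_tendsto (N + 2 + D) hϑ).const_mul (|C₀| * C)
  rw [mul_zero] at h1
  filter_upwards [h1.eventually (gt_mem_nhds one_pos), eventually_ge_atTop 3] with T h2 hT U hA y hy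
  have hT0 : 0 < T := by linarith
  have hU := hA.pos
  have hL := hA.log
  set z := |(y - T) / U| with hz
  have hz1 : ϑ * Real.log T ≤ z := by
    rw [hz, abs_div, abs_of_pos hU, le_div_iff₀ hU]
    linarith
  have hz0 : 0 ≤ z := abs_nonneg _
  have hzU : |y - T| = U * z := by
    rw [hz, abs_div, abs_of_pos hU]
    field_simp
  have a1 : 1 + |y| ≤ (1 + T) * (1 + z) := abs_le_scaled hU hT0.le hA.le y
  have a2 : 1 + |y - T| ≤ (1 + T) * (1 + z) := by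
    rw [hzU]
    have := hA.le
    nlinarith
  have a3 : wt T U y = Real.exp (-(z ^ 2 / 2)) * Real.exp (-(z ^ 2 / 2)) := by
    rw [wt, ← Real.exp_add]
    congr 1
    rw [hz, sq_abs]
    ring
  have a4 : Real.exp (-(z ^ 2 / 2)) ≤ Real.exp (-((ϑ * Real.log T) ^ 2 / 2)) := by
    apply Real.exp_le_exp.2
    have := pow_le_pow_left₀ (by positivity) hz1 2
    linarith
  have a5 : (1 + z) ^ (N + 2) * Real.exp (-(z ^ 2 / 2)) ≤ C := by
    have h3 := hC' z
    rw [abs_of_nonneg hz0] at h3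
    rw [Real.exp_neg, mul_inv_le_iff₀ (Real.exp_pos _)]
    refine h3.trans (le_of_eq ?_)
    congr 2
    ring
  unfold tR
  rw [le_div_iff₀ (by positivity)]
  have hE := Real.exp_pos (-((ϑ * Real.log T) ^ 2 / 2))
  calc C₀ * (1 + |y|) ^ N * wt T U y * (T ^ D * (1 + |y - T|) ^ 2)
      ≤ |C₀| * ((1 + T) * (1 + z)) ^ N * wt T U y * ((1 + T) ^ D * ((1 + T) * (1 + z)) ^ 2) := by
        have hw := wt_pos T U y
        gcongr
        · exact le_abs_self _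
        · linarith
    _ = |C₀| * (1 + T) ^ (N + 2 + D) * ((1 + z) ^ (N + 2) * Real.exp (-(z ^ 2 / 2))) *
          Real.exp (-(z ^ 2 / 2)) := by
        rw [a3, mul_pow, mul_pow, pow_add, pow_add, pow_add]
        ring
    _ ≤ |C₀| * (1 + T) ^ (N + 2 + D) * C * Real.exp (-((ϑ * Real.log T) ^ 2 / 2)) := by
        gcongr
    _ = |C₀| * C * ((1 + T) ^ (N + 2 + D) * Real.exp (-((ϑ * Real.log T) ^ 2 / 2))) := by ring
    _ ≤ 1 := h2.le

theorem rpow_bd {a β : ℝ} (ha : 0 ≤ a) (hβ : 0 < β) {c y : ℝ} (hc : 0 ≤ c)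
    (h : a ≤ c * (1 + |y|) ^ 2) : a ^ β ≤ c ^ β * (1 + |y|) ^ ⌈2 * β⌉₊ := by
  calc a ^ β ≤ (c * (1 + |y|) ^ 2) ^ β := Real.rpow_le_rpow ha h hβ.le
    _ = c ^ β * (1 + |y|) ^ (2 * β) := by
        rw [Real.mul_rpow hc (by positivity), ← Real.rpow_natCast, ← Real.rpow_mul (by positivity)]
        norm_num
    _ ≤ _ := by
        rw [← Real.rpow_natCast _ ⌈2 * β⌉₊]
        apply mul_le_mul_of_nonneg_left _ (by positivity)
        exact Real.rpow_le_rpow_of_exponent_le (by linarith [abs_nonneg y]) (Nat.le_ceil _)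

theorem Z1_bd (y : ℝ) : ‖Z1 (pt y)‖ ≤ 45 * (1 + |y|) ^ 2 :=
  Z1_growth (by norm_num) (by norm_num)

theorem pR_bd {β T : ℝ} (hβ : 0 < β) (hT : 1 ≤ T) (y : ℝ) :
    (‖Z1 (pt y)‖ / T) ^ β ≤ 45 ^ β * (1 + |y|) ^ ⌈2 * β⌉₊ := by
  apply rpow_bd (by positivity) hβ (by norm_num)
  exact (div_le_self (norm_nonneg _) hT).trans (Z1_bd y)

theorem aR_bd {β : ℝ} (hβ : 0 < β) (y : ℝ) :
    ‖riemannZeta (pt y)‖ ^ β ≤ 180 ^ β * (1 + |y|) ^ ⌈2 * β⌉₊ :=
  rpow_bd (norm_nonneg _) hβ (by norm_num) (zeta_bd y)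

theorem pR_tail {β : ℝ} (hβ : 0 < β) (D : ℕ) {ϑ : ℝ} (hϑ : 0 < ϑ) :
    ∀ᶠ T : ℝ in atTop, ∀ U : ℝ, Adm T U →
    ∀ y : ℝ, ϑ * (U * Real.log T) < |y - T| → pR β T U y ≤ tR D T y := by
  filter_upwards [tail ⌈2 * β⌉₊ D (45 ^ β) hϑ, eventually_ge_atTop 3] with T h1 hT U hA y hy
  refine le_trans ?_ (h1 U hA y hy)
  exact mul_le_mul_of_nonneg_right (pR_bd hβ (by linarith) y) (wt_pos _ _ _).le

theorem aR_tail {β : ℝ} (hβ : 0 < β) (D : ℕ) {ϑ : ℝ} (hϑ : 0 < ϑ) :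
    ∀ᶠ T : ℝ in atTop, ∀ U : ℝ, Adm T U →
    ∀ y : ℝ, ϑ * (U * Real.log T) < |y - T| → aR β T U y ≤ tR D T y := by
  filter_upwards [tail ⌈2 * β⌉₊ D (180 ^ β) hϑ, eventually_ge_atTop 3] with T h1 hT U hA y hy
  refine le_trans ?_ (h1 U hA y hy)
  exact mul_le_mul_of_nonneg_right (aR_bd hβ y) (wt_pos _ _ _).le

theorem near {ϑ : ℝ} (hϑ : 0 < ϑ) (hϑ1 : ϑ ≤ 1 / 4) : ∀ᶠ T : ℝ in atTop, ∀ y : ℝ,
    |y - T| ≤ ϑ * T → (1 - 2 * ϑ) * T ≤ ‖pt y - 1‖ ∧ ‖pt y - 1‖ ≤ (1 + 2 * ϑ) * T := by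
  filter_upwards [eventually_ge_atTop (1 / ϑ), eventually_gt_atTop 0] with T h1 hT y hy
  have h2 : 1 ≤ ϑ * T := by
    rwa [div_le_iff₀ hϑ, mul_comm] at h1
  have h3 := abs_le.mp hy
  have e : pt y - 1 = ((-(1 / 2) : ℝ) : ℂ) + y * I := by
    unfold pt
    push_cast
    ring
  rw [e]
  constructor
  · have h4 := Complex.abs_im_le_norm (((-(1 / 2) : ℝ) : ℂ) + y * I)
    rw [im_line] at h4
    have h5 := le_abs_self y
    nlinarith
  · refine (norm_add_le _ _).trans ?_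
    rw [norm_mul, Complex.norm_I, mul_one, Complex.norm_real, Complex.norm_real, Real.norm_eq_abs,
      Real.norm_eq_abs, abs_neg, abs_of_pos (by norm_num : (0 : ℝ) < 1 / 2)]
    have h5 : |y| ≤ T + ϑ * T := by
      rw [abs_le]
      constructor <;> nlinarith
    nlinarith

theorem cmp {β : ℝ} (hβ : 0 < β) (D : ℕ) {ϑ : ℝ} (hϑ : 0 < ϑ) (hϑ1 : ϑ ≤ 1 / 4) :
    ∀ᶠ T : ℝ in atTop, ∀ U : ℝ, Adm T U → ∀ y : ℝ,
      pR β T U y ≤ (1 + 2 * ϑ) ^ β * aR β T U y + tR D T y ∧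
      aR β T U y ≤ (1 / (1 - 2 * ϑ)) ^ β * pR β T U y + tR D T y := by
  filter_upwards [pR_tail hβ D hϑ, aR_tail hβ D hϑ, near hϑ hϑ1, eventually_ge_atTop 3] with
    T h1 h2 h3 hT U hA y
  have hT0 : 0 < T := by linarith
  have ht : 0 ≤ tR D T y := by unfold tR; positivity
  have hw := wt_pos T U y
  by_cases hy : ϑ * (U * Real.log T) < |y - T|
  · constructor
    · have a1 := h1 U hA y hy
      have a2 : 0 ≤ (1 + 2 * ϑ) ^ β * aR β T U y := mul_nonneg (by positivity) aR_nonneg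
      linarith
    · have a1 := h2 U hA y hy
      have a2 : 0 ≤ (1 / (1 - 2 * ϑ)) ^ β * pR β T U y :=
        mul_nonneg (Real.rpow_nonneg (by
          have : 0 < 1 - 2 * ϑ := by linarith
          positivity) _) (pR_nonneg hT0)
      linarith
  · push Not at hy
    have hUL : U * Real.log T ≤ T := by
      have := hA.2.2
      rwa [le_div_iff₀ (by linarith [hA.log])] at this
    obtain ⟨b1, b2⟩ := h3 y (hy.trans (mul_le_mul_of_nonneg_left hUL hϑ.le))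
    have hz : ‖Z1 (pt y)‖ = ‖pt y - 1‖ * ‖riemannZeta (pt y)‖ := by
      rw [Z1_of_ne (show pt y ≠ 1 from ne_one_of_re (by norm_num) y)]
      exact norm_mul _ _
    have hz0 := norm_nonneg (riemannZeta (pt y))
    have h12 : 0 < 1 - 2 * ϑ := by linarith
    constructor
    · have c1 : ‖Z1 (pt y)‖ / T ≤ (1 + 2 * ϑ) * ‖riemannZeta (pt y)‖ := by
        rw [hz, div_le_iff₀ hT0]
        calc ‖pt y - 1‖ * ‖riemannZeta (pt y)‖ ≤ ((1 + 2 * ϑ) * T) * ‖riemannZeta (pt y)‖ := by gcongr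
          _ = _ := by ring
      have c2 : (‖Z1 (pt y)‖ / T) ^ β ≤ (1 + 2 * ϑ) ^ β * ‖riemannZeta (pt y)‖ ^ β := by
        rw [← Real.mul_rpow (by positivity) hz0]
        exact Real.rpow_le_rpow (by positivity) c1 hβ.le
      have c3 := mul_le_mul_of_nonneg_right c2 hw.le
      unfold pR aR
      linarith
    · have c1 : ‖riemannZeta (pt y)‖ ≤ 1 / (1 - 2 * ϑ) * (‖Z1 (pt y)‖ / T) := by
        rw [hz, one_div_mul_eq_div, le_div_iff₀ h12, le_div_iff₀ hT0]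
        calc ‖riemannZeta (pt y)‖ * (1 - 2 * ϑ) * T = ((1 - 2 * ϑ) * T) * ‖riemannZeta (pt y)‖ := by ring
          _ ≤ _ := by gcongr
      have c2 : ‖riemannZeta (pt y)‖ ^ β ≤ (1 / (1 - 2 * ϑ)) ^ β * (‖Z1 (pt y)‖ / T) ^ β := by
        rw [← Real.mul_rpow (by positivity) (by positivity)]
        exact Real.rpow_le_rpow hz0 c1 hβ.le
      have c3 := mul_le_mul_of_nonneg_right c2 hw.le
      unfold pR aR
      linarith

theorem Z1pt_cont : Continuous (fun y : ℝ => Z1 (pt y)) := Z1_cont_line _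

theorem pR_cont {β : ℝ} (hβ : 0 < β) (T U : ℝ) : Continuous (pR β T U) := by
  unfold pR
  have h1 : Continuous (wt T U) := by unfold wt; fun_prop
  have h2 : Continuous (fun y : ℝ => (‖Z1 (pt y)‖ / T) ^ β) :=
    (Z1pt_cont.norm.div_const T).rpow_const fun y => Or.inr hβ.le
  exact h2.mul h1

theorem aR_cont {β : ℝ} (hβ : 0 < β) (T U : ℝ) : Continuous (aR β T U) := by
  unfold aR
  have h1 : Continuous (wt T U) := by unfold wt; fun_prop
  have h2 : Continuous (fun y : ℝ => ‖riemannZeta (pt y)‖ ^ β) :=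
    (zeta_line_cont (by norm_num)).norm.rpow_const fun y => Or.inr hβ.le
  exact h2.mul h1

theorem pR_int {β : ℝ} (hβ : 0 < β) {T U : ℝ} (hA : Adm T U) : Integrable (pR β T U) := by
  have hT0 : 0 < T := by linarith [hA.1]
  refine poly_wt_integrable ⌈2 * β⌉₊ (C₀ := 45 ^ β) hA.pos hT0.le hA.le ?_ (fun y => ?_)
  · exact ((Z1pt_cont.norm.div_const T).rpow_const fun y => Or.inr hβ.le).aestronglyMeasurable
  · rw [abs_of_nonneg (by positivity)]
    exact pR_bd hβ (by linarith [hA.1]) y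

theorem aR_int {β : ℝ} (hβ : 0 < β) {T U : ℝ} (hA : Adm T U) : Integrable (aR β T U) := by
  have hT0 : 0 < T := by linarith [hA.1]
  refine poly_wt_integrable ⌈2 * β⌉₊ (C₀ := 180 ^ β) hA.pos hT0.le hA.le ?_ (fun y => ?_)
  · exact ((zeta_line_cont (by norm_num)).norm.rpow_const fun y => Or.inr hβ.le).aestronglyMeasurable
  · rw [abs_of_nonneg (by positivity)]
    exact aR_bd hβ y

theorem inv_int (T : ℝ) : Integrable (fun y : ℝ => 1 / (1 + |y - T|) ^ 2) ∧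
    ∫ y : ℝ, 1 / (1 + |y - T|) ^ 2 ≤ Real.pi := by
  have h1 : Integrable (fun y : ℝ => (1 + (y - T) ^ 2)⁻¹) :=
    integrable_inv_one_add_sq.comp_sub_right T
  have hle : ∀ y : ℝ, 1 / (1 + |y - T|) ^ 2 ≤ (1 + (y - T) ^ 2)⁻¹ := by
    intro y
    rw [one_div]
    apply inv_anti₀ (by positivity)
    have : (1 + |y - T|) ^ 2 = 1 + (y - T) ^ 2 + 2 * |y - T| := by
      rw [← sq_abs (y - T)]; ring
    rw [this]
    linarith [abs_nonneg (y - T)]
  have h2 : Integrable (fun y : ℝ => 1 / (1 + |y - T|) ^ 2) := by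
    refine h1.mono' ?_ (Eventually.of_forall fun y => ?_)
    · refine Continuous.aestronglyMeasurable ?_
      refine continuous_const.div (by fun_prop) fun y => ?_
      positivity
    · rw [Real.norm_of_nonneg (by positivity)]
      exact hle y
  refine ⟨h2, (integral_mono h2 h1 hle).trans (le_of_eq ?_)⟩
  rw [integral_sub_right_eq_self (fun y : ℝ => (1 + y ^ 2)⁻¹) T, integral_univ_inv_one_add_sq]

theorem tR_int (D : ℕ) {T : ℝ} (hT : 0 < T) : Integrable (tR D T) ∧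
    ∫ y, tR D T y ≤ Real.pi / T ^ D := by
  obtain ⟨h1, h2⟩ := inv_int T
  have e : tR D T = fun y => 1 / T ^ D * (1 / (1 + |y - T|) ^ 2) := by
    funext y
    unfold tR
    field_simp
  rw [e]
  refine ⟨h1.const_mul _, ?_⟩
  rw [integral_const_mul]
  calc 1 / T ^ D * ∫ y : ℝ, 1 / (1 + |y - T|) ^ 2 ≤ 1 / T ^ D * Real.pi := by gcongr
    _ = _ := by ring

/-- the moments -/
def PI (β T U : ℝ) : ℝ := ∫ y, pR β T U y

def MI (β T U : ℝ) : ℝ := ∫ y, aR β T U y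

/-- A polynomial lower bound. -/
theorem PI_lower {β : ℝ} (hβ : 0 < β) : ∃ c : ℝ, 0 < c ∧ ∀ᶠ T : ℝ in atTop, ∀ U : ℝ, Adm T U →
    c / T ^ 2 ≤ PI β T U := by
  obtain ⟨c₀, hc₀, hV⟩ := V0_lower 1
  have hKK : 0 ≤ KK 0 := KK_nonneg 0
  set s : ℝ := min 1 √(c₀ / (4 * (KK 0 + 1))) with hs
  have hs0 : 0 < s := lt_min one_pos (by positivity)
  have hs1 : s ≤ 1 := min_le_left _ _
  have hs2 : s ^ 2 ≤ c₀ / (4 * (KK 0 + 1)) := by
    have h1 : s ≤ √(c₀ / (4 * (KK 0 + 1))) := min_le_right _ _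
    calc s ^ 2 ≤ √(c₀ / (4 * (KK 0 + 1))) ^ 2 := pow_le_pow_left₀ hs0.le h1 2
      _ = _ := Real.sq_sqrt (by positivity)
  refine ⟨c₀ / 2 * s ^ β / 180 ^ 2, by positivity, ?_⟩
  have hsm : Tendsto (fun T : ℝ => Real.pi / T ^ 1) atTop (𝓝 0) := by
    have := tendsto_pow_atTop (n := 1) (α := ℝ) (by norm_num)
    exact this.const_div_atTop _
  filter_upwards [tail 4 1 (45 ^ 2) (ϑ := 1 / 4) (by norm_num),
    hsm.eventually (gt_mem_nhds (show 0 < c₀ / 4 by positivity)), eventually_ge_atTop 8] with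
    T h1 h2 hT U hA
  have hT0 : 0 < T := by linarith
  have hU := hA.pos
  have hL := hA.log
  have hUL : U * Real.log T ≤ T := by
    have := hA.2.2
    rwa [le_div_iff₀ (by linarith)] at this
  have hpt : ∀ y : ℝ, (‖Z1 (pt y)‖ / T) ^ 2 * wt T U y ≤
      s ^ 2 * ((1 + |(y - T) / U|) ^ 0 * Real.exp (-(((y - T) / U) ^ 2 / 2))) +
        (180 * T) ^ 2 / s ^ β * pR β T U y + tR 1 T y := by
    intro y
    have hw := wt_pos T U y
    have ha0 : 0 ≤ ‖Z1 (pt y)‖ / T := by positivity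
    have hp0 := pR_nonneg (β := β) (U := U) (y := y) hT0
    have ht0 : 0 ≤ tR 1 T y := by unfold tR; positivity
    have hw2 : wt T U y ≤ (1 + |(y - T) / U|) ^ 0 * Real.exp (-(((y - T) / U) ^ 2 / 2)) := by
      rw [pow_zero, one_mul]
      unfold wt
      apply Real.exp_le_exp.2
      nlinarith [sq_nonneg ((y - T) / U)]
    by_cases hy : 1 / 4 * (U * Real.log T) < |y - T|
    · have h3 := h1 U hA y hy
      have h4 : (‖Z1 (pt y)‖ / T) ^ 2 ≤ 45 ^ 2 * (1 + |y|) ^ 4 := by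
        have h5 : ‖Z1 (pt y)‖ / T ≤ 45 * (1 + |y|) ^ 2 :=
          (div_le_self (norm_nonneg _) (by linarith)).trans (Z1_bd y)
        calc (‖Z1 (pt y)‖ / T) ^ 2 ≤ (45 * (1 + |y|) ^ 2) ^ 2 := pow_le_pow_left₀ ha0 h5 2
          _ = _ := by ring
      have h5 := mul_le_mul_of_nonneg_right h4 hw.le
      have h6 : 0 ≤ s ^ 2 * ((1 + |(y - T) / U|) ^ 0 * Real.exp (-(((y - T) / U) ^ 2 / 2))) := by
        positivity
      have h7 : 0 ≤ (180 * T) ^ 2 / s ^ β * pR β T U y := by positivity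
      linarith
    · push Not at hy
      have hy2 : |y - T| ≤ T / 4 := by linarith
      have hy3 := abs_le.mp hy2
      have ha1 : ‖Z1 (pt y)‖ / T ≤ 180 * T := by
        rw [div_le_iff₀ hT0]
        refine (Z1_bd y).trans ?_
        have h3 : 1 + |y| ≤ 2 * T := by
          rw [abs_of_pos (by linarith)]
          linarith
        have h4 : (1 + |y|) ^ 2 ≤ (2 * T) ^ 2 := pow_le_pow_left₀ (by positivity) h3 2
        nlinarith
      by_cases has : ‖Z1 (pt y)‖ / T ≤ s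
      · have h3 : (‖Z1 (pt y)‖ / T) ^ 2 ≤ s ^ 2 := pow_le_pow_left₀ ha0 has 2
        have h7 : 0 ≤ (180 * T) ^ 2 / s ^ β * pR β T U y := by positivity
        have h8 : (‖Z1 (pt y)‖ / T) ^ 2 * wt T U y ≤
            s ^ 2 * ((1 + |(y - T) / U|) ^ 0 * Real.exp (-(((y - T) / U) ^ 2 / 2))) :=
          mul_le_mul h3 hw2 hw.le (by positivity)
        linarith
      · push Not at has
        have h3 : s ^ β ≤ (‖Z1 (pt y)‖ / T) ^ β := Real.rpow_le_rpow hs0.le has.le hβ.le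
        have h4 : (‖Z1 (pt y)‖ / T) ^ 2 ≤ (180 * T) ^ 2 / s ^ β * (‖Z1 (pt y)‖ / T) ^ β := by
          have h5 : (‖Z1 (pt y)‖ / T) ^ 2 ≤ (180 * T) ^ 2 := pow_le_pow_left₀ ha0 ha1 2
          have h6 : 1 ≤ (‖Z1 (pt y)‖ / T) ^ β / s ^ β := by
            rw [le_div_iff₀ (by positivity), one_mul]
            exact h3
          calc (‖Z1 (pt y)‖ / T) ^ 2 ≤ (180 * T) ^ 2 * 1 := by linarith
            _ ≤ (180 * T) ^ 2 * ((‖Z1 (pt y)‖ / T) ^ β / s ^ β) := by gcongr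
            _ = _ := by ring
        have h5 := mul_le_mul_of_nonneg_right h4 hw.le
        have h6 : 0 ≤ s ^ 2 * ((1 + |(y - T) / U|) ^ 0 * Real.exp (-(((y - T) / U) ^ 2 / 2))) := by
          positivity
        unfold pR
        linarith
  have i0 := scaled_integrable 0 T hU
  have i1 := pR_int hβ hA
  obtain ⟨i2, i2'⟩ := tR_int 1 hT0
  have i3 : Integrable (fun y : ℝ => (‖Z1 (pt y)‖ / T) ^ 2 * wt T U y) := by
    have := pR_int (β := 2) (by norm_num) hA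
    refine this.congr (Eventually.of_forall fun y => ?_)
    simp only [pR]
    rw [Real.rpow_two]
  have hI := integral_mono i3 (((i0.const_mul (s ^ 2)).add (i1.const_mul ((180 * T) ^ 2 / s ^ β))).add i2)
    hpt
  have hI' : ∫ y : ℝ, (‖Z1 (pt y)‖ / T) ^ 2 * wt T U y ≤
      s ^ 2 * (U * KK 0) + (180 * T) ^ 2 / s ^ β * PI β T U + ∫ y, tR 1 T y := by
    have a1 := integral_add ((i0.const_mul (s ^ 2)).add (i1.const_mul ((180 * T) ^ 2 / s ^ β))) i2
    have a2 := integral_add (i0.const_mul (s ^ 2)) (i1.const_mul ((180 * T) ^ 2 / s ^ β))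
    rw [integral_const_mul, integral_const_mul, scaled_integral 0 T hU] at a2
    refine hI.trans ((le_of_eq a1).trans ?_)
    exact (congrArg (fun z => z + ∫ y, tR 1 T y) a2).le
  have h3 : c₀ * U ≤ ∫ y : ℝ, (‖Z1 (pt y)‖ / T) ^ 2 * wt T U y := by
    have h4 := hV T U hA
    rw [V0, VI_eq] at h4
    have e2 : (1 / 2 - 1 / 2 : ℝ) ^ 2 / U ^ 2 = 0 := by norm_num
    rw [e2, Real.exp_zero, one_mul, PP] at h4
    have e3 : ∫ y : ℝ, (‖Z1 (pt y)‖ / T) ^ 2 * wt T U y =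
        (1 / T ^ 2) * ∫ y : ℝ, ‖Z1 (((1 / 2 : ℝ) : ℂ) + y * I)‖ ^ (2 * 1) * wt T U y := by
      rw [← integral_const_mul]
      refine integral_congr_ae (Eventually.of_forall fun y => ?_)
      simp only [pt]
      rw [mul_one]
      field_simp
    rw [e3]
    calc c₀ * U = (1 / T ^ 2) * (c₀ * (T ^ (2 * 1) * U)) := by
          rw [mul_one]; field_simp
      _ ≤ _ := by gcongr
  have hU1 := hA.2.1
  have h4 : s ^ 2 * (U * KK 0) ≤ c₀ / 4 * U := by
    calc s ^ 2 * (U * KK 0) ≤ c₀ / (4 * (KK 0 + 1)) * (U * KK 0) := by gcongr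
      _ = c₀ / 4 * U * (KK 0 / (KK 0 + 1)) := by field_simp
      _ ≤ c₀ / 4 * U * 1 := by
          gcongr
          rw [div_le_one (by positivity)]
          linarith
      _ = _ := by ring
  have h5 : c₀ / 2 ≤ (180 * T) ^ 2 / s ^ β * PI β T U := by
    have h6 : c₀ / 4 ≤ c₀ / 4 * U := by nlinarith
    nlinarith
  have h6 : c₀ / 2 * s ^ β / 180 ^ 2 / T ^ 2 = (c₀ / 2) / ((180 * T) ^ 2 / s ^ β) := by
    field_simp
  rw [h6, div_le_iff₀ (by positivity), mul_comm]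
  exact h5

end

end Q97.BS
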